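import Pool.Agent.H87.CS.Rie

/-!
# Module Wnl: bounded pointwise limits (70 lines)

Let `w k = max (-M) (min M (h k))`, so `‖w k‖ ≤ M`, and `v k = h k - w k`.  Then `|v k t| ≤ B + M`, `v k t → H t - H t = 0`
(clipping is continuous, `|H t| ≤ M`).  By `signed_riesz` (take `borel K`) and dominated convergence `μ (v k) → 0`, and
`a = μ (w k) + μ (v k) ≤ ‖μ‖ * M + μ (v k)`.
-/

namespace Pool.Agent.H87.CS

open Filter Topology

/-- dominated convergence for a functional on `C(K)` -/
private theorem wnl_tendsto {K : Type} [TopologicalSpace K] [CompactSpace K] [T2Space K]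
    (μ : C(K, ℝ) →L[ℝ] ℝ) (v : ℕ → C(K, ℝ)) (C : ℝ) (hC : ∀ k t, |v k t| ≤ C)
    (hv : ∀ t, Tendsto (fun k => v k t) atTop (𝓝 0)) :
    Tendsto (fun k => μ (v k)) atTop (𝓝 0) := by
  letI : MeasurableSpace K := borel K
  haveI : BorelSpace K := ⟨rfl⟩
  obtain ⟨μ₁, μ₂, h1, h2, h3⟩ := signed_riesz μ
  have key : ∀ ν : MeasureTheory.Measure K, MeasureTheory.IsFiniteMeasure ν →
      Tendsto (fun k => ∫ t, v k t ∂ν) atTop (𝓝 0) := by
    intro ν hν
    have := MeasureTheory.tendsto_integral_of_dominated_convergence (μ := ν)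
      (F := fun k t => v k t) (f := fun _ => (0 : ℝ)) (fun _ => C)
      (fun k => (v k).continuous.measurable.aestronglyMeasurable)
      (MeasureTheory.integrable_const C)
      (fun k => Filter.Eventually.of_forall fun t => by
        rw [Real.norm_eq_abs]
        exact hC k t)
      (Filter.Eventually.of_forall hv)
    simpa using this
  have := (key μ₁ h1).sub (key μ₂ h2)
  rw [sub_zero] at this
  exact this.congr fun k => (h3 (v k)).symm

theorem le_of_pointwise {K : Type} [TopologicalSpace K] [CompactSpace K] [T2Space K]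
    (μ : C(K, ℝ) →L[ℝ] ℝ) (h : ℕ → C(K, ℝ)) (B M a : ℝ) (H : K → ℝ) (hB : ∀ k, ‖h k‖ ≤ B)
    (hH : ∀ t, Tendsto (fun k => h k t) atTop (𝓝 (H t))) (hM : ∀ t, |H t| ≤ M) (hM0 : 0 ≤ M)
    (ha : ∀ k, μ (h k) = a) : a ≤ ‖μ‖ * M := by
  let w : ℕ → C(K, ℝ) := fun k =>
    ⟨fun t => max (-M) (min M (h k t)), by
      exact continuous_const.max (continuous_const.min (h k).continuous)⟩
  have hw : ∀ k t, w k t = max (-M) (min M (h k t)) := fun k t => rfl
  have hwM : ∀ k, ‖w k‖ ≤ M := by
    intro k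
    rw [ContinuousMap.norm_le _ hM0]
    intro t
    rw [hw, Real.norm_eq_abs, abs_le]
    exact ⟨le_max_left _ _, max_le (by linarith) (min_le_left _ _)⟩
  have hlim : ∀ t, Tendsto (fun k => (h k - w k) t) atTop (𝓝 0) := by
    intro t
    have h1 : Tendsto (fun k => w k t) atTop (𝓝 (H t)) := by
      have h2 : Tendsto (fun k => max (-M) (min M (h k t))) atTop (𝓝 (max (-M) (min M (H t)))) :=
        tendsto_const_nhds.max (tendsto_const_nhds.min (hH t))
      have h3 : max (-M) (min M (H t)) = H t := by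
        have h4 := abs_le.mp (hM t)
        rw [min_eq_right h4.2, max_eq_right h4.1]
      rw [h3] at h2
      exact h2
    have h2 := (hH t).sub h1
    rw [sub_self] at h2
    exact h2
  have hbd : ∀ k t, |(h k - w k) t| ≤ B + M := by
    intro k t
    rw [ContinuousMap.sub_apply]
    have h1 : |h k t| ≤ B := ((h k).norm_coe_le_norm t).trans (hB k)
    have h2 : |w k t| ≤ M := ((w k).norm_coe_le_norm t).trans (hwM k)
    exact (abs_sub _ _).trans (add_le_add h1 h2)
  have h0 := wnl_tendsto μ (fun k => h k - w k) (B + M) hbd hlim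
  have hle : ∀ k, a ≤ ‖μ‖ * M + μ (h k - w k) := by
    intro k
    have h1 : μ (w k) ≤ ‖μ‖ * M := by
      calc μ (w k) ≤ ‖μ (w k)‖ := le_abs_self _
        _ ≤ ‖μ‖ * ‖w k‖ := μ.le_opNorm _
        _ ≤ ‖μ‖ * M := by gcongr; exact hwM k
    have h2 : μ (h k - w k) = a - μ (w k) := by
      rw [map_sub, ha k]
    rw [h2]
    linarith
  have h5 : Tendsto (fun k => ‖μ‖ * M + μ (h k - w k)) atTop (𝓝 (‖μ‖ * M + 0)) :=
    tendsto_const_nhds.add h0
  rw [add_zero] at h5
  exact ge_of_tendsto' h5 hle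

end Pool.Agent.H87.CS
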