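import Mathlib

/-!
# Module Rie: signed Riesz representation theorem on a compact Hausdorff space (150 lines)

Adapt `Pool/Agent/H65/SignedRiesz.lean` (there for `ℂ`): positive part
`μ⁺ f = sup {μ h | 0 ≤ h ≤ f}` for `0 ≤ f`, then `RealRMK.rieszMeasure` for the two positive functionals `μ⁺` and
`μ⁺ - μ` on `C_c(K, ℝ)` (on a compact space `C_c(K, ℝ)` and `C(K, ℝ)` are the same, `CompactlySupportedContinuousMap`),
the measures are finite because they are finite on compact sets.
-/

namespace Pool.Agent.H87.CS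

open MeasureTheory

section Rie

set_option linter.unusedSectionVars false

open Set Filter Topology Metric
open scoped ENNReal NNReal CompactlySupported
open CompactlySupportedContinuousMap

variable {K : Type} [TopologicalSpace K] [T2Space K] [LocallyCompactSpace K] [MeasurableSpace K] [BorelSpace K]

variable (G : C_c(K, ℝ) →ₗ[ℝ] ℝ)

/-- values of `G` below `f` -/
def rie_belowSet (f : C_c(K, ℝ≥0)) : Set ℝ := {r | ∃ g : C_c(K, ℝ≥0), g ≤ f ∧ r = G g.toReal}

lemma rie_exists_bound_cc (f : C_c(K, ℝ≥0)) : ∃ b : ℝ, 0 ≤ b ∧ ∀ x, (f x : ℝ) ≤ b := by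
  obtain ⟨b, hb⟩ := f.toReal.continuous.bounded_above_of_compact_support f.toReal.hasCompactSupport
  refine ⟨max b 0, le_max_right _ _, fun x => ?_⟩
  have := hb x
  rw [coe_toContinuousMap, toReal_apply, Real.norm_of_nonneg (NNReal.coe_nonneg _)] at this
  exact this.trans (le_max_left _ _)

lemma rie_zero_mem_belowSet (f : C_c(K, ℝ≥0)) : (0:ℝ) ∈ rie_belowSet G f := by
  refine ⟨0, ?_, ?_⟩
  · intro x; simp
  · have : (0 : C_c(K, ℝ≥0)).toReal = 0 := by ext x; simp
    rw [this, map_zero]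

variable {C : ℝ} (hC : 0 ≤ C) (hG : ∀ f : C_c(K, ℝ), ∀ b, (∀ x, |f x| ≤ b) → |G f| ≤ C * b)

include hG in
lemma rie_bddAbove_belowSet (f : C_c(K, ℝ≥0)) : BddAbove (rie_belowSet G f) := by
  obtain ⟨b, hb0, hb⟩ := rie_exists_bound_cc f
  refine ⟨C * b, ?_⟩
  rintro r ⟨g, hg, rfl⟩
  refine (le_abs_self _).trans (hG _ b fun x => ?_)
  rw [toReal_apply, abs_of_nonneg (NNReal.coe_nonneg _)]
  exact le_trans (by exact_mod_cast hg x) (hb x)

/-- The positive part of `G`. -/
noncomputable def rie_posPart (f : C_c(K, ℝ≥0)) : ℝ := sSup (rie_belowSet G f)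

include hG in
lemma rie_posPart_nonneg (f : C_c(K, ℝ≥0)) : 0 ≤ rie_posPart G f :=
  le_csSup (rie_bddAbove_belowSet G hG f) (rie_zero_mem_belowSet G f)

include hG in
lemma rie_le_posPart (f : C_c(K, ℝ≥0)) : G f.toReal ≤ rie_posPart G f :=
  le_csSup (rie_bddAbove_belowSet G hG f) ⟨f, le_rfl, rfl⟩

include hG in
lemma rie_posPart_add (f f' : C_c(K, ℝ≥0)) : rie_posPart G (f + f') = rie_posPart G f + rie_posPart G f' := by
  apply le_antisymm
  · apply csSup_le ⟨0, rie_zero_mem_belowSet G _⟩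
    rintro r ⟨g, hg, rfl⟩
    have h1 : g ⊓ f ≤ g := fun x => by simp
    obtain ⟨g2, hg2⟩ := CompactlySupportedContinuousMap.exists_add_of_le h1
    have h2 : g2 ≤ f' := by
      intro x
      have h3 : (g ⊓ f) x + g2 x = g x := by
        rw [← CompactlySupportedContinuousMap.add_apply, hg2]
      have h4 := hg x
      simp only [CompactlySupportedContinuousMap.inf_apply, CompactlySupportedContinuousMap.add_apply] at h3 h4
      rcases le_total (g x) (f x) with h | h
      · rw [inf_eq_left.mpr h] at h3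
        have : g2 x = 0 := by simpa using h3
        change g2 x ≤ f' x
        rw [this]; exact zero_le
      · rw [inf_eq_right.mpr h] at h3
        change g2 x ≤ f' x
        rw [← h3] at h4
        exact le_of_add_le_add_left h4
    have h5 : G g.toReal = G (g ⊓ f).toReal + G g2.toReal := by
      rw [← map_add, ← toReal_add, hg2]
    rw [h5]
    apply add_le_add
    · apply le_csSup (rie_bddAbove_belowSet G hG f)
      exact ⟨g ⊓ f, fun x => by simp, rfl⟩
    · apply le_csSup (rie_bddAbove_belowSet G hG f')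
      exact ⟨g2, h2, rfl⟩
  · have h1 : ∀ r ∈ rie_belowSet G f, ∀ r' ∈ rie_belowSet G f', r + r' ≤ rie_posPart G (f + f') := by
      rintro r ⟨g, hg, rfl⟩ r' ⟨g', hg', rfl⟩
      rw [← map_add, ← toReal_add]
      apply le_csSup (rie_bddAbove_belowSet G hG _)
      exact ⟨g + g', fun x => by
        simp only [CompactlySupportedContinuousMap.add_apply]; exact add_le_add (hg x) (hg' x), rfl⟩
    have h2 : ∀ r ∈ rie_belowSet G f, r + rie_posPart G f' ≤ rie_posPart G (f + f') := by
      intro r hr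
      rw [add_comm, ← le_sub_iff_add_le]
      apply csSup_le ⟨0, rie_zero_mem_belowSet G _⟩
      intro r' hr'
      linarith [h1 r hr r' hr']
    rw [← le_sub_iff_add_le]
    apply csSup_le ⟨0, rie_zero_mem_belowSet G _⟩
    intro r hr
    linarith [h2 r hr]

include hG in
lemma rie_posPart_smul (c : ℝ≥0) (f : C_c(K, ℝ≥0)) : rie_posPart G (c • f) = c * rie_posPart G f := by
  have key : ∀ (c : ℝ≥0) (f : C_c(K, ℝ≥0)), (c:ℝ) * rie_posPart G f ≤ rie_posPart G (c • f) := by
    intro c f
    rcases eq_or_ne c 0 with rfl | hc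
    · simpa using rie_posPart_nonneg G hG _
    have hcpos : (0:ℝ) < c := by exact_mod_cast pos_of_ne_zero hc
    rw [mul_comm, ← le_div_iff₀ hcpos]
    apply csSup_le ⟨0, rie_zero_mem_belowSet G _⟩
    rintro r ⟨g, hg, rfl⟩
    rw [le_div_iff₀ hcpos]
    apply le_csSup (rie_bddAbove_belowSet G hG _)
    refine ⟨c • g, fun x => ?_, ?_⟩
    · simp only [CompactlySupportedContinuousMap.smul_apply, smul_eq_mul]
      exact mul_le_mul_right (hg x) c
    · rw [toReal_smul]
      have : (c • g.toReal : C_c(K, ℝ)) = (c : ℝ) • g.toReal := by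
        ext x; simp [NNReal.smul_def]
      rw [this, map_smul, smul_eq_mul, mul_comm]
  apply le_antisymm _ (key c f)
  rcases eq_or_ne c 0 with rfl | hc
  · simp only [zero_smul, NNReal.coe_zero, zero_mul]
    apply csSup_le ⟨0, rie_zero_mem_belowSet G _⟩
    rintro r ⟨g, hg, rfl⟩
    have : g.toReal = 0 := by
      ext x
      have := hg x
      rw [CompactlySupportedContinuousMap.zero_apply, nonpos_iff_eq_zero] at this
      rw [toReal_apply, CompactlySupportedContinuousMap.zero_apply, this, NNReal.coe_zero]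
    rw [this, map_zero]
  · have hcpos : (0:ℝ) < c := by exact_mod_cast pos_of_ne_zero hc
    have h1 := key c⁻¹ (c • f)
    rw [smul_smul, inv_mul_cancel₀ hc, one_smul, NNReal.coe_inv, inv_mul_le_iff₀ hcpos] at h1
    exact h1

/-- The positive part as a linear map. -/
noncomputable def rie_posLin : C_c(K, ℝ≥0) →ₗ[ℝ≥0] ℝ≥0 where
  toFun f := ⟨rie_posPart G f, rie_posPart_nonneg G hG f⟩
  map_add' f g := by
    apply NNReal.eq
    rw [NNReal.coe_add]
    exact rie_posPart_add G hG f g
  map_smul' c f := by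
    apply NNReal.eq
    rw [RingHom.id_apply, smul_eq_mul, NNReal.coe_mul]
    exact rie_posPart_smul G hG c f

/-- The negative part as a linear map. -/
noncomputable def rie_negLin : C_c(K, ℝ≥0) →ₗ[ℝ≥0] ℝ≥0 where
  toFun f := ⟨rie_posPart G f - G f.toReal, sub_nonneg.mpr (rie_le_posPart G hG f)⟩
  map_add' f g := by
    apply NNReal.eq
    rw [NNReal.coe_add]
    change rie_posPart G (f + g) - G (f + g).toReal =
      (rie_posPart G f - G f.toReal) + (rie_posPart G g - G g.toReal)
    rw [rie_posPart_add G hG f g, toReal_add, map_add]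
    ring
  map_smul' c f := by
    apply NNReal.eq
    rw [RingHom.id_apply, smul_eq_mul, NNReal.coe_mul]
    change rie_posPart G (c • f) - G (c • f).toReal = c * (rie_posPart G f - G f.toReal)
    rw [rie_posPart_smul G hG c f, toReal_smul]
    have : (c • f.toReal : C_c(K, ℝ)) = (c : ℝ) • f.toReal := by
      ext x; simp [NNReal.smul_def]
    rw [this, map_smul, smul_eq_mul]
    ring

include hG in
theorem rie_signed_riesz : ∃ μ₁ μ₂ : Measure K, IsLocallyFiniteMeasure μ₁ ∧
    IsLocallyFiniteMeasure μ₂ ∧ ∀ f : C_c(K, ℝ), G f = (∫ x, f x ∂μ₁) - ∫ x, f x ∂μ₂ := by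
  refine ⟨RealRMK.rieszMeasure (toRealPositiveLinear (rie_posLin G hG)),
    RealRMK.rieszMeasure (toRealPositiveLinear (rie_negLin G hG)), inferInstance, inferInstance, ?_⟩
  intro f
  rw [RealRMK.integral_rieszMeasure, RealRMK.integral_rieszMeasure, toRealPositiveLinear_apply,
    toRealPositiveLinear_apply]
  have h1 : ∀ g, ((rie_posLin G hG g : ℝ≥0) : ℝ) = rie_posPart G g := fun g => rfl
  have h2 : ∀ g, ((rie_negLin G hG g : ℝ≥0) : ℝ) = rie_posPart G g - G g.toReal := fun g => rfl
  rw [h1, h1, h2, h2]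
  have h3 : G f = G f.nnrealPart.toReal - G (-f).nnrealPart.toReal := by
    rw [← map_sub, nnrealPart_sub_nnrealPart_neg]
  rw [h3]
  ring


end Rie

theorem signed_riesz {K : Type} [TopologicalSpace K] [CompactSpace K] [T2Space K]
    [MeasurableSpace K] [BorelSpace K] (μ : C(K, ℝ) →L[ℝ] ℝ) :
    ∃ μ₁ μ₂ : Measure K, IsFiniteMeasure μ₁ ∧ IsFiniteMeasure μ₂ ∧
      ∀ f : C(K, ℝ), μ f = ∫ t, f t ∂μ₁ - ∫ t, f t ∂μ₂ := by
  rcases isEmpty_or_nonempty K with h | ⟨⟨x0⟩⟩
  · refine ⟨0, 0, inferInstance, inferInstance, fun f => ?_⟩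
    have h0 : f = 0 := by
      ext x
      exact (h.false x).elim
    rw [h0, map_zero]
    simp
  let G : CompactlySupportedContinuousMap K ℝ →ₗ[ℝ] ℝ :=
    { toFun := fun f => μ f.toContinuousMap
      map_add' := fun f g => by
        rw [← map_add]
        rfl
      map_smul' := fun c f => by
        rw [RingHom.id_apply, ← map_smul]
        rfl }
  have hG : ∀ f : CompactlySupportedContinuousMap K ℝ, ∀ b, (∀ x, |f x| ≤ b) → |G f| ≤ ‖μ‖ * b := by
    intro f b hb
    have hb0 : 0 ≤ b := (abs_nonneg _).trans (hb x0)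
    have h1 : ‖f.toContinuousMap‖ ≤ b := (ContinuousMap.norm_le _ hb0).mpr fun x => hb x
    calc |G f| = ‖μ f.toContinuousMap‖ := rfl
      _ ≤ ‖μ‖ * ‖f.toContinuousMap‖ := μ.le_opNorm _
      _ ≤ ‖μ‖ * b := by gcongr
  obtain ⟨μ₁, μ₂, h1, h2, h3⟩ := rie_signed_riesz G hG
  refine ⟨μ₁, μ₂, inferInstance, inferInstance, fun f => ?_⟩
  exact h3 ⟨f, HasCompactSupport.of_compactSpace f⟩

end Pool.Agent.H87.CS
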