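import Mathlib

/-!
# Module Avg: the averaging operator (80 lines)

`A y x = ∫ θ in Set.Ioo 0 1, y (fun n => decide (θ < x n))` (Lebesgue measure).  The integrand is bounded by `‖y‖` and measurable
(`y` is continuous, `ℕ → Bool` is a Borel space, every coordinate `θ ↦ decide (θ < x n)` is measurable).
Continuity in `x`: `MeasureTheory.continuousAt_of_dominated` (or `continuous_of_dominated`; the space `ℕ → ℝ` is first countable): for
`θ` outside the countable set `{x n}`, the map `x' ↦ decide (θ < x' n)` is locally constant at `x`, for every `n`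
(`continuousAt_pi`).  If `x n = if β n = true then 1 else 0`, then `decide (θ < x n) = β n` for `0 < θ < 1`.
-/

namespace Pool.Agent.H87.CS

open MeasureTheory Filter Topology

private noncomputable def avgB (θ : ℝ) (x : ℕ → ℝ) : ℕ → Bool := fun n => decide (θ < x n)

private lemma avg_meas (x : ℕ → ℝ) : Measurable (fun θ : ℝ => avgB θ x) := by
  refine measurable_pi_lambda _ fun n => measurable_to_bool ?_
  have h : (fun θ : ℝ => avgB θ x n) ⁻¹' {true} = Set.Iio (x n) := by
    ext θ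
    simp [avgB]
  rw [h]
  exact measurableSet_Iio

private lemma avg_aesm (y : C(ℕ → Bool, ℝ)) (x : ℕ → ℝ) :
    AEStronglyMeasurable (fun θ : ℝ => y (avgB θ x)) (volume.restrict (Set.Ioo 0 1)) :=
  (y.continuous.measurable.comp (avg_meas x)).aestronglyMeasurable

private lemma avg_int (y : C(ℕ → Bool, ℝ)) (x : ℕ → ℝ) :
    Integrable (fun θ : ℝ => y (avgB θ x)) (volume.restrict (Set.Ioo 0 1)) :=
  Integrable.of_bound (avg_aesm y x) ‖y‖ (ae_of_all _ fun _ => y.norm_coe_le_norm _)

private lemma avg_cont_coord (θ : ℝ) (x : ℕ → ℝ) (hθ : θ ∉ Set.range x) (n : ℕ) :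
    ContinuousAt (fun x' : ℕ → ℝ => avgB θ x' n) x := by
  have hn : x n ≠ θ := fun h => hθ ⟨n, h⟩
  have hc : Tendsto (fun x' : ℕ → ℝ => x' n) (𝓝 x) (𝓝 (x n)) := (continuous_apply n).tendsto x
  rcases lt_or_gt_of_ne hn with h | h
  · have h1 : ∀ᶠ x' : ℕ → ℝ in 𝓝 x, x' n < θ := hc.eventually (gt_mem_nhds h)
    have h2 : (fun _ : ℕ → ℝ => false) =ᶠ[𝓝 x] fun x' : ℕ → ℝ => avgB θ x' n := by
      filter_upwards [h1] with x' hx'
      simp [avgB, hx'.le]
    exact continuousAt_const.congr h2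
  · have h1 : ∀ᶠ x' : ℕ → ℝ in 𝓝 x, θ < x' n := hc.eventually (lt_mem_nhds h)
    have h2 : (fun _ : ℕ → ℝ => true) =ᶠ[𝓝 x] fun x' : ℕ → ℝ => avgB θ x' n := by
      filter_upwards [h1] with x' hx'
      simp [avgB, hx']
    exact continuousAt_const.congr h2

private lemma avg_cont (y : C(ℕ → Bool, ℝ)) :
    Continuous (fun x : ℕ → ℝ => ∫ θ in Set.Ioo (0 : ℝ) 1, y (avgB θ x)) := by
  rw [continuous_iff_continuousAt]
  intro x
  refine continuousAt_of_dominated (bound := fun _ => ‖y‖) ?_ ?_ ?_ ?_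
  · exact Eventually.of_forall fun x' => avg_aesm y x'
  · exact Eventually.of_forall fun x' => ae_of_all _ fun _ => y.norm_coe_le_norm _
  · exact integrable_const _
  · have h0 : ∀ᵐ θ : ℝ ∂(volume.restrict (Set.Ioo (0 : ℝ) 1)), θ ∉ Set.range x :=
      (Set.countable_range x).ae_notMem _
    filter_upwards [h0] with θ hθ
    exact y.continuous.continuousAt.comp (continuousAt_pi.2 fun n => avg_cont_coord θ x hθ n)

theorem exists_avg : ∃ A : C(ℕ → Bool, ℝ) → (ℕ → ℝ) → ℝ,
    (∀ y, Continuous (A y)) ∧ (∀ y z x, A (y + z) x = A y x + A z x) ∧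
    (∀ (a : ℝ) y x, A (a • y) x = a * A y x) ∧ (∀ y x, |A y x| ≤ ‖y‖) ∧
    ∀ (y : C(ℕ → Bool, ℝ)) (β : ℕ → Bool),
      A y (fun n => if β n = true then 1 else 0) = y β := by
  refine ⟨fun y x => ∫ θ in Set.Ioo (0 : ℝ) 1, y (avgB θ x), avg_cont, fun y z x => ?_,
    fun a y x => ?_, fun y x => ?_, fun y β => ?_⟩
  · change ∫ θ in Set.Ioo (0 : ℝ) 1, (y + z) (avgB θ x) = _
    rw [← integral_add (avg_int y x) (avg_int z x)]
    rfl
  · change ∫ θ in Set.Ioo (0 : ℝ) 1, (a • y) (avgB θ x) = a * ∫ θ in Set.Ioo (0 : ℝ) 1, y (avgB θ x)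
    rw [← integral_const_mul]
    rfl
  · have h1 := norm_setIntegral_le_of_norm_le_const (μ := volume) (s := Set.Ioo (0 : ℝ) 1)
      (f := fun θ : ℝ => y (avgB θ x)) (C := ‖y‖) (by simp) (fun _ _ => y.norm_coe_le_norm _)
    have h2 : (volume : Measure ℝ).real (Set.Ioo (0 : ℝ) 1) = 1 := by
      simp [Measure.real]
    rw [h2, mul_one] at h1
    exact h1
  · have h1 : ∫ θ in Set.Ioo (0 : ℝ) 1, y (avgB θ (fun n => if β n = true then 1 else 0))
        = ∫ _ in Set.Ioo (0 : ℝ) 1, y β := by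
      refine setIntegral_congr_fun measurableSet_Ioo fun θ hθ => ?_
      have h2 : avgB θ (fun n => if β n = true then 1 else 0) = β := by
        funext n
        unfold avgB
        cases h3 : β n
        · simp [h3, hθ.1.le]
        · simp [h3, hθ.2]
      change y (avgB θ (fun n => if β n = true then 1 else 0)) = y β
      rw [h2]
    refine h1.trans ?_
    simp

end Pool.Agent.H87.CS
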