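import Pool.Agent.H87.CS.Defs

/-!
# Module Bas: the basis of the dual (60 lines)

`e n = Φ.symm (lp.single 1 n 1)`, `g n u = Φ u n` (a continuous linear functional: `|Φ u n| ≤ ‖Φ u‖ = ‖u‖`,
`lp.norm_apply_le_norm`).  `norm`: `lp.hasSum_norm` with `p = 1`.  `expand`: `lp.hasSum_single` for `Φ u`, apply the
continuous linear map `v ↦ Φ.symm v x`.  `coord`: `lp.single_apply`.
-/

namespace Pool.Agent.H87.CS

theorem exists_isL1 {X : Type} [NormedAddCommGroup X] [NormedSpace ℝ X]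
    (Φ : (X →L[ℝ] ℝ) ≃ₗᵢ[ℝ] lp (fun _ : ℕ => ℝ) 1) :
    ∃ (e : ℕ → (X →L[ℝ] ℝ)) (g : ℕ → (X →L[ℝ] ℝ) →L[ℝ] ℝ), IsL1 e g := by
  let e : ℕ → (X →L[ℝ] ℝ) := fun n => Φ.symm (lp.single 1 n (1 : ℝ))
  let g : ℕ → (X →L[ℝ] ℝ) →L[ℝ] ℝ := fun n =>
    LinearMap.mkContinuous
      { toFun := fun u => (Φ u : ℕ → ℝ) n
        map_add' := by
          intro u v
          rw [map_add]
          rfl
        map_smul' := by
          intro c u
          rw [map_smul]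
          rfl } 1 (by
        intro u
        rw [one_mul, ← Φ.norm_map u]
        exact lp.norm_apply_le_norm one_ne_zero (Φ u) n)
  have hg : ∀ n u, g n u = (Φ u : ℕ → ℝ) n := fun n u => rfl
  refine ⟨e, g, ?_, ?_, ?_⟩
  · intro u
    have h1 := lp.hasSum_norm (E := fun _ : ℕ => ℝ) (p := 1) (by simp) (Φ u)
    simp only [ENNReal.toReal_one, Real.rpow_one, Real.norm_eq_abs, Φ.norm_map] at h1
    exact h1
  · intro u x
    have h1 := lp.hasSum_single (E := fun _ : ℕ => ℝ) (p := 1) ENNReal.one_ne_top (Φ u)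
    have h2 := (h1.mapL (Φ.symm.toContinuousLinearEquiv :
      lp (fun _ : ℕ => ℝ) 1 →L[ℝ] (X →L[ℝ] ℝ))).mapL (ContinuousLinearMap.apply ℝ ℝ x)
    have h3 : ∀ n, (ContinuousLinearMap.apply ℝ ℝ x) ((Φ.symm.toContinuousLinearEquiv :
      lp (fun _ : ℕ => ℝ) 1 →L[ℝ] (X →L[ℝ] ℝ)) (lp.single 1 n ((Φ u : ℕ → ℝ) n))) =
        g n u * e n x := by
      intro n
      have h4 : lp.single (E := fun _ : ℕ => ℝ) 1 n ((Φ u : ℕ → ℝ) n) =
          ((Φ u : ℕ → ℝ) n) • lp.single (E := fun _ : ℕ => ℝ) 1 n (1 : ℝ) := by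
        rw [← lp.single_smul, smul_eq_mul, mul_one]
      rw [h4, map_smul, map_smul, hg, smul_eq_mul]
      rfl
    have h5 : (ContinuousLinearMap.apply ℝ ℝ x) ((Φ.symm.toContinuousLinearEquiv :
      lp (fun _ : ℕ => ℝ) 1 →L[ℝ] (X →L[ℝ] ℝ)) (Φ u)) = u x := by
      change (Φ.symm (Φ u)) x = u x
      rw [Φ.symm_apply_apply]
    rw [h5] at h2
    exact h2.congr_fun fun n => (h3 n).symm
  · intro m n
    rw [hg]
    change (Φ (Φ.symm (lp.single 1 n (1 : ℝ))) : ℕ → ℝ) m = _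
    rw [Φ.apply_symm_apply]
    by_cases h : m = n
    · subst h
      rw [if_pos rfl, lp.single_apply_self]
    · rw [if_neg h, lp.single_apply_ne _ _ _ h]

end Pool.Agent.H87.CS
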