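import Mathlib

/-!
# Nearly contractively complemented preduals of `ℓ₁`: definitions

`IsL1 e g`: the sequence `e` in the dual of `X` is isometrically equivalent to the unit vector basis of `ℓ₁` and
spans the dual, `g n` is the coordinate functional number `n`.

`Setup`: the identity of `X` factors as `P ∘ J` through `C(K)` with `‖J‖ ≤ 1`, `‖P‖ ≤ 1 + l`.

`Odd τ`: the odd functions; `Van a`: the functions vanishing at `a`.
-/

namespace Pool.Agent.H87.CS

/-- The dual of `X` is isometric to `ℓ₁`, with basis `e` and coordinate functionals `g`. -/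
structure IsL1 {X : Type} [NormedAddCommGroup X] [NormedSpace ℝ X]
    (e : ℕ → (X →L[ℝ] ℝ)) (g : ℕ → (X →L[ℝ] ℝ) →L[ℝ] ℝ) : Prop where
  /-- the norm is the sum of the absolute values of the coordinates -/
  norm : ∀ u : X →L[ℝ] ℝ, HasSum (fun n => |g n u|) ‖u‖
  /-- expansion, evaluated at `x` -/
  expand : ∀ (u : X →L[ℝ] ℝ) (x : X), HasSum (fun n => g n u * e n x) (u x)
  /-- coordinates of the basis -/
  coord : ∀ m n, g m (e n) = if m = n then 1 else 0

/-- The identity of `X` factors through `C(K)`. -/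
structure Setup {X K : Type} [NormedAddCommGroup X] [NormedSpace ℝ X] [TopologicalSpace K]
    [CompactSpace K] (e : ℕ → (X →L[ℝ] ℝ)) (g : ℕ → (X →L[ℝ] ℝ) →L[ℝ] ℝ)
    (J : X →L[ℝ] C(K, ℝ)) (P : C(K, ℝ) →L[ℝ] X) (l : ℝ) : Prop where
  isL1 : IsL1 e g
  l0 : 0 ≤ l
  hJ : ‖J‖ ≤ 1
  hP : ‖P‖ ≤ 1 + l
  PJ : ∀ x, P (J x) = x

/-- The functional `x ↦ (J x) t`. -/
noncomputable def phi {X K : Type} [NormedAddCommGroup X] [NormedSpace ℝ X] [TopologicalSpace K]
    [CompactSpace K] (J : X →L[ℝ] C(K, ℝ)) (t : K) : X →L[ℝ] ℝ :=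
  (ContinuousMap.evalCLM ℝ t).comp J

/-- The odd functions on `L` with respect to `τ`. -/
def Odd {L : Type} [TopologicalSpace L] (τ : C(L, L)) : Submodule ℝ C(L, ℝ) where
  carrier := {y | ∀ a, y (τ a) = - y a}
  add_mem' := by
    intro y z hy hz a
    change ∀ a, y (τ a) = - y a at hy
    change ∀ a, z (τ a) = - z a at hz
    rw [ContinuousMap.add_apply, ContinuousMap.add_apply, hy a, hz a]
    ring
  zero_mem' := by
    intro a
    simp
  smul_mem' := by
    intro c y hy a
    change ∀ a, y (τ a) = - y a at hy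
    rw [ContinuousMap.smul_apply, ContinuousMap.smul_apply, hy a, smul_neg]

/-- The functions on `M` which vanish at the point `a`. -/
def Van {M : Type} [TopologicalSpace M] (a : M) : Submodule ℝ C(M, ℝ) where
  carrier := {y | y a = 0}
  add_mem' := by
    intro y z hy hz
    change y a = 0 at hy
    change z a = 0 at hz
    change (y + z) a = 0
    rw [ContinuousMap.add_apply, hy, hz, add_zero]
  zero_mem' := by
    change (0 : C(M, ℝ)) a = 0
    rfl
  smul_mem' := by
    intro c y hy
    change y a = 0 at hy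
    change (c • y) a = 0
    rw [ContinuousMap.smul_apply, hy, smul_zero]

end Pool.Agent.H87.CS
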