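import Pool.Agent.H87.CS.TQ
import Pool.Agent.H87.CS.Defs

/-!
# Module Col: collapsing the complement of the fundamental domain (150 lines)

Let `U = ⋃ k, D k` (open) and `F = Uᶜ` (closed).  `M` is the quotient of `L` by `x ∼ y ↔ x = y ∨ (x ∈ F ∧ y ∈ F)`, a closed relation (`t2_quotient`).
`F` is not empty (`L` has a point of `D 0`, and `τ` maps it to `F`), and `a` is its class.  `D' k` is the image of `D k` (its preimage is `D k`, so it
is clopen).  The isomorphism maps the odd function `y` to the function `w` with `w (class of x) = y x` for `x ∈ U`, and `0` for `x ∈ F`.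
It is continuous: the function `x ↦ if x ∈ U then y x else 0` is continuous on `L` (it is `y` on the open set `U`, `0` on the open set
`⋃ k, τ ⁻¹' D k`, and `≤ |y|` everywhere, with `y = 0` in the remaining points, which are fixed points of `τ`).
Inverse: `w ↦ w ∘ π - w ∘ π ∘ τ`, with `π : L → M` the projection.
-/

namespace Pool.Agent.H87.CS

open Topology Filter

private theorem col_cont {L : Type} [TopologicalSpace L] (τ : C(L, L)) {U : Set L}
    (hU : IsOpen U) (hUτ : ∀ x ∈ U, τ x ∉ U) (hfix : ∀ x, x ∉ U → τ x ∉ U → τ x = x)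
    {y : C(L, ℝ)} (hy : ∀ a, y (τ a) = - y a) :
    Continuous (U.indicator y) := by
  rw [continuous_iff_continuousAt]
  intro x
  by_cases hx : x ∈ U
  · refine y.continuous.continuousAt.congr ?_
    filter_upwards [hU.mem_nhds hx] with z hz
    rw [Set.indicator_of_mem hz]
  · by_cases hx' : τ x ∈ U
    · refine (continuousAt_const (y := (0 : ℝ))).congr ?_
      filter_upwards [(hU.preimage τ.continuous).mem_nhds hx'] with z hz
      rw [Set.indicator_of_notMem]
      intro hz'
      exact hUτ z hz' hz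
    · have h1 := hfix x hx hx'
      have h2 : y x = 0 := by
        have h3 := hy x
        rw [h1] at h3
        linarith
      rw [ContinuousAt, Set.indicator_of_notMem hx]
      refine squeeze_zero_norm (a := fun z => ‖y z‖) (fun z => norm_indicator_le_norm_self _ _) ?_
      have h4 : Tendsto (fun z => ‖y z‖) (𝓝 x) (𝓝 ‖y x‖) := y.continuous.norm.tendsto x
      rwa [h2, norm_zero] at h4

theorem odd_collapse {L : Type} [TopologicalSpace L] [CompactSpace L] [T2Space L] [Countable L]
    (τ : C(L, L)) (hτ : ∀ a, τ (τ a) = a) (D : ℕ → Set L) (hD : ∀ k, IsClopen (D k))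
    (hne : ∀ k, (D k).Nonempty) (h1 : ∀ j k, Disjoint (D j) (τ ⁻¹' D k))
    (h2 : ∀ j k, j ≠ k → Disjoint (D j) (D k))
    (h3 : ∀ a, τ a ≠ a → ∃ k, a ∈ D k ∨ τ a ∈ D k) :
    ∃ (M : Type) (_ : TopologicalSpace M) (_ : CompactSpace M) (_ : T2Space M)
      (_ : Countable M) (a : M) (D' : ℕ → Set M),
      (∀ k, IsClopen (D' k)) ∧ (∀ k, (D' k).Nonempty) ∧
      (∀ j k, j ≠ k → Disjoint (D' j) (D' k)) ∧ (∀ k, a ∉ D' k) ∧
      (∀ x, x ≠ a → ∃ k, x ∈ D' k) ∧
      Nonempty (Odd τ ≃L[ℝ] Van a) := by
  classical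
  set U : Set L := ⋃ k, D k with hUdef
  have hUo : IsOpen U := isOpen_iUnion fun k => (hD k).isOpen
  have hDU : ∀ k, D k ⊆ U := fun k => Set.subset_iUnion D k
  have hUτ : ∀ x ∈ U, τ x ∉ U := by
    intro x hx hx'
    obtain ⟨j, hj⟩ := Set.mem_iUnion.1 hx
    obtain ⟨k, hk⟩ := Set.mem_iUnion.1 hx'
    exact Set.disjoint_left.1 (h1 j k) hj hk
  have hfix : ∀ x, x ∉ U → τ x ∉ U → τ x = x := by
    intro x hx hx'
    by_contra hcon
    obtain ⟨k, hk | hk⟩ := h3 x hcon
    · exact hx (hDU k hk)
    · exact hx' (hDU k hk)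
  let s : Setoid L :=
    { r := fun x y => x = y ∨ (x ∉ U ∧ y ∉ U)
      iseqv :=
        { refl := fun x => Or.inl rfl
          symm := by
            rintro x y (h | ⟨h, h'⟩)
            · exact Or.inl h.symm
            · exact Or.inr ⟨h', h⟩
          trans := by
            rintro x y z (h | ⟨h, h'⟩) (g | ⟨g, g'⟩)
            · exact Or.inl (h.trans g)
            · exact Or.inr ⟨h ▸ g, g'⟩
            · exact Or.inr ⟨h, g ▸ h'⟩
            · exact Or.inr ⟨h, g'⟩ } }
  have hsr : ∀ x y, s x y ↔ (x = y ∨ (x ∉ U ∧ y ∉ U)) := fun x y => Iff.rfl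
  have hcl : IsClosed {p : L × L | s p.1 p.2} := by
    have e : {p : L × L | s p.1 p.2} = {p : L × L | p.1 = p.2} ∪ (Uᶜ ×ˢ Uᶜ) := by
      ext p
      exact hsr p.1 p.2
    rw [e]
    exact (isClosed_eq continuous_fst continuous_snd).union
      (hUo.isClosed_compl.prod hUo.isClosed_compl)
  have hT2 : T2Space (Quotient s) := t2_quotient s hcl
  let π : L → Quotient s := fun x => Quotient.mk s x
  have hπc : Continuous π := continuous_quotient_mk'
  have hπq : IsQuotientMap π := isQuotientMap_quotient_mk'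
  have hπs : Function.Surjective π := Quotient.mk_surjective
  have hπ : ∀ x y, π x = π y ↔ (x = y ∨ (x ∉ U ∧ y ∉ U)) := fun x y => Quotient.eq
  obtain ⟨x0, hx0⟩ := hne 0
  have hx0F : τ x0 ∉ U := hUτ x0 (hDU 0 hx0)
  let a : Quotient s := π (τ x0)
  have ha : ∀ x, π x = a ↔ x ∉ U := by
    intro x
    rw [hπ]
    constructor
    · rintro (h | h)
      · rw [h]; exact hx0F
      · exact h.1
    · intro h
      exact Or.inr ⟨h, hx0F⟩
  have hpre : ∀ k, π ⁻¹' (π '' D k) = D k := by
    intro k
    refine Set.Subset.antisymm ?_ (Set.subset_preimage_image _ _)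
    rintro x ⟨z, hz, hzx⟩
    rcases (hπ z x).1 hzx with h | h
    · rw [← h]; exact hz
    · exact absurd (hDU k hz) h.1
  let F : Odd τ →ₗ[ℝ] Van a :=
    { toFun := fun y => ⟨⟨Quotient.lift (U.indicator (y : C(L, ℝ))) (by
          rintro x z (h | ⟨h, h'⟩)
          · rw [h]
          · rw [Set.indicator_of_notMem h, Set.indicator_of_notMem h']),
          (col_cont τ hUo hUτ hfix y.2).quotient_lift _⟩, by
          change U.indicator (y : C(L, ℝ)) (τ x0) = 0
          rw [Set.indicator_of_notMem hx0F]⟩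
      map_add' := by
        intro y z
        apply Subtype.ext
        ext q
        obtain ⟨x, rfl⟩ := hπs q
        change U.indicator ((y + z : Odd τ) : C(L, ℝ)) x
          = U.indicator (y : C(L, ℝ)) x + U.indicator (z : C(L, ℝ)) x
        by_cases hx : x ∈ U
        · simp only [Set.indicator_of_mem hx]; rfl
        · simp only [Set.indicator_of_notMem hx]; norm_num
      map_smul' := by
        intro c y
        apply Subtype.ext
        ext q
        obtain ⟨x, rfl⟩ := hπs q
        change U.indicator ((c • y : Odd τ) : C(L, ℝ)) x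
          = c * U.indicator (y : C(L, ℝ)) x
        by_cases hx : x ∈ U
        · simp only [Set.indicator_of_mem hx]; rfl
        · simp only [Set.indicator_of_notMem hx]; norm_num }
  have hF : ∀ (y : Odd τ) x, ((F y : C(Quotient s, ℝ)) (π x)) = U.indicator (y : C(L, ℝ)) x :=
    fun y x => rfl
  let G : Van a → Odd τ := fun w =>
    ⟨⟨fun x => (w : C(Quotient s, ℝ)) (π x) - (w : C(Quotient s, ℝ)) (π (τ x)), by
        exact ((w : C(Quotient s, ℝ)).continuous.comp hπc).sub
          ((w : C(Quotient s, ℝ)).continuous.comp (hπc.comp τ.continuous))⟩, by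
      intro x
      change (w : C(Quotient s, ℝ)) (π (τ x)) - (w : C(Quotient s, ℝ)) (π (τ (τ x)))
        = -((w : C(Quotient s, ℝ)) (π x) - (w : C(Quotient s, ℝ)) (π (τ x)))
      rw [hτ]; ring⟩
  have hG : ∀ (w : Van a) x, ((G w : C(L, ℝ)) x)
      = (w : C(Quotient s, ℝ)) (π x) - (w : C(Quotient s, ℝ)) (π (τ x)) := fun w x => rfl
  have hwa : ∀ (w : Van a), (w : C(Quotient s, ℝ)) a = 0 := fun w => w.2
  have hGF : Function.LeftInverse G F := by
    intro y
    apply Subtype.ext
    ext x
    have hyx : (y : C(L, ℝ)) (τ x) = - (y : C(L, ℝ)) x := y.2 x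
    rw [hG, hF, hF]
    by_cases hx : x ∈ U
    · rw [Set.indicator_of_mem hx, Set.indicator_of_notMem (hUτ x hx), sub_zero]
    · by_cases hx' : τ x ∈ U
      · rw [Set.indicator_of_notMem hx, Set.indicator_of_mem hx', hyx]; ring
      · rw [Set.indicator_of_notMem hx, Set.indicator_of_notMem hx']
        have h4 := hfix x hx hx'
        rw [h4] at hyx
        linarith
  have hFG : Function.RightInverse G F := by
    intro w
    apply Subtype.ext
    ext q
    obtain ⟨x, rfl⟩ := hπs q
    rw [hF]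
    by_cases hx : x ∈ U
    · rw [Set.indicator_of_mem hx, hG, (ha (τ x)).2 (hUτ x hx), hwa, sub_zero]
    · rw [Set.indicator_of_notMem hx, (ha x).2 hx, hwa]
  let e : Odd τ ≃ₗ[ℝ] Van a :=
    { F with
      invFun := G
      left_inv := hGF
      right_inv := hFG }
  refine ⟨Quotient s, inferInstance, inferInstance, hT2, inferInstance, a, fun k => π '' D k,
    ?_, ?_, ?_, ?_, ?_, ⟨?_⟩⟩
  · intro k
    refine ⟨?_, ?_⟩
    · rw [← hπq.isClosed_preimage, hpre]; exact (hD k).isClosed
    · rw [← hπq.isOpen_preimage, hpre]; exact (hD k).isOpen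
  · intro k
    exact (hne k).image π
  · intro j k hjk
    rw [Set.disjoint_left]
    intro q hq hq'
    obtain ⟨x, hx, rfl⟩ := hq
    have h5 : x ∈ D k := by rw [← hpre k]; exact hq'
    exact Set.disjoint_left.1 (h2 j k hjk) hx h5
  · rintro k ⟨x, hx, hxa⟩
    exact (ha x).1 hxa (hDU k hx)
  · intro q hq
    obtain ⟨x, rfl⟩ := hπs q
    have h6 : x ∈ U := by
      by_contra hcon
      exact hq ((ha x).2 hcon)
    obtain ⟨k, hk⟩ := Set.mem_iUnion.1 h6
    exact ⟨k, x, hk, rfl⟩
  · refine e.toContinuousLinearEquivOfBounds 1 2 ?_ ?_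
    · intro y
      rw [one_mul]
      refine (ContinuousMap.norm_le _ (norm_nonneg _)).2 ?_
      intro q
      obtain ⟨x, rfl⟩ := hπs q
      change ‖U.indicator (y : C(L, ℝ)) x‖ ≤ ‖(y : C(L, ℝ))‖
      exact (norm_indicator_le_norm_self _ _).trans (ContinuousMap.norm_coe_le_norm _ _)
    · intro w
      refine (ContinuousMap.norm_le _ (by positivity)).2 ?_
      intro x
      change ‖(w : C(Quotient s, ℝ)) (π x) - (w : C(Quotient s, ℝ)) (π (τ x))‖
        ≤ 2 * ‖(w : C(Quotient s, ℝ))‖
      refine (norm_sub_le _ _).trans ?_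
      have h7 := ContinuousMap.norm_coe_le_norm (w : C(Quotient s, ℝ)) (π x)
      have h8 := ContinuousMap.norm_coe_le_norm (w : C(Quotient s, ℝ)) (π (τ x))
      linarith

end Pool.Agent.H87.CS
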