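import Pool.Agent.H87.CS.Key

/-!
# Module Dic: the dichotomy (60 lines)

Let `m` be an index for which `|g m σ|` is maximal (it exists because `∑ |g j σ|` converges: if some `|g j₀ σ| > 0`, only finitely many
`j` have `|g j σ| ≥ |g j₀ σ|`).  Put `b = |g m σ| ≤ ‖σ‖` (`coord_le`), `ρ = ‖σ‖ ≤ 1`, `r = l / (1 - l)`.  Suppose `r < ρ`.  Then `l < ρ`
(`l ≤ r`), and `(1 - l) * ρ ^ 2 ≤ ρ - l`, which is `(ρ - 1) * ((1 - l) * ρ - l) ≤ 0`.  With `key_ineq`: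
`(ρ - l) * (1 + ρ - 2 b) ≤ 2 l ρ ^ 2 ≤ 2 r * (ρ - l)`, so `1 + ρ - 2 b ≤ 2 r`.  For the sign `ε` of `g m σ`, `norm_sub_smul` gives
`‖σ - ε • e m‖ = ρ - b + |g m σ - ε| = ρ - b + (1 - b)` (`b ≤ 1`).
-/

namespace Pool.Agent.H87.CS

open Filter Topology

variable {X K : Type} [NormedAddCommGroup X] [NormedSpace ℝ X] [TopologicalSpace K]
  [CompactSpace K] [T2Space K] {e : ℕ → (X →L[ℝ] ℝ)} {g : ℕ → (X →L[ℝ] ℝ) →L[ℝ] ℝ}
  {J : X →L[ℝ] C(K, ℝ)} {P : C(K, ℝ) →L[ℝ] X} {l : ℝ}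

private lemma dic_norm_le (S : Setup e g J P l) (𝒱 : Ultrafilter ℕ) {σ : X →L[ℝ] ℝ}
    (hσ : ∀ x, Tendsto (fun n => e n x) 𝒱 (𝓝 (σ x))) : ‖σ‖ ≤ 1 := by
  refine ContinuousLinearMap.opNorm_le_bound _ zero_le_one fun x => ?_
  rw [one_mul]
  refine le_of_tendsto (hσ x).norm (Eventually.of_forall fun n => ?_)
  have h1 := (e n).le_opNorm x
  rw [norm_e S.isL1, one_mul] at h1
  exact h1

private lemma dic_max {u : ℕ → ℝ} (hu : Summable u) (hu0 : ∀ j, 0 ≤ u j) {j₀ : ℕ}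
    (hj : 0 < u j₀) : ∃ m, ∀ j, u j ≤ u m := by
  have hfin : {j | u j₀ ≤ u j}.Finite := by
    have h1 := hu.tendsto_cofinite_zero.eventually (gt_mem_nhds hj)
    rw [Filter.eventually_cofinite] at h1
    refine h1.subset fun j hj => ?_
    exact not_lt.2 hj
  obtain ⟨m, hm, hmax⟩ := Finset.exists_max_image hfin.toFinset u
    ⟨j₀, (Set.Finite.mem_toFinset hfin).2 (le_refl (u j₀))⟩
  refine ⟨m, fun j => ?_⟩
  by_cases h : u j₀ ≤ u j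
  · exact hmax j ((Set.Finite.mem_toFinset hfin).2 h)
  · push Not at h
    exact h.le.trans ((Set.Finite.mem_toFinset hfin).1 hm)

theorem dichotomy (S : Setup e g J P l) (hl : l < 1) (𝒱 : Ultrafilter ℕ) {σ : X →L[ℝ] ℝ}
    (hσ : ∀ x, Tendsto (fun n => e n x) 𝒱 (𝓝 (σ x))) :
    ‖σ‖ ≤ l / (1 - l) ∨
      ∃ (m : ℕ) (ε : ℝ), (ε = 1 ∨ ε = -1) ∧ ‖σ - ε • e m‖ ≤ 2 * (l / (1 - l)) := by
  have hl0 := S.l0
  have hl1 : 0 < 1 - l := by linarith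
  set r := l / (1 - l) with hr
  have hr0 : 0 ≤ r := div_nonneg hl0 hl1.le
  have hrl : r * (1 - l) = l := div_mul_cancel₀ l hl1.ne'
  by_cases hρr : ‖σ‖ ≤ r
  · exact Or.inl hρr
  right
  push Not at hρr
  have hρ1 := dic_norm_le S 𝒱 hσ
  obtain ⟨m, hm⟩ : ∃ m, ∀ j, |g j σ| ≤ |g m σ| := by
    by_cases hz : ∃ j₀, 0 < |g j₀ σ|
    · obtain ⟨j₀, hj₀⟩ := hz
      exact dic_max (S.isL1.norm σ).summable (fun j => abs_nonneg _) hj₀
    · push Not at hz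
      exact ⟨0, fun j => (hz j).trans (abs_nonneg _)⟩
  have hbρ : |g m σ| ≤ ‖σ‖ := coord_le S.isL1 σ m
  have hkey := key_ineq S 𝒱 hσ hm hbρ
  set b := |g m σ| with hb
  set ρ := ‖σ‖ with hρ
  have h1 : (1 - l) * ρ ^ 2 ≤ ρ - l := by
    have h2 : l < (1 - l) * ρ := by nlinarith
    nlinarith
  have hlρ : l < ρ := by nlinarith
  have h3 : (ρ - l) * (1 + ρ - 2 * b) ≤ (ρ - l) * (2 * r) := by
    have h4 : 2 * l * ρ ^ 2 = 2 * r * ((1 - l) * ρ ^ 2) := by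
      calc 2 * l * ρ ^ 2 = 2 * (r * (1 - l)) * ρ ^ 2 := by rw [hrl]
        _ = _ := by ring
    have h5 : 2 * r * ((1 - l) * ρ ^ 2) ≤ 2 * r * (ρ - l) :=
      mul_le_mul_of_nonneg_left h1 (by linarith)
    linarith
  have h6 : 1 + ρ - 2 * b ≤ 2 * r := le_of_mul_le_mul_left h3 (by linarith)
  by_cases hs : 0 ≤ g m σ
  · refine ⟨m, 1, Or.inl rfl, ?_⟩
    rw [norm_sub_smul S.isL1 σ m 1]
    have h7 : b = g m σ := abs_of_nonneg hs
    have h8 : |g m σ - 1| = 1 - g m σ := by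
      rw [abs_sub_comm]
      exact abs_of_nonneg (by linarith)
    rw [h8]
    linarith
  · push Not at hs
    refine ⟨m, -1, Or.inr rfl, ?_⟩
    rw [norm_sub_smul S.isL1 σ m (-1)]
    have h7 : b = - g m σ := abs_of_neg hs
    have h8 : |g m σ - -1| = 1 + g m σ := by
      rw [abs_of_nonneg (by linarith)]
      ring
    rw [h8]
    linarith

end Pool.Agent.H87.CS
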