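import Pool.Agent.H87.CS.Emb

/-!
# Module Dom: a fundamental domain of an involution (80 lines)

For every `a` with `τ a ≠ a` there is a clopen set `V` with `a ∈ V` and `V ∩ τ ⁻¹' V = ∅` (`exists_clopen_sep` gives a clopen set `U` with `a ∈ U`,
`τ a ∉ U`, and `V = U ∩ τ ⁻¹' Uᶜ`).  Enumerate the points of `L` as `x 0, x 1, …` (if `L` is empty everything is trivial); let `V k` be
such a set for `x k`, and the empty set if `τ (x k) = x k`.  Recursively `D k = V k ∖ (B k)`, with `B k` the union of the sets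
`D j`, `τ ⁻¹' D j`, `j < k` (for instance `B (k + 1) = B k ∪ D k ∪ τ ⁻¹' D k`, `D k = V k ∖ B k`, all clopen, `τ ⁻¹' B k = B k`).
`x k` is in `B k` or in `V k ∖ B k = D k` if it is not fixed.
-/

namespace Pool.Agent.H87.CS

/-- the union of the sets `D j` and `τ ⁻¹' D j` for `j < k` -/
private def domB {L : Type} (τ : L → L) (V : ℕ → Set L) : ℕ → Set L
  | 0 => ∅
  | k + 1 => domB τ V k ∪ (V k \ domB τ V k) ∪ τ ⁻¹' (V k \ domB τ V k)

private theorem domB_inv {L : Type} (τ : L → L) (hτ : ∀ a, τ (τ a) = a) (V : ℕ → Set L) (k : ℕ) :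
    ∀ a, τ a ∈ domB τ V k ↔ a ∈ domB τ V k := by
  induction k with
  | zero =>
    intro a
    exact Iff.rfl
  | succ k ih =>
    intro a
    simp only [domB, Set.mem_union, Set.mem_preimage, Set.mem_sdiff, hτ, ih]
    tauto

private theorem domB_clopen {L : Type} [TopologicalSpace L] (τ : L → L) (hc : Continuous τ)
    (V : ℕ → Set L) (hV : ∀ k, IsClopen (V k)) (k : ℕ) : IsClopen (domB τ V k) := by
  induction k with
  | zero => exact isClopen_empty
  | succ k ih =>
    exact (ih.union ((hV k).diff ih)).union (((hV k).diff ih).preimage hc)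

private theorem domB_mono {L : Type} (τ : L → L) (V : ℕ → Set L) : Monotone (domB τ V) := by
  apply monotone_nat_of_le_succ
  intro k a ha
  exact Or.inl (Or.inl ha)

private theorem domB_cover {L : Type} (τ : L → L) (V : ℕ → Set L) (k : ℕ) (a : L)
    (ha : a ∈ domB τ V k) :
    ∃ j, a ∈ V j \ domB τ V j ∨ τ a ∈ V j \ domB τ V j := by
  induction k with
  | zero => exact ha.elim
  | succ k ih =>
    rcases ha with (ha | ha) | ha
    · exact ih ha
    · exact ⟨k, Or.inl ha⟩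
    · exact ⟨k, Or.inr ha⟩

theorem exists_domain {L : Type} [TopologicalSpace L] [CompactSpace L] [T2Space L] [Countable L]
    (τ : C(L, L)) (hτ : ∀ a, τ (τ a) = a) :
    ∃ D : ℕ → Set L, (∀ k, IsClopen (D k)) ∧ (∀ j k, Disjoint (D j) (τ ⁻¹' D k)) ∧
      (∀ j k, j ≠ k → Disjoint (D j) (D k)) ∧ ∀ a, τ a ≠ a → ∃ k, a ∈ D k ∨ τ a ∈ D k := by
  have hsep : ∀ a : L, ∃ V : Set L, IsClopen V ∧ Disjoint V (τ ⁻¹' V) ∧ (τ a ≠ a → a ∈ V) := by
    intro a
    by_cases h : τ a = a
    · exact ⟨∅, isClopen_empty, Set.disjoint_left.mpr fun x hx _ => hx.elim,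
        fun h' => (h' h).elim⟩
    · obtain ⟨U, hU, haU, hbU⟩ := exists_clopen_sep (Ne.symm h)
      refine ⟨U ∩ τ ⁻¹' Uᶜ, hU.inter (hU.compl.preimage τ.continuous), ?_, fun _ => ⟨haU, hbU⟩⟩
      rw [Set.disjoint_left]
      rintro x ⟨hx1, hx2⟩ ⟨hx3, hx4⟩
      exact hx2 hx3
  choose W hW1 hW2 hW3 using hsep
  rcases isEmpty_or_nonempty L with hL | hL
  · exact ⟨fun _ => ∅, fun _ => isClopen_empty,
      fun _ _ => Set.disjoint_left.mpr fun x hx _ => hx.elim,
      fun _ _ _ => Set.disjoint_left.mpr fun x hx _ => hx.elim, fun a => (hL.false a).elim⟩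
  obtain ⟨x, hx⟩ := exists_surjective_nat L
  set V : ℕ → Set L := fun k => W (x k) with hVdef
  have hV : ∀ k, IsClopen (V k) := fun k => hW1 _
  have hsub1 : ∀ k, V k \ domB τ V k ⊆ domB τ V (k + 1) := fun k a ha => Or.inl (Or.inr ha)
  have hsub2 : ∀ k, τ ⁻¹' (V k \ domB τ V k) ⊆ domB τ V (k + 1) := fun k a ha => Or.inr ha
  refine ⟨fun k => V k \ domB τ V k, fun k => (hV k).diff (domB_clopen τ τ.continuous V hV k),
    ?_, ?_, ?_⟩
  · intro j k
    rw [Set.disjoint_left]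
    intro a ha hb
    rcases lt_trichotomy j k with h | h | h
    · have h1 : a ∈ domB τ V k := domB_mono τ V (Nat.succ_le_of_lt h) (hsub1 j ha)
      exact hb.2 ((domB_inv τ hτ V k a).mpr h1)
    · subst h
      exact Set.disjoint_left.mp (hW2 (x j)) ha.1 hb.1
    · exact ha.2 (domB_mono τ V (Nat.succ_le_of_lt h) (hsub2 k hb))
  · intro j k hjk
    rw [Set.disjoint_left]
    intro a ha hb
    rcases lt_or_gt_of_ne hjk with h | h
    · exact hb.2 (domB_mono τ V (Nat.succ_le_of_lt h) (hsub1 j ha))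
    · exact ha.2 (domB_mono τ V (Nat.succ_le_of_lt h) (hsub1 k hb))
  · intro a ha
    obtain ⟨k, rfl⟩ := hx a
    have h1 : x k ∈ V k := hW3 (x k) ha
    by_cases h2 : x k ∈ domB τ V k
    · exact domB_cover τ V k _ h2
    · exact ⟨k, Or.inl ⟨h1, h2⟩⟩

end Pool.Agent.H87.CS
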