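import Mathlib

/-!
# Module Emb: countable compact spaces are retracts of the Cantor space (90 lines)

* `exists_clopen_sep`: Urysohn (`exists_continuous_zero_one_of_isClosed`) gives a continuous `f : L → [0, 1]` with `f a = 0`, `f b = 1`.  The
  range of `f` is countable, so there is `θ` in `(0, 1)` outside the range (`Set.Countable` and `Cardinal` or
  `Set.Countable.dense_compl`), and `{x | f x < θ} = {x | f x ≤ θ}` is clopen.
* `exists_embed`: for all pairs `(a, b)` with `a ≠ b` choose a clopen set `U (a, b)` (and the empty set for `a = b`);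
  with an `Encodable` structure (or a surjection from `ℕ`) on `L × L` this is a sequence `U n` of clopen sets which separates the
  points; `ι x n = decide (x ∈ U n)`, continuous (`IsClopen`, `continuous_pi`) and injective.  The range of `ι` is closed and nonempty,
  `PiNat.exists_retraction_of_isClosed` gives a retraction `f` of `ℕ → Bool` onto the range, and `L` is homeomorphic to the range
  (`Continuous.isClosedEmbedding`), so `r = ι⁻¹ ∘ f` is continuous.
-/

namespace Pool.Agent.H87.CS

theorem exists_clopen_sep {L : Type} [TopologicalSpace L] [CompactSpace L] [T2Space L]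
    [Countable L] {a b : L} (h : a ≠ b) : ∃ U : Set L, IsClopen U ∧ a ∈ U ∧ b ∉ U := by
  obtain ⟨f, hf0, hf1, -⟩ := exists_continuous_zero_one_of_isClosed
    (isClosed_singleton (x := a)) (isClosed_singleton (x := b))
    (Set.disjoint_singleton.2 h)
  have hfa : f a = 0 := hf0 rfl
  have hfb : f b = 1 := hf1 rfl
  have hd : Dense ((Set.range f)ᶜ) := (Set.countable_range f).dense_compl ℝ
  obtain ⟨θ, hθ, hθ0, hθ1⟩ := hd.exists_between (zero_lt_one : (0 : ℝ) < 1)
  refine ⟨{x | f x < θ}, ⟨?_, isOpen_lt f.continuous continuous_const⟩, ?_, ?_⟩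
  · have e : {x | f x < θ} = {x | f x ≤ θ} := by
      ext x
      change f x < θ ↔ f x ≤ θ
      refine ⟨le_of_lt, fun hx => lt_of_le_of_ne hx ?_⟩
      intro hx'
      exact hθ ⟨x, hx'⟩
    rw [e]
    exact isClosed_le f.continuous continuous_const
  · change f a < θ
    rw [hfa]; exact hθ0
  · change ¬ f b < θ
    rw [hfb]; exact not_lt.2 hθ1.le

theorem exists_embed (L : Type) [TopologicalSpace L] [CompactSpace L] [T2Space L]
    [Countable L] [Nonempty L] :
    ∃ (ι : C(L, ℕ → Bool)) (r : C(ℕ → Bool, L)), ∀ a, r (ι a) = a := by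
  classical
  obtain ⟨p, hp⟩ := exists_surjective_nat (L × L)
  have hU : ∀ q : L × L, ∃ U : Set L, IsClopen U ∧ (q.1 ≠ q.2 → q.1 ∈ U ∧ q.2 ∉ U) := by
    intro q
    by_cases hq : q.1 = q.2
    · exact ⟨∅, isClopen_empty, fun h => absurd hq h⟩
    · obtain ⟨U, hU, h1, h2⟩ := exists_clopen_sep hq
      exact ⟨U, hU, fun _ => ⟨h1, h2⟩⟩
  choose U hUc hUs using hU
  let i : L → ℕ → Bool := fun x n => decide (x ∈ U (p n))
  have hic : Continuous i := by
    refine continuous_pi fun n => ?_
    rw [continuous_bool_rng true]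
    have : (fun x => i x n) ⁻¹' {true} = U (p n) := by
      ext x
      simp [i]
    rw [this]
    exact hUc _
  have hinj : Function.Injective i := by
    intro x y hxy
    by_contra hne
    obtain ⟨n, hn⟩ := hp (x, y)
    have h1 := hUs (x, y) hne
    have h2 := congrFun hxy n
    simp only [i, hn, decide_eq_decide] at h2
    exact h1.2 (h2.1 h1.1)
  have hcl : IsClosed (Set.range i) := (isCompact_range hic).isClosed
  obtain ⟨f, hf1, hf2, hfc⟩ := PiNat.exists_retraction_of_isClosed hcl (Set.range_nonempty i)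
  have hmem : ∀ x, f x ∈ Set.range i := fun x => hf2 ▸ Set.mem_range_self x
  let e : L ≃ₜ Set.range i := (hic.isClosedEmbedding hinj).isEmbedding.toHomeomorph
  have he : ∀ a, ((e a : Set.range i) : ℕ → Bool) = i a := fun a => rfl
  refine ⟨⟨i, hic⟩, ⟨fun x => e.symm ⟨f x, hmem x⟩, ?_⟩, ?_⟩
  · exact e.symm.continuous.comp (hfc.subtype_mk hmem)
  · intro a
    change e.symm ⟨f (i a), hmem (i a)⟩ = a
    rw [Homeomorph.symm_apply_eq]
    apply Subtype.ext
    rw [he]
    exact hf1 _ ⟨a, rfl⟩

end Pool.Agent.H87.CS
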