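import Pool.Agent.H87.CS.Near

/-!
# Module Evt (60 lines)

Otherwise the set of the `n` for which there is `t` with `c' + η < |g n (phi J t) - f t|` is in `𝒱` (an ultrafilter).
Choose `t n` for these `n` (and arbitrary otherwise; if `K` is empty the claim is trivial).  `K` is compact: `𝒱.map t` converges to some `t₀`
(`Ultrafilter.le_nhds_of_...`, `isCompact_univ.ultrafilter_le_nhds`), in the same way `a n = g n (phi J (t n)) ∈ [-1, 1]` converges to `a₀`
along `𝒱`.  By `near_coord` and `near_limit` (with `v = e`), `Near J σ t₀ a₀`, so `|a₀ - f t₀| ≤ c'`, but the limit of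
`|a n - f (t n)|` is at least `c' + η`.
-/

namespace Pool.Agent.H87.CS

open Filter Topology

variable {X K : Type} [NormedAddCommGroup X] [NormedSpace ℝ X] [TopologicalSpace K]
  [CompactSpace K] {e : ℕ → (X →L[ℝ] ℝ)} {g : ℕ → (X →L[ℝ] ℝ) →L[ℝ] ℝ}
  {J : X →L[ℝ] C(K, ℝ)} {P : C(K, ℝ) →L[ℝ] X} {l : ℝ}

theorem eventually_close (S : Setup e g J P l) (𝒱 : Ultrafilter ℕ) {σ : X →L[ℝ] ℝ}
    (hσ : ∀ x, Tendsto (fun n => e n x) 𝒱 (𝓝 (σ x))) (f : C(K, ℝ)) {c' η : ℝ}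
    (hf : ∀ t a, Near J σ t a → |a - f t| ≤ c') (hη : 0 < η) :
    ∀ᶠ n in (𝒱 : Filter ℕ), ∀ t, |g n (phi J t) - f t| ≤ c' + η := by
  by_contra hcon
  have h1 : ∀ᶠ n in (𝒱 : Filter ℕ), ¬ ∀ t, |g n (phi J t) - f t| ≤ c' + η :=
    Ultrafilter.eventually_not.2 hcon
  have h1' : ∀ᶠ n in (𝒱 : Filter ℕ), ∃ t, c' + η < |g n (phi J t) - f t| := by
    filter_upwards [h1] with n hn
    by_contra hcon2
    exact hn fun t => not_lt.1 fun h => hcon2 ⟨t, h⟩
  obtain ⟨n0, t0', _⟩ := h1'.exists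
  have h2 : ∃ T : ℕ → K, ∀ n, (∃ t, c' + η < |g n (phi J t) - f t|) →
      c' + η < |g n (phi J (T n)) - f (T n)| := by
    classical
    refine ⟨fun n => if h : ∃ t, c' + η < |g n (phi J t) - f t| then h.choose else t0',
      fun n h => ?_⟩
    simp only [dif_pos h]
    exact h.choose_spec
  obtain ⟨T, hT⟩ := h2
  obtain ⟨t₀, _, ht₀⟩ := isCompact_univ.ultrafilter_le_nhds (𝒱.map T) (by simp)
  have hTt : Tendsto T (𝒱 : Filter ℕ) (𝓝 t₀) := ht₀
  have hmem : ∀ n, g n (phi J (T n)) ∈ Set.Icc (-1 : ℝ) 1 := fun n =>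
    abs_le.1 ((coord_le S.isL1 _ n).trans (norm_phi_le S.hJ _))
  obtain ⟨a₀, _, ha₀⟩ := isCompact_Icc.ultrafilter_le_nhds
    (𝒱.map fun n => g n (phi J (T n))) (by
      rw [le_principal_iff]
      exact Eventually.of_forall (f := (𝒱 : Filter ℕ)) hmem)
  have hat : Tendsto (fun n => g n (phi J (T n))) (𝒱 : Filter ℕ) (𝓝 a₀) := ha₀
  have hnear : Near J σ t₀ a₀ :=
    near_limit hσ hTt hat (Eventually.of_forall fun n => near_coord S n (T n))
  have h3 := hf t₀ a₀ hnear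
  have h4 : Tendsto (fun n => |g n (phi J (T n)) - f (T n)|) (𝒱 : Filter ℕ)
      (𝓝 |a₀ - f t₀|) :=
    (hat.sub ((f.continuous.tendsto t₀).comp hTt)).abs
  have h5 : c' + η ≤ |a₀ - f t₀| := by
    refine ge_of_tendsto h4 ?_
    filter_upwards [h1'] with n hn
    exact (hT n hn).le
  linarith

end Pool.Agent.H87.CS
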