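import Pool.Agent.H87.CS.Emb
import Pool.Agent.H87.CS.Avg

/-!
# Module Ext: the extension operator (60 lines)

Let `ι, r` be as in `exists_embed`.  For every `n` the function `t ↦ if ι (q t) n = true then 1 else 0` is continuous on `Z`; by
Tietze's theorem (`ContinuousMap.exists_restrict_eq`) it has a continuous extension `h n : C(K, ℝ)`.  Put
`E y t = A (y.comp r) (fun n => h n t)` with `A` from `exists_avg`.  `‖E‖ ≤ 1` by `LinearMap.mkContinuous_norm_le`, and for `t ∈ Z`
`E y t = (y.comp r) (ι (q t)) = y (q t)`.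
-/

namespace Pool.Agent.H87.CS

theorem exists_ext {K L : Type} [TopologicalSpace K] [CompactSpace K] [T2Space K]
    [TopologicalSpace L] [CompactSpace L] [T2Space L] [Countable L] [Nonempty L] {Z : Set K}
    (hZ : IsClosed Z) (q : C(Z, L)) :
    ∃ E : C(L, ℝ) →L[ℝ] C(K, ℝ), ‖E‖ ≤ 1 ∧
      ∀ (y : C(L, ℝ)) (t : K) (h : t ∈ Z), E y t = y (q ⟨t, h⟩) := by
  classical
  obtain ⟨ι, r, hr⟩ := exists_embed L
  obtain ⟨A, hAc, hAadd, hAsmul, hAle, hAval⟩ := exists_avg
  have hb : Continuous (fun b : Bool => if b = true then (1 : ℝ) else 0) :=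
    continuous_of_discreteTopology
  let f : ℕ → C(Z, ℝ) := fun n =>
    ⟨fun t => if ι (q t) n = true then 1 else 0,
      hb.comp ((continuous_apply n).comp (ι.continuous.comp q.continuous))⟩
  choose h hh using fun n => ContinuousMap.exists_restrict_eq hZ (f n)
  have hH : Continuous (fun (t : K) (n : ℕ) => h n t) := continuous_pi fun n => (h n).continuous
  have hnorm : ∀ y : C(L, ℝ), ‖y.comp r‖ ≤ ‖y‖ := by
    intro y
    rw [ContinuousMap.norm_le _ (norm_nonneg _)]
    intro b
    exact y.norm_coe_le_norm (r b)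
  let E0 : C(L, ℝ) →ₗ[ℝ] C(K, ℝ) :=
    { toFun := fun y => ⟨fun t => A (y.comp r) (fun n => h n t), (hAc _).comp hH⟩
      map_add' := by
        intro y z
        ext t
        exact hAadd (y.comp r) (z.comp r) _
      map_smul' := by
        intro a y
        ext t
        exact hAsmul a (y.comp r) _ }
  have hE0 : ∀ y, ‖E0 y‖ ≤ 1 * ‖y‖ := by
    intro y
    rw [one_mul, ContinuousMap.norm_le _ (norm_nonneg _)]
    intro t
    exact (hAle (y.comp r) _).trans (hnorm y)
  refine ⟨E0.mkContinuous 1 hE0, LinearMap.mkContinuous_norm_le _ zero_le_one _, ?_⟩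
  intro y t ht
  have h1 : (fun n => h n t) = fun n => if ι (q ⟨t, ht⟩) n = true then (1 : ℝ) else 0 := by
    funext n
    have h2 := congrArg (fun g : C(Z, ℝ) => g ⟨t, ht⟩) (hh n)
    exact h2
  have h3 : A (y.comp r) (fun n => h n t) = y (q ⟨t, ht⟩) := by
    rw [h1, hAval]
    show y (r (ι (q ⟨t, ht⟩))) = _
    rw [hr]
  exact h3

end Pool.Agent.H87.CS
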