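import Pool.Agent.H87.CS.Defs

/-!
# Module Fib: the compact case (60 lines)

The isomorphism is the restriction to `U`; the inverse maps `z` to `y` with `y x = z x` for `x ∈ U`, `y x = - z (τ x)` for `τ x ∈ U`,
`y x = 0` otherwise (three clopen sets: `U`, `τ ⁻¹' U`, and the set of fixed points, which is the complement of the union; no point of `U` is fixed).
Linear in both directions, `‖y‖ ≤ ‖z‖` (use `LinearMap.mkContinuous` twice and `ContinuousLinearEquiv.equivOfInverse`).
-/

namespace Pool.Agent.H87.CS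

open Classical in
/-- extension by zero from a clopen set -/
private noncomputable def fibE {L : Type} [TopologicalSpace L] (U : Set L) (hU : IsClopen U)
    (z : C(U, ℝ)) : C(L, ℝ) where
  toFun x := if h : x ∈ U then z ⟨x, h⟩ else 0
  continuous_toFun := by
    have h1 : ContinuousOn (fun x => if h : x ∈ U then z ⟨x, h⟩ else 0) U := by
      rw [continuousOn_iff_continuous_domRestrict]
      refine (map_continuous z).congr (fun x => ?_)
      simp
    have h2 : ContinuousOn (fun x => if h : x ∈ U then z ⟨x, h⟩ else 0) Uᶜ := by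
      refine (continuousOn_const (c := (0 : ℝ))).congr (fun x hx => ?_)
      exact dif_neg hx
    refine continuous_iff_continuousAt.2 (fun x => ?_)
    by_cases hx : x ∈ U
    · exact h1.continuousAt (hU.isOpen.mem_nhds hx)
    · exact h2.continuousAt (hU.compl.isOpen.mem_nhds hx)

private theorem fibE_mem {L : Type} [TopologicalSpace L] (U : Set L) (hU : IsClopen U)
    (z : C(U, ℝ)) {x : L} (h : x ∈ U) : fibE U hU z x = z ⟨x, h⟩ := dif_pos h

private theorem fibE_not {L : Type} [TopologicalSpace L] (U : Set L) (hU : IsClopen U)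
    (z : C(U, ℝ)) {x : L} (h : x ∉ U) : fibE U hU z x = 0 := dif_neg h

private theorem fibE_norm {L : Type} [TopologicalSpace L] (U : Set L) [CompactSpace U]
    (hU : IsClopen U) (z : C(U, ℝ)) (x : L) : ‖fibE U hU z x‖ ≤ ‖z‖ := by
  by_cases h : x ∈ U
  · rw [fibE_mem U hU z h]
    exact z.norm_coe_le_norm _
  · rw [fibE_not U hU z h, norm_zero]
    exact norm_nonneg _

private theorem fibE_add {L : Type} [TopologicalSpace L] (U : Set L) (hU : IsClopen U)
    (z z' : C(U, ℝ)) : fibE U hU (z + z') = fibE U hU z + fibE U hU z' := by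
  ext x
  rw [ContinuousMap.add_apply]
  by_cases h : x ∈ U
  · rw [fibE_mem U hU _ h, fibE_mem U hU _ h, fibE_mem U hU _ h]
    rfl
  · rw [fibE_not U hU _ h, fibE_not U hU _ h, fibE_not U hU _ h, add_zero]

private theorem fibE_smul {L : Type} [TopologicalSpace L] (U : Set L) (hU : IsClopen U)
    (c : ℝ) (z : C(U, ℝ)) : fibE U hU (c • z) = c • fibE U hU z := by
  ext x
  rw [ContinuousMap.smul_apply]
  by_cases h : x ∈ U
  · rw [fibE_mem U hU _ h, fibE_mem U hU _ h]
    rfl
  · rw [fibE_not U hU _ h, fibE_not U hU _ h, smul_zero]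

theorem odd_iso_clopen {L : Type} [TopologicalSpace L] [CompactSpace L] (τ : C(L, L))
    (hτ : ∀ a, τ (τ a) = a) (U : Set L) [CompactSpace U] (hU : IsClopen U)
    (h1 : Disjoint U (τ ⁻¹' U)) (h2 : ∀ a, τ a ≠ a → a ∈ U ∨ τ a ∈ U) :
    Nonempty (Odd τ ≃L[ℝ] C(U, ℝ)) := by
  let F : Odd τ →ₗ[ℝ] C(U, ℝ) :=
    { toFun := fun y => (y : C(L, ℝ)).restrict U
      map_add' := fun _ _ => rfl
      map_smul' := fun _ _ => rfl }
  have hF : ∀ (y : Odd τ) (x : U), F y x = (y : C(L, ℝ)) x := fun _ _ => rfl
  let G : C(U, ℝ) →ₗ[ℝ] Odd τ :=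
    { toFun := fun z => ⟨fibE U hU z - (fibE U hU z).comp τ, fun a => by
        rw [ContinuousMap.sub_apply, ContinuousMap.sub_apply, ContinuousMap.comp_apply,
          ContinuousMap.comp_apply, hτ]
        ring⟩
      map_add' := fun z z' => Subtype.ext (by
        change fibE U hU (z + z') - (fibE U hU (z + z')).comp τ
          = (fibE U hU z - (fibE U hU z).comp τ) + (fibE U hU z' - (fibE U hU z').comp τ)
        rw [fibE_add]
        ext x
        simp only [ContinuousMap.sub_apply, ContinuousMap.add_apply, ContinuousMap.comp_apply]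
        ring)
      map_smul' := fun c z => Subtype.ext (by
        change fibE U hU (c • z) - (fibE U hU (c • z)).comp τ
          = c • (fibE U hU z - (fibE U hU z).comp τ)
        rw [fibE_smul]
        ext x
        simp only [ContinuousMap.sub_apply, ContinuousMap.smul_apply, ContinuousMap.comp_apply,
          smul_eq_mul]
        ring) }
  have hG : ∀ (z : C(U, ℝ)) (x : L), (G z : C(L, ℝ)) x = fibE U hU z x - fibE U hU z (τ x) :=
    fun _ _ => rfl
  let F' : Odd τ →L[ℝ] C(U, ℝ) := F.mkContinuous 1 (fun y => by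
    rw [one_mul]
    refine (ContinuousMap.norm_le _ (norm_nonneg _)).2 (fun x => ?_)
    rw [hF]
    exact (y : C(L, ℝ)).norm_coe_le_norm _)
  let G' : C(U, ℝ) →L[ℝ] Odd τ := G.mkContinuous 2 (fun z => by
    refine (ContinuousMap.norm_le _ (by positivity)).2 (fun x => ?_)
    change ‖fibE U hU z x - fibE U hU z (τ x)‖ ≤ _
    refine (norm_sub_le _ _).trans ?_
    have a1 := fibE_norm U hU z x
    have a2 := fibE_norm U hU z (τ x)
    linarith)
  refine ⟨ContinuousLinearEquiv.equivOfInverse F' G' (fun y => ?_) (fun z => ?_)⟩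
  · refine Subtype.ext ?_
    ext x
    change (G (F y) : C(L, ℝ)) x = (y : C(L, ℝ)) x
    have hy : ∀ a, (y : C(L, ℝ)) (τ a) = - (y : C(L, ℝ)) a := y.2
    rw [hG]
    by_cases hx : x ∈ U
    · have hx' : τ x ∉ U := fun h => Set.disjoint_left.1 h1 hx h
      rw [fibE_mem U hU _ hx, fibE_not U hU _ hx', sub_zero, hF]
    · by_cases hx' : τ x ∈ U
      · rw [fibE_mem U hU _ hx', fibE_not U hU _ hx, zero_sub, hF, hy, neg_neg]
      · rw [fibE_not U hU _ hx', fibE_not U hU _ hx, sub_zero]
        have h3 : τ x = x := by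
          by_contra hne
          rcases h2 x hne with h | h
          · exact hx h
          · exact hx' h
        have h4 := hy x
        rw [h3] at h4
        linarith
  · ext x
    change (G z : C(L, ℝ)) x = z x
    have hx' : τ x ∉ U := fun h => Set.disjoint_left.1 h1 x.2 h
    rw [hG, fibE_mem U hU _ x.2, fibE_not U hU _ hx', sub_zero]

end Pool.Agent.H87.CS
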