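import Pool.Agent.H87.CS.Defs

/-!
# Module Hyp: a hyperplane of `C(M)` (120 lines)

Every neighbourhood `W` of `a` contains all but finitely many of the sets `D k` (`Wᶜ` is compact and covered by the disjoint open sets
`D k`).  So every function `h : M → N` (any topological space `N`) which is constant on every `D k`, with value `h k`, and such that
`h k → h a`, is continuous.  Choose `d k ∈ D k`; then `d k → a`, and the maps `ρ₀, ρ₁, ρ₂ : M → M` with `ρ₀ = d k`, `ρ₁ = d (k + 1)`,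
`ρ₂ = d (k - 1)` (and `ρ₂ = a` on `D 0`) on `D k`, and `a ↦ a`, are continuous.  Define

* `A z = z - z ∘ ρ₀ + z ∘ ρ₁ + z (d 0) • 1` for `z` with `z a = 0`;
* `B y = y - y ∘ ρ₀ + y ∘ ρ₂ - y a • (1 - 1_{D 0})`, which vanishes at `a`.

`A (B y) = y` and `B (A z) = z`: on `D k` with `k ≥ 1` `B y x = y x - y (d k) + y (d (k - 1)) - y a`, on `D 0` `B y x = y x - y (d 0) + y a`, and
`A z x = z x - z (d k) + z (d (k + 1)) + z (d 0)` on `D k`, `A z a = z (d 0)`.
-/

namespace Pool.Agent.H87.CS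

open Filter Topology

/-- step functions with a limit at `a` are continuous -/
private lemma hyp_step {M : Type} [TopologicalSpace M] (a : M) (D : ℕ → Set M)
    (hD : ∀ k, IsClopen (D k)) (hdisj : ∀ j k, j ≠ k → Disjoint (D j) (D k))
    (ha : ∀ k, a ∉ D k) (hcov : ∀ x, x ≠ a → ∃ k, x ∈ D k) {N : Type} [TopologicalSpace N]
    (v : ℕ → N) (c : N) (hv : Tendsto v atTop (𝓝 c)) :
    ∃ h : C(M, N), (∀ k, ∀ x ∈ D k, h x = v k) ∧ h a = c := by
  classical
  set f : M → N := fun x => if h : ∃ k, x ∈ D k then v h.choose else c with hf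
  have h1 : ∀ k, ∀ x ∈ D k, f x = v k := by
    intro k x hx
    have h2 : ∃ k, x ∈ D k := ⟨k, hx⟩
    have h3 : f x = v h2.choose := dif_pos h2
    rw [h3]
    by_contra hne
    have h4 : h2.choose ≠ k := fun e => hne (by rw [e])
    exact Set.disjoint_left.mp (hdisj _ _ h4) h2.choose_spec hx
  have h2 : f a = c := dif_neg (fun ⟨k, hk⟩ => ha k hk)
  refine ⟨⟨f, continuous_iff_continuousAt.mpr fun x => ?_⟩, h1, h2⟩
  by_cases hx : x = a
  · subst hx
    rw [ContinuousAt, h2]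
    intro U hU
    obtain ⟨n0, hn0⟩ := eventually_atTop.mp (hv.eventually hU)
    have h5 : ⋂ k ∈ Finset.range n0, (D k)ᶜ ∈ 𝓝 x := by
      rw [Filter.biInter_finset_mem]
      intro k _
      exact (hD k).compl.isOpen.mem_nhds (ha k)
    rw [Filter.mem_map]
    refine Filter.mem_of_superset h5 fun y hy => ?_
    by_cases hy0 : y = x
    · rw [hy0, Set.mem_preimage, h2]
      exact mem_of_mem_nhds hU
    · obtain ⟨k, hk⟩ := hcov y hy0
      rw [Set.mem_preimage, h1 k y hk]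
      refine hn0 k ?_
      by_contra hlt
      push Not at hlt
      have h6 := Set.mem_iInter₂.mp hy k (Finset.mem_range.mpr hlt)
      exact h6 hk
  · obtain ⟨k, hk⟩ := hcov x hx
    have h6 : f =ᶠ[𝓝 x] fun _ => v k :=
      Filter.mem_of_superset ((hD k).isOpen.mem_nhds hk) fun y hy => h1 k y hy
    exact continuousAt_const.congr h6.symm

/-- composition with a continuous map -/
private noncomputable def hyp_pre {M : Type} [TopologicalSpace M] [CompactSpace M] (ρ : C(M, M)) :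
    C(M, ℝ) →L[ℝ] C(M, ℝ) where
  toFun y := y.comp ρ
  map_add' _ _ := rfl
  map_smul' _ _ := rfl
  cont := ContinuousMap.continuous_precomp ρ

theorem hyperplane_iso {M : Type} [TopologicalSpace M] [CompactSpace M] (a : M) (D : ℕ → Set M)
    (hD : ∀ k, IsClopen (D k)) (hne : ∀ k, (D k).Nonempty)
    (hdisj : ∀ j k, j ≠ k → Disjoint (D j) (D k)) (ha : ∀ k, a ∉ D k)
    (hcov : ∀ x, x ≠ a → ∃ k, x ∈ D k) :
    Nonempty (Van a ≃L[ℝ] C(M, ℝ)) := by
  choose d hd using hne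
  -- the points converge to `a`
  have hlim : Tendsto d atTop (𝓝 a) := by
    intro W hW
    obtain ⟨V, hVW, hV, haV⟩ := mem_nhds_iff.mp hW
    obtain ⟨t, ht⟩ := hV.isClosed_compl.isCompact.elim_finite_subcover D
      (fun k => (hD k).isOpen) (fun x hx => by
        obtain ⟨k, hk⟩ := hcov x (fun e => hx (by rw [e]; exact haV))
        exact Set.mem_iUnion.mpr ⟨k, hk⟩)
    refine eventually_atTop.mpr ⟨t.sup id + 1, fun k hk => ?_⟩
    by_contra hcon
    have h1 : d k ∈ Vᶜ := fun hkV => hcon (hVW hkV)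
    obtain ⟨i, hi, hki⟩ := Set.mem_iUnion₂.mp (ht h1)
    have h2 : i ≤ t.sup id := Finset.le_sup (f := id) hi
    exact Set.disjoint_left.mp (hdisj k i (by omega)) (hd k) hki
  obtain ⟨ρ₀, h0D, h0a⟩ := hyp_step a D hD hdisj ha hcov d a hlim
  obtain ⟨ρ₁, h1D, h1a⟩ := hyp_step a D hD hdisj ha hcov (fun k => d (k + 1)) a
    (hlim.comp (tendsto_add_atTop_nat 1))
  obtain ⟨ρ₂, h2D, h2a⟩ := hyp_step a D hD hdisj ha hcov (fun k => if k = 0 then a else d (k - 1)) a
    (by
      have h3 : (fun k : ℕ => if k = 0 then a else d (k - 1)) =ᶠ[atTop] fun k => d (k - 1) :=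
        eventually_atTop.mpr ⟨1, fun k hk => if_neg (by omega)⟩
      refine Tendsto.congr' h3.symm (hlim.comp ?_)
      exact tendsto_sub_atTop_nat 1)
  obtain ⟨u, huD, hua⟩ := hyp_step a D hD hdisj ha hcov (fun k => if k = 0 then (0 : ℝ) else 1) 1
    (by
      have h3 : (fun k : ℕ => if k = 0 then (0 : ℝ) else 1) =ᶠ[atTop] fun _ => 1 :=
        eventually_atTop.mpr ⟨1, fun k hk => if_neg (by omega)⟩
      exact Tendsto.congr' h3.symm tendsto_const_nhds)
  set A0 : C(M, ℝ) →L[ℝ] C(M, ℝ) := ContinuousLinearMap.id ℝ _ - hyp_pre ρ₀ + hyp_pre ρ₁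
    + (ContinuousMap.evalCLM ℝ (d 0)).smulRight (1 : C(M, ℝ)) with hA0
  set B0 : C(M, ℝ) →L[ℝ] C(M, ℝ) := ContinuousLinearMap.id ℝ _ - hyp_pre ρ₀ + hyp_pre ρ₂
    - (ContinuousMap.evalCLM ℝ a).smulRight u with hB0
  have hA : ∀ z x, A0 z x = z x - z (ρ₀ x) + z (ρ₁ x) + z (d 0) := by
    intro z x
    have h3 : A0 z x = z x - z (ρ₀ x) + z (ρ₁ x) + z (d 0) * 1 := rfl
    rw [h3, mul_one]
  have hB : ∀ y x, B0 y x = y x - y (ρ₀ x) + y (ρ₂ x) - y a * u x := fun y x => rfl
  have hBa : ∀ y, B0 y ∈ Van a := by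
    intro y
    change B0 y a = 0
    rw [hB, h0a, h2a, hua]
    ring
  refine ⟨ContinuousLinearEquiv.equivOfInverse (A0.comp (Van a).subtypeL)
    (B0.codRestrict (Van a) hBa) (fun z => ?_) (fun y => ?_)⟩
  · refine Subtype.ext (ContinuousMap.ext fun x => ?_)
    obtain ⟨z, hz⟩ := z
    change B0 (A0 z) x = z x
    have hz0 : z a = 0 := hz
    rw [hB, hA, hA, hA, hA, h0a, h1a, hz0]
    by_cases hx : x = a
    · rw [hx, h0a, h1a, h2a, hua, h0a, h1a, hz0]
      ring
    · obtain ⟨k, hk⟩ := hcov x hx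
      rw [h0D k x hk, h1D k x hk, h2D k x hk, huD k x hk, h0D k _ (hd k), h1D k _ (hd k)]
      rcases Nat.eq_zero_or_pos k with h0 | h0
      · subst h0
        rw [if_pos rfl, if_pos rfl, h0a, h1a, hz0]
        ring
      · rw [if_neg h0.ne', if_neg h0.ne', h0D (k - 1) _ (hd (k - 1)), h1D (k - 1) _ (hd (k - 1)),
          Nat.sub_add_cancel h0]
        ring
  · refine ContinuousMap.ext fun x => ?_
    change A0 (B0 y) x = y x
    rw [hA, hB, hB, hB, hB]
    by_cases hx : x = a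
    · rw [hx, h0a, h1a, h0a, h2a, hua, h0D 0 _ (hd 0), h2D 0 _ (hd 0), huD 0 _ (hd 0), if_pos rfl,
        if_pos rfl]
      ring
    · obtain ⟨k, hk⟩ := hcov x hx
      rw [h0D k x hk, h1D k x hk, h2D k x hk, huD k x hk, h0D k _ (hd k), h2D k _ (hd k),
        huD k _ (hd k), h0D (k + 1) _ (hd (k + 1)), h2D (k + 1) _ (hd (k + 1)),
        huD (k + 1) _ (hd (k + 1)), if_neg (Nat.succ_ne_zero k), if_neg (Nat.succ_ne_zero k),
        Nat.add_sub_cancel, h0D 0 _ (hd 0), h2D 0 _ (hd 0), huD 0 _ (hd 0)]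
      simp only [if_true]
      ring

end Pool.Agent.H87.CS
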