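import Pool.Agent.H87.CS.Dom
import Pool.Agent.H87.CS.Fib
import Pool.Agent.H87.CS.Col
import Pool.Agent.H87.CS.Hyp

/-!
# Module OddI: the space of odd functions is a `C(L')` (60 lines)

Let `D` be as in `exists_domain`.  If the set of the `k` with `D k` nonempty is infinite, reindex by `Nat.nth` (or
`Nat.orderEmbeddingOfSet`) and use `odd_collapse`, `hyperplane_iso`.  Otherwise `U = ⋃ k, D k` is clopen (a finite union), a compact space;
use `odd_iso_clopen`.
-/

namespace Pool.Agent.H87.CS

theorem odd_iso {L : Type} [TopologicalSpace L] [CompactSpace L] [T2Space L] [Countable L]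
    (τ : C(L, L)) (hτ : ∀ a, τ (τ a) = a) :
    ∃ (L' : Type) (_ : TopologicalSpace L') (_ : CompactSpace L') (_ : T2Space L')
      (_ : Countable L'), Nonempty (Odd τ ≃L[ℝ] C(L', ℝ)) := by
  obtain ⟨D, hD, h1, h2, h3⟩ := exists_domain τ hτ
  by_cases hinf : {k | (D k).Nonempty}.Infinite
  · have hinf' : Infinite {k | (D k).Nonempty} := hinf.to_subtype
    obtain ⟨ν⟩ : Nonempty (ℕ ≃ {k | (D k).Nonempty}) := nonempty_equiv_of_countable
    obtain ⟨M, i1, i2, i3, i4, a, D', g1, g2, g3, g4, g5, ⟨A⟩⟩ :=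
      odd_collapse τ hτ (fun k => D (ν k)) (fun k => hD _) (fun k => (ν k).2)
        (fun j k => h1 _ _)
        (fun j k hjk => h2 _ _ (fun h => hjk (ν.injective (Subtype.ext h))))
        (by
          intro a ha
          obtain ⟨k, hk⟩ := h3 a ha
          have hne : (D k).Nonempty := by
            rcases hk with hk | hk
            · exact ⟨_, hk⟩
            · exact ⟨_, hk⟩
          refine ⟨ν.symm ⟨k, hne⟩, ?_⟩
          simpa using hk)
    obtain ⟨B⟩ := hyperplane_iso a D' g1 g2 g3 g4 g5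
    exact ⟨M, i1, i2, i3, i4, ⟨A.trans B⟩⟩
  · have hfin : {k | (D k).Nonempty}.Finite := Set.not_infinite.1 hinf
    have hU : IsClopen (⋃ k, D k) := by
      have h4 : (⋃ k, D k) = ⋃ k ∈ {k | (D k).Nonempty}, D k := by
        ext x
        simp only [Set.mem_iUnion]
        constructor
        · rintro ⟨k, hk⟩
          exact ⟨k, ⟨x, hk⟩, hk⟩
        · rintro ⟨k, -, hk⟩
          exact ⟨k, hk⟩
      rw [h4]
      exact hfin.isClopen_biUnion fun k _ => hD k
    have hUc : CompactSpace (⋃ k, D k : Set L) :=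
      isCompact_iff_compactSpace.1 hU.isClosed.isCompact
    obtain ⟨A⟩ := odd_iso_clopen τ hτ (⋃ k, D k) hU
      (by
        rw [Set.disjoint_left]
        intro x hx hx'
        obtain ⟨j, hj⟩ := Set.mem_iUnion.1 hx
        obtain ⟨k, hk⟩ := Set.mem_iUnion.1 (show τ x ∈ ⋃ k, D k from hx')
        exact Set.disjoint_left.1 (h1 j k) hj hk)
      (by
        intro a ha
        obtain ⟨k, hk⟩ := h3 a ha
        rcases hk with hk | hk
        · exact Or.inl (Set.mem_iUnion.2 ⟨k, hk⟩)
        · exact Or.inr (Set.mem_iUnion.2 ⟨k, hk⟩))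
    exact ⟨(⋃ k, D k : Set L), inferInstance, hUc, inferInstance, inferInstance, ⟨A⟩⟩

end Pool.Agent.H87.CS
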