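import Pool.Agent.H87.CS.Geo

/-!
# Module Sgn: odd functions with given signs, density (80 lines)

* `exists_odd`: the points `p j`, `τ (p j)`, `j ∈ M`, are distinct (`inj`, `ne`, and `τ` is injective because of `inv`).  On this finite closed
  set the function `p j ↦ sign (a j)`, `τ (p j) ↦ - sign (a j)` is continuous with values in `[-1, 1]`; extend it by Tietze's theorem
  (`BoundedContinuousFunction`/`ContinuousMap.exists_extension_of_isClosed...`; or use finitely many Urysohn functions) to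
  `y₀` with `‖y₀‖ ≤ 1`; `y = (1 / 2) • (y₀ - y₀.comp τ)`.
* `exists_large`: the norm of `y` is the supremum of `|y|` over the dense set of the points `p n`, `τ (p n)`, and
  `|y (τ (p n))| = |y (p n)|`.
-/

namespace Pool.Agent.H87.CS

variable {X K : Type} [NormedAddCommGroup X] [NormedSpace ℝ X] [TopologicalSpace K]
  [CompactSpace K] {g : ℕ → (X →L[ℝ] ℝ) →L[ℝ] ℝ} {J : X →L[ℝ] C(K, ℝ)}
  {L : Type} [TopologicalSpace L] [CompactSpace L] {τ : C(L, L)} {p : ℕ → L} {Z : Set K}
  {q : C(Z, L)} {c : ℝ}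

theorem exists_odd [T2Space L] (G : GeoData g J c τ p Z q) (M : Finset ℕ) (a : ℕ → ℝ) :
    ∃ y : C(L, ℝ), y ∈ Odd τ ∧ ‖y‖ ≤ 1 ∧ ∀ j ∈ M, a j * y (p j) = |a j| ∧
      (a j ≠ 0 → |y (p j)| = 1) := by
  classical
  set F : L → ℝ := fun x => if h : ∃ j ∈ M, x = p j then Real.sign (a h.choose)
    else if h' : ∃ j ∈ M, x = τ (p j) then - Real.sign (a h'.choose) else 0 with hF
  have hsg : ∀ r : ℝ, Real.sign r ∈ Set.Icc (-1 : ℝ) 1 := by
    intro r
    rcases Real.sign_apply_eq r with h | h | h <;> rw [h] <;> norm_num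
  have hF1 : ∀ x, F x ∈ Set.Icc (-1 : ℝ) 1 := by
    intro x
    rw [hF]
    dsimp only
    split_ifs with h h'
    · exact hsg _
    · have := hsg (a h'.choose)
      constructor
      · linarith [this.2]
      · linarith [this.1]
    · norm_num
  have hFp : ∀ j ∈ M, F (p j) = Real.sign (a j) := by
    intro j hj
    have h : ∃ i ∈ M, p j = p i := ⟨j, hj, rfl⟩
    have h1 : F (p j) = Real.sign (a h.choose) := by
      rw [hF]
      dsimp only
      rw [dif_pos h]
    rw [h1, ← G.inj h.choose_spec.2]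
  have hFt : ∀ j ∈ M, F (τ (p j)) = - Real.sign (a j) := by
    intro j hj
    have h0 : ¬ ∃ i ∈ M, τ (p j) = p i := by
      rintro ⟨i, -, hi⟩
      exact G.ne i j hi.symm
    have h : ∃ i ∈ M, τ (p j) = τ (p i) := ⟨j, hj, rfl⟩
    have h1 : F (τ (p j)) = - Real.sign (a h.choose) := by
      rw [hF]
      dsimp only
      rw [dif_neg h0, dif_pos h]
    have h2 : p j = p h.choose := by
      have := congrArg τ h.choose_spec.2
      rwa [G.inv, G.inv] at this
    rw [h1, ← G.inj h2]
  set S : Set L := (fun j => p j) '' (M : Set ℕ) ∪ (fun j => τ (p j)) '' (M : Set ℕ) with hS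
  have hSf : S.Finite := (M.finite_toSet.image _).union (M.finite_toSet.image _)
  have : Finite S := hSf
  have hSc : IsClosed S := hSf.isClosed
  let f : C(S, ℝ) := ⟨fun x => F x, continuous_of_discreteTopology⟩
  obtain ⟨y₀, hy0, hy1⟩ := ContinuousMap.exists_restrict_eq_forall_mem_of_closed f
    (t := Set.Icc (-1 : ℝ) 1) (fun x => hF1 x) ⟨0, by norm_num⟩ hSc
  have hyF : ∀ x ∈ S, y₀ x = F x := by
    intro x hx
    have := congrArg (fun h : C(S, ℝ) => h ⟨x, hx⟩) hy1
    exact this
  refine ⟨(1 / 2 : ℝ) • (y₀ - y₀.comp τ), ?_, ?_, ?_⟩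
  · intro b
    simp only [ContinuousMap.smul_apply, ContinuousMap.sub_apply, ContinuousMap.comp_apply,
      smul_eq_mul]
    rw [G.inv]
    ring
  · rw [ContinuousMap.norm_le _ zero_le_one]
    intro b
    simp only [ContinuousMap.smul_apply, ContinuousMap.sub_apply, ContinuousMap.comp_apply,
      smul_eq_mul, Real.norm_eq_abs]
    have h1 := hy0 b
    have h2 := hy0 (τ b)
    rw [abs_le]
    constructor
    · linarith [h1.1, h2.2]
    · linarith [h1.2, h2.1]
  · intro j hj
    have h1 : y₀ (p j) = Real.sign (a j) := by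
      rw [hyF _ (Or.inl ⟨j, hj, rfl⟩), hFp j hj]
    have h2 : y₀ (τ (p j)) = - Real.sign (a j) := by
      rw [hyF _ (Or.inr ⟨j, hj, rfl⟩), hFt j hj]
    have h3 : ((1 / 2 : ℝ) • (y₀ - y₀.comp τ)) (p j) = Real.sign (a j) := by
      simp only [ContinuousMap.smul_apply, ContinuousMap.sub_apply, ContinuousMap.comp_apply,
        smul_eq_mul]
      rw [h1, h2]
      ring
    rw [h3]
    rcases lt_trichotomy (a j) 0 with h | h | h
    · rw [Real.sign_of_neg h, abs_of_neg h]
      refine ⟨by ring, fun _ => by norm_num⟩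
    · rw [h, Real.sign_zero]
      simp
    · rw [Real.sign_of_pos h, abs_of_pos h]
      refine ⟨by ring, fun _ => by norm_num⟩

theorem exists_large (G : GeoData g J c τ p Z q) {y : C(L, ℝ)} (hy : y ∈ Odd τ) {η : ℝ}
    (hη : 0 < η) : ∃ n, ‖y‖ - η ≤ |y (p n)| := by
  by_contra hcon
  push Not at hcon
  have hodd : ∀ b, y (τ b) = - y b := hy
  have h0 : 0 ≤ ‖y‖ - η := (abs_nonneg _).trans (hcon 0).le
  have hcl : IsClosed {b : L | |y b| ≤ ‖y‖ - η} :=
    isClosed_le (y.continuous.abs) continuous_const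
  have hsub : Set.range p ∪ Set.range (fun n => τ (p n)) ⊆ {b : L | |y b| ≤ ‖y‖ - η} := by
    rintro b (⟨n, rfl⟩ | ⟨n, rfl⟩)
    · exact (hcon n).le
    · change |y (τ (p n))| ≤ ‖y‖ - η
      rw [hodd, abs_neg]
      exact (hcon n).le
  have hall := closure_minimal hsub hcl
  rw [G.dense] at hall
  have : ‖y‖ ≤ ‖y‖ - η := by
    rw [ContinuousMap.norm_le _ h0]
    intro b
    exact hall (Set.mem_univ b)
  linarith

end Pool.Agent.H87.CS
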