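import Pool.Agent.H87.CS.Bas
import Pool.Agent.H87.CS.Sur
import Pool.Agent.H87.CS.OddI

/-!
# Module Fin: the theorem (70 lines)

`X` is not trivial (its dual is isometric to `ℓ₁`), so `J ≠ 0`.  Put `J' = ‖J‖⁻¹ • J`, `P' = ‖J‖ • P`, `l = max (‖P‖ * ‖J‖ - 1) 0 < 1 / 8`; this is
a `Setup` with the basis of `exists_isL1`.  `c = (2 (1 - l) / (3 (1 - 2 l)) + (1 - l) / (1 + l)) / 2`.  Use `exists_geo`, `exists_iso_odd`, `odd_iso`.
-/

namespace Pool.Agent.H87.CS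

theorem main {X : Type} [NormedAddCommGroup X] [NormedSpace ℝ X] [CompleteSpace X]
    (Φ : (X →L[ℝ] ℝ) ≃ₗᵢ[ℝ] lp (fun _ : ℕ => ℝ) 1) {K : Type} [TopologicalSpace K]
    [CompactSpace K] [T2Space K] (J : X →L[ℝ] C(K, ℝ)) (P : C(K, ℝ) →L[ℝ] X)
    (hPJ : ∀ x, P (J x) = x) (h : ‖P‖ * ‖J‖ < 9 / 8) :
    ∃ (L : Type) (_ : TopologicalSpace L) (_ : CompactSpace L) (_ : T2Space L)
      (_ : Countable L), Nonempty (X ≃L[ℝ] C(L, ℝ)) := by
  obtain ⟨e, g, hL⟩ := exists_isL1 Φ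
  -- `J` is not zero
  have hJ0 : 0 < ‖J‖ := by
    by_contra hneg
    have h1 : ‖e 0‖ = 1 := norm_e hL 0
    have h2 : e 0 = 0 := by
      ext x
      have h3 : ‖J x‖ ≤ 0 :=
        (J.le_opNorm x).trans
          (mul_nonpos_of_nonpos_of_nonneg (not_lt.1 hneg) (norm_nonneg x))
      have h4 : J x = 0 := norm_le_zero_iff.1 h3
      have h5 : x = 0 := by
        rw [← hPJ x, h4, map_zero]
      rw [h5, map_zero, map_zero]
    rw [h2, norm_zero] at h1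
    exact absurd h1 (by norm_num)
  obtain ⟨l, hl⟩ : ∃ l, l = max (‖P‖ * ‖J‖ - 1) 0 := ⟨_, rfl⟩
  have hl0 : 0 ≤ l := hl ▸ le_max_right _ _
  have hl1 : l < 1 / 8 := by
    rw [hl]
    exact max_lt (by linarith) (by norm_num)
  have hS : Setup e g (‖J‖⁻¹ • J) (‖J‖ • P) l := by
    refine ⟨hL, hl0, ?_, ?_, ?_⟩
    · refine ContinuousLinearMap.opNorm_le_bound _ zero_le_one fun x => ?_
      have h1 : ‖J‖⁻¹ * ‖J x‖ ≤ ‖J‖⁻¹ * (‖J‖ * ‖x‖) :=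
        mul_le_mul_of_nonneg_left (J.le_opNorm x) (inv_nonneg.2 hJ0.le)
      rw [← mul_assoc, inv_mul_cancel₀ hJ0.ne'] at h1
      change ‖‖J‖⁻¹ • J x‖ ≤ 1 * ‖x‖
      rw [norm_smul, norm_inv, Real.norm_of_nonneg hJ0.le]
      exact h1
    · refine ContinuousLinearMap.opNorm_le_bound _ (by linarith) fun f => ?_
      have h1 : ‖P‖ * ‖J‖ - 1 ≤ l := hl ▸ le_max_left _ _
      have h2 : ‖J‖ * ‖P f‖ ≤ ‖J‖ * (‖P‖ * ‖f‖) :=
        mul_le_mul_of_nonneg_left (P.le_opNorm f) hJ0.le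
      have h3 : (‖P‖ * ‖J‖) * ‖f‖ ≤ (1 + l) * ‖f‖ :=
        mul_le_mul_of_nonneg_right (by linarith) (norm_nonneg f)
      change ‖‖J‖ • P f‖ ≤ (1 + l) * ‖f‖
      rw [norm_smul, Real.norm_of_nonneg hJ0.le]
      linarith
    · intro x
      change ‖J‖ • P (‖J‖⁻¹ • J x) = x
      rw [map_smul, hPJ, smul_smul, mul_inv_cancel₀ hJ0.ne', one_smul]
  -- the constant
  obtain ⟨c, hc1, hc2⟩ : ∃ c, 2 * (1 - l) / (3 * (1 - 2 * l)) < c ∧ c < (1 - l) / (1 + l) := by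
    apply exists_between
    rw [div_lt_div_iff₀ (by linarith) (by linarith)]
    nlinarith
  have hc3 : 2 * (1 - l) < 3 * (1 - 2 * l) * c := by
    rw [div_lt_iff₀ (by linarith)] at hc1
    linarith
  have hc4 : c * (1 + l) < 1 - l := by
    rwa [lt_div_iff₀ (by linarith)] at hc2
  have hc5 : 0 < c := by
    refine lt_trans ?_ hc1
    apply div_pos <;> linarith
  have hc6 : c < 1 := by nlinarith
  obtain ⟨L, _, _, _, _, τ, p, Z, q, G⟩ := exists_geo hS hl1 hc3 hc6.le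
  obtain ⟨A⟩ := exists_iso_odd hS hc5 hc6 (by linarith) G
  obtain ⟨L', h1, h2, h3, h4, ⟨B⟩⟩ := odd_iso τ G.inv
  exact ⟨L', h1, h2, h3, h4, ⟨A.trans B⟩⟩

end Pool.Agent.H87.CS
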