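import Mathlib

/-!
# Module Map: a continuous map from a closed relation (50 lines)

`Z = Prod.fst '' C`, closed by `isClosedMap_fst_of_compactSpace`.  `q t = π v` for a chosen `v` with `(t, v) ∈ C`.  For closed `A` in `L`
the preimage `q ⁻¹' A` is `{t : Z | t ∈ Prod.fst '' (C ∩ Prod.snd ⁻¹' (π ⁻¹' A))}`, closed for the same reason
(`continuous_iff_isClosed`).
-/

namespace Pool.Agent.H87.CS

theorem exists_map {K V L : Type} [TopologicalSpace K] [TopologicalSpace V] [CompactSpace V]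
    [TopologicalSpace L] (C : Set (K × V)) (hC : IsClosed C) (π : C(V, L))
    (hπ : ∀ t v v', (t, v) ∈ C → (t, v') ∈ C → π v = π v') :
    ∃ (Z : Set K) (q : C(Z, L)), IsClosed Z ∧
      ∀ t v, (t, v) ∈ C → ∃ h : t ∈ Z, q ⟨t, h⟩ = π v := by
  have hch : ∀ t : (Prod.fst '' C : Set K), ∃ v, (t.1, v) ∈ C := by
    rintro ⟨t, ⟨⟨t', v⟩, h, rfl⟩⟩
    exact ⟨v, h⟩
  choose s hs using hch
  have hcont : Continuous fun t : (Prod.fst '' C : Set K) => π (s t) := by
    rw [continuous_iff_isClosed]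
    intro A hA
    have h1 : IsClosed (Prod.fst '' (C ∩ Prod.snd ⁻¹' (π ⁻¹' A)) : Set K) :=
      isClosedMap_fst_of_compactSpace _
        (hC.inter ((hA.preimage π.continuous).preimage continuous_snd))
    have h2 : (fun t : (Prod.fst '' C : Set K) => π (s t)) ⁻¹' A =
        Subtype.val ⁻¹' (Prod.fst '' (C ∩ Prod.snd ⁻¹' (π ⁻¹' A)) : Set K) := by
      ext t
      constructor
      · intro h
        exact ⟨(t.1, s t), ⟨hs t, h⟩, rfl⟩
      · rintro ⟨⟨t', v⟩, ⟨h3, h4⟩, h5⟩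
        change π (s t) ∈ A
        have h6 : (t.1, v) ∈ C := by rw [← h5]; exact h3
        rw [hπ t.1 (s t) v (hs t) h6]
        exact h4
    rw [h2]
    exact h1.preimage continuous_subtype_val
  refine ⟨Prod.fst '' C, ⟨_, hcont⟩, isClosedMap_fst_of_compactSpace _ hC, ?_⟩
  intro t v h
  have ht : t ∈ (Prod.fst '' C : Set K) := ⟨(t, v), h, rfl⟩
  exact ⟨ht, hπ t _ v (hs ⟨t, ht⟩) h⟩

end Pool.Agent.H87.CS
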