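import Mathlib

/-!
# Module TQ: quotients of compact Hausdorff spaces by closed equivalence relations (60 lines)

The saturation of a closed set `A` is `Prod.fst '' ({p | s p.1 p.2} ∩ Prod.snd ⁻¹' A)`, closed by `isClosedMap_fst_of_compactSpace`.
Let `a`, `b` not be equivalent.  Their classes are closed and disjoint, so there are disjoint open `U₁, U₂` containing them (`V` is normal).
The complement `W i` of the saturation of `(U i)ᶜ` is open, saturated, contained in `U i`, and contains the class.  The images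
of `W 1`, `W 2` in the quotient are open (their preimages are `W 1`, `W 2`, `isOpen_coinduced`) and disjoint.
-/

namespace Pool.Agent.H87.CS

/-- the saturation of a closed set is closed -/
private theorem sat_closed {V : Type} [TopologicalSpace V] [CompactSpace V] (s : Setoid V)
    (h : IsClosed {p : V × V | s p.1 p.2}) {A : Set V} (hA : IsClosed A) :
    IsClosed {x : V | ∃ y ∈ A, s x y} := by
  have h1 : {x : V | ∃ y ∈ A, s x y} = Prod.fst '' ({p : V × V | s p.1 p.2} ∩ Prod.snd ⁻¹' A) := by
    ext x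
    constructor
    · rintro ⟨y, hy, hxy⟩
      exact ⟨(x, y), ⟨hxy, hy⟩, rfl⟩
    · rintro ⟨⟨x', y⟩, ⟨hxy, hy⟩, rfl⟩
      exact ⟨y, hy, hxy⟩
  rw [h1]
  exact isClosedMap_fst_of_compactSpace _ (h.inter (hA.preimage continuous_snd))

theorem t2_quotient {V : Type} [TopologicalSpace V] [CompactSpace V] [T2Space V] (s : Setoid V)
    (h : IsClosed {p : V × V | s p.1 p.2}) : T2Space (Quotient s) := by
  have hopen : ∀ U : Set V, IsOpen U →
      IsOpen {q : Quotient s | ∀ x : V, Quotient.mk s x = q → x ∈ U} := by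
    intro U hU
    have h1 : IsOpen ((Quotient.mk s) ⁻¹' {q : Quotient s | ∀ x : V, Quotient.mk s x = q → x ∈ U}) := by
      have h2 : (Quotient.mk s) ⁻¹' {q : Quotient s | ∀ x : V, Quotient.mk s x = q → x ∈ U} =
          {x : V | ∃ y ∈ Uᶜ, s x y}ᶜ := by
        ext x
        constructor
        · rintro hx ⟨y, hy, hxy⟩
          exact hy (hx y (Quotient.sound (s.symm hxy)))
        · intro hx y hy
          by_contra hyU
          exact hx ⟨y, hyU, s.symm (Quotient.exact hy)⟩
      rw [h2]
      exact (sat_closed s h hU.isClosed_compl).isOpen_compl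
    exact h1
  refine ⟨fun q1 q2 hne => ?_⟩
  obtain ⟨a, rfl⟩ := Quotient.exists_rep q1
  obtain ⟨b, rfl⟩ := Quotient.exists_rep q2
  have hA : IsClosed {x : V | ∃ y ∈ ({a} : Set V), s x y} := sat_closed s h isClosed_singleton
  have hB : IsClosed {x : V | ∃ y ∈ ({b} : Set V), s x y} := sat_closed s h isClosed_singleton
  have hAB : Disjoint {x : V | ∃ y ∈ ({a} : Set V), s x y} {x : V | ∃ y ∈ ({b} : Set V), s x y} := by
    rw [Set.disjoint_left]
    rintro x ⟨y, hy, hxy⟩ ⟨z, hz, hxz⟩
    rw [Set.mem_singleton_iff] at hy hz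
    subst hy hz
    exact hne (Quotient.sound (s.trans (s.symm hxy) hxz))
  obtain ⟨U1, U2, hU1, hU2, h1, h2, hd⟩ := normal_separation hA hB hAB
  refine ⟨_, _, hopen U1 hU1, hopen U2 hU2, ?_, ?_, ?_⟩
  · intro x hx
    exact h1 ⟨a, rfl, Quotient.exact hx⟩
  · intro x hx
    exact h2 ⟨b, rfl, Quotient.exact hx⟩
  · rw [Set.disjoint_left]
    intro q hq1 hq2
    obtain ⟨x, rfl⟩ := Quotient.exists_rep q
    exact Set.disjoint_left.1 hd (hq1 x rfl) (hq2 x rfl)

end Pool.Agent.H87.CS
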