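import Pool.Agent.H87.CS.Typ
import Pool.Agent.H87.CS.TQ
import Pool.Agent.H87.CS.Map

/-!
# Module Geo: the countable compact space and the partial map (200 lines)

Let `r = l / (1 - l)`, so `0 ≤ r`, `7 r < 1`, `2 < 3 (1 - r) c`.  Let `σ` be as in `exists_sigma`, `V = Ultrafilter (ℕ × Bool)`, and
`v ≈ v'` if `‖σ v - σ v'‖ ≤ 4 r`.  Choose a type `ty v` for every `v` (`exists_ty`); `v ≈ v'` iff `ty v = ty v'` (`dist_le_of_ty`,
`lt_dist_of_ty`), so this is an equivalence relation, and the quotient `L` is countable; the relation is closed (it says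
`|σ v x - σ v' x| ≤ 4 r ‖x‖` for all `x`), so `L` is a compact Hausdorff space (`t2_quotient`).  `τ` is induced by
`Ultrafilter.map (fun i => (i.1, !i.2))` (`σ` of it is `- σ v` by uniqueness of limits), `p n` is the class of `pure (n, true)`.
The points `pure i` are dense in `V` (`denseRange_pure`), so their classes are dense.  `p` is injective and `p m ≠ τ (p n)` because
`‖e n - e m‖ = 2`, `‖e m + e n‖ = 2`, which is also `lt_dist_of_ty` for the types `some (n, true)` etc.

`C = {(t, v) | ∃ a ∈ Set.Icc c 1, Near J (σ v) t a}` is closed (compactness of `Set.Icc c 1`), and the hypothesis of `exists_map` holds by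
`lt_of_ty_scaled`: `‖a σ v - a' σ v'‖ ≤ (1 - a) + (1 - a')`.  If `c ≤ g n (phi J t)`, then `(t, pure (n, true)) ∈ C` by `near_coord`; if
`g n (phi J t) ≤ - c`, then `(t, pure (n, false)) ∈ C`.
-/

namespace Pool.Agent.H87.CS

open Filter Topology

variable {X K : Type} [NormedAddCommGroup X] [NormedSpace ℝ X] [TopologicalSpace K]
  [CompactSpace K] {e : ℕ → (X →L[ℝ] ℝ)} {g : ℕ → (X →L[ℝ] ℝ) →L[ℝ] ℝ}
  {J : X →L[ℝ] C(K, ℝ)} {P : C(K, ℝ) →L[ℝ] X} {l : ℝ}

/-- The data produced by the geometric part of the proof. -/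
structure GeoData (g : ℕ → (X →L[ℝ] ℝ) →L[ℝ] ℝ) (J : X →L[ℝ] C(K, ℝ)) (c : ℝ) {L : Type}
    [TopologicalSpace L] (τ : C(L, L)) (p : ℕ → L) (Z : Set K) (q : C(Z, L)) : Prop where
  closed : IsClosed Z
  inv : ∀ a, τ (τ a) = a
  dense : closure (Set.range p ∪ Set.range (fun n => τ (p n))) = Set.univ
  inj : Function.Injective p
  ne : ∀ m n, p m ≠ τ (p n)
  pos : ∀ n t, c ≤ g n (phi J t) → ∃ h : t ∈ Z, q ⟨t, h⟩ = p n
  neg : ∀ n t, g n (phi J t) ≤ -c → ∃ h : t ∈ Z, q ⟨t, h⟩ = τ (p n)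

lemma geo_sigma_pure {σ : Ultrafilter (ℕ × Bool) → (X →L[ℝ] ℝ)}
    (hσ : ∀ (v : Ultrafilter (ℕ × Bool)) (x : X),
      Tendsto (fun i : ℕ × Bool => sg i.2 * e i.1 x) v (𝓝 (σ v x))) (i : ℕ × Bool) :
    σ (pure i) = sg i.2 • e i.1 := by
  ext x
  have h1 := hσ (pure i) x
  have h2 : Tendsto (fun i : ℕ × Bool => sg i.2 * e i.1 x)
      ((pure i : Ultrafilter (ℕ × Bool)) : Filter (ℕ × Bool)) (𝓝 (sg i.2 * e i.1 x)) :=
    tendsto_pure_nhds _ _
  rw [tendsto_nhds_unique h1 h2]
  simp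

lemma geo_sg_not (b : Bool) : sg (!b) = - sg b := by
  cases b <;> simp [sg]

/-- The flip of the signs. -/
def geoFlip (i : ℕ × Bool) : ℕ × Bool := (i.1, !i.2)

lemma geo_flip_continuous :
    Continuous (fun v : Ultrafilter (ℕ × Bool) => v.map geoFlip) := by
  apply continuous_generateFrom_iff.2
  rintro _ ⟨s, rfl⟩
  exact ultrafilter_isOpen_basic (geoFlip ⁻¹' s)

lemma geo_sigma_flip {σ : Ultrafilter (ℕ × Bool) → (X →L[ℝ] ℝ)}
    (hσ : ∀ (v : Ultrafilter (ℕ × Bool)) (x : X),
      Tendsto (fun i : ℕ × Bool => sg i.2 * e i.1 x) v (𝓝 (σ v x)))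
    (v : Ultrafilter (ℕ × Bool)) : σ (v.map geoFlip) = - σ v := by
  ext x
  have h1 := hσ (v.map geoFlip) x
  rw [Ultrafilter.coe_map, tendsto_map'_iff] at h1
  have h2 : ((fun i : ℕ × Bool => sg i.2 * e i.1 x) ∘ geoFlip) =
      fun i : ℕ × Bool => - (sg i.2 * e i.1 x) := by
    funext i
    simp [geoFlip, geo_sg_not]
  rw [h2] at h1
  rw [tendsto_nhds_unique h1 (hσ v x).neg]
  simp

lemma geo_norm_le_iff {u : X →L[ℝ] ℝ} {M : ℝ} (hM : 0 ≤ M) :
    ‖u‖ ≤ M ↔ ∀ x, |u x| ≤ M * ‖x‖ := by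
  constructor
  · intro h x
    exact (u.le_opNorm x).trans (mul_le_mul_of_nonneg_right h (norm_nonneg x))
  · intro h
    exact u.opNorm_le_bound hM h

lemma geo_closed_rel {V : Type} [TopologicalSpace V] {σ : V → (X →L[ℝ] ℝ)}
    (hσ : ∀ x, Continuous fun v => σ v x) {M : ℝ} (hM : 0 ≤ M) :
    IsClosed {p : V × V | ‖σ p.1 - σ p.2‖ ≤ M} := by
  have h1 : {p : V × V | ‖σ p.1 - σ p.2‖ ≤ M} =
      ⋂ x : X, {p : V × V | |σ p.1 x - σ p.2 x| ≤ M * ‖x‖} := by
    ext p
    simp only [Set.mem_iInter]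
    change ‖σ p.1 - σ p.2‖ ≤ M ↔ ∀ x, |σ p.1 x - σ p.2 x| ≤ M * ‖x‖
    rw [geo_norm_le_iff hM]
    simp
  rw [h1]
  refine isClosed_iInter fun x => isClosed_le ?_ continuous_const
  exact (((hσ x).comp continuous_fst).sub ((hσ x).comp continuous_snd)).abs

lemma geo_near_iff {u : X →L[ℝ] ℝ} {t : K} {a : ℝ} :
    Near J u t a ↔ |a| ≤ 1 ∧ ∀ x, |J x t - a * u x| ≤ (1 - |a|) * ‖x‖ := by
  constructor
  · intro h
    have ha := near_abs h
    refine ⟨ha, fun x => ?_⟩
    have h1 := (geo_norm_le_iff (by linarith)).1 h x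
    simpa [phi] using h1
  · rintro ⟨ha, h⟩
    refine (geo_norm_le_iff (by linarith)).2 fun x => ?_
    simpa [phi] using h x

lemma geo_closed_near {V : Type} [TopologicalSpace V] {σ : V → (X →L[ℝ] ℝ)}
    (hσ : ∀ x, Continuous fun v => σ v x) (c : ℝ) :
    IsClosed {p : K × V | ∃ a ∈ Set.Icc c 1, Near J (σ p.2) p.1 a} := by
  have h1 : IsClosed {p : (K × V) × (Set.Icc c 1) | Near J (σ p.1.2) p.1.1 p.2} := by
    have h2 : {p : (K × V) × (Set.Icc c 1) | Near J (σ p.1.2) p.1.1 p.2} =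
        {p : (K × V) × (Set.Icc c 1) | |(p.2 : ℝ)| ≤ 1} ∩
        ⋂ x : X, {p : (K × V) × (Set.Icc c 1) |
          |J x p.1.1 - p.2 * σ p.1.2 x| ≤ (1 - |(p.2 : ℝ)|) * ‖x‖} := by
      ext p
      simp only [Set.mem_inter_iff, Set.mem_iInter]
      exact geo_near_iff
    rw [h2]
    have h3 : Continuous fun p : (K × V) × (Set.Icc c 1) => (p.2 : ℝ) :=
      continuous_subtype_val.comp continuous_snd
    refine IsClosed.inter (isClosed_le h3.abs continuous_const) ?_
    refine isClosed_iInter fun x => isClosed_le ?_ ?_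
    · refine Continuous.abs (Continuous.sub ?_ ?_)
      · exact (J x).continuous.comp (continuous_fst.comp continuous_fst)
      · exact h3.mul ((hσ x).comp (continuous_snd.comp continuous_fst))
    · exact (continuous_const.sub h3.abs).mul continuous_const
  have h4 := isClosedMap_fst_of_compactSpace (X := K × V) (Y := Set.Icc c 1) _ h1
  have h5 : {p : K × V | ∃ a ∈ Set.Icc c 1, Near J (σ p.2) p.1 a} =
      Prod.fst '' {p : (K × V) × (Set.Icc c 1) | Near J (σ p.1.2) p.1.1 p.2} := by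
    ext p
    constructor
    · rintro ⟨a, ha, h⟩
      exact ⟨(p, ⟨a, ha⟩), h, rfl⟩
    · rintro ⟨⟨p', a⟩, h, rfl⟩
      exact ⟨a, a.2, h⟩
  rw [h5]
  exact h4

theorem exists_geo [T2Space K] (S : Setup e g J P l) (hl : l < 1 / 8) {c : ℝ}
    (hc : 2 * (1 - l) < 3 * (1 - 2 * l) * c) (hc1 : c ≤ 1) :
    ∃ (L : Type) (_ : TopologicalSpace L) (_ : CompactSpace L) (_ : T2Space L)
      (_ : Countable L) (τ : C(L, L)) (p : ℕ → L) (Z : Set K) (q : C(Z, L)),
      GeoData g J c τ p Z q := by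
  obtain ⟨r, hr⟩ : ∃ r, r = l / (1 - l) := ⟨_, rfl⟩
  have hl0 := S.l0
  have hl1 : 0 < 1 - l := by linarith
  have hr0 : 0 ≤ r := hr ▸ div_nonneg S.l0 hl1.le
  have hr7 : 7 * r < 1 := by
    rw [hr, ← mul_div_assoc, div_lt_one hl1]
    linarith
  have hcr : 2 < 3 * (1 - r) * c := by
    have h1 : 3 * (1 - r) * c = (3 * (1 - 2 * l) * c) / (1 - l) := by
      rw [hr]
      field_simp
      ring
    rw [h1, lt_div_iff₀ hl1]
    exact hc
  have hc0 : 0 < c := by
    by_contra hneg
    have h1 : (3 * (1 - r)) * c ≤ 0 :=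
      mul_nonpos_of_nonneg_of_nonpos (by linarith) (not_lt.1 hneg)
    linarith
  obtain ⟨σ, hσc, hσt⟩ := exists_sigma S.isL1
  have hty0 : ∀ v, ∃ o, HasTy e r (σ v) o := by
    intro v
    rw [hr]
    exact exists_ty S (by linarith) v (hσt v)
  choose ty hty using hty0
  have hpure : ∀ i, σ (pure i) = sg i.2 • e i.1 := geo_sigma_pure hσt
  have hflip : ∀ v : Ultrafilter (ℕ × Bool), σ (v.map geoFlip) = - σ v := geo_sigma_flip hσt
  have heq : ∀ v v', ty v = ty v' ↔ ‖σ v - σ v'‖ ≤ 4 * r := by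
    intro v v'
    constructor
    · intro h
      exact dist_le_of_ty hr0 (hty v) (h ▸ hty v')
    · intro h
      by_contra hne
      exact absurd h (not_le.2 (lt_dist_of_ty S.isL1 hr0 hr7 (hty v) (hty v') hne))
  -- the quotient
  let s : Setoid (Ultrafilter (ℕ × Bool)) := Setoid.ker ty
  have hs : ∀ v v', s v v' ↔ ty v = ty v' := fun v v' => Iff.rfl
  have hscl : IsClosed {p : Ultrafilter (ℕ × Bool) × Ultrafilter (ℕ × Bool) | s p.1 p.2} := by
    have h1 : {p : Ultrafilter (ℕ × Bool) × Ultrafilter (ℕ × Bool) | s p.1 p.2} =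
        {p : Ultrafilter (ℕ × Bool) × Ultrafilter (ℕ × Bool) | ‖σ p.1 - σ p.2‖ ≤ 4 * r} := by
      ext p
      exact heq p.1 p.2
    rw [h1]
    exact geo_closed_rel hσc (by linarith)
  have hT2 : T2Space (Quotient s) := t2_quotient s hscl
  have hcount : Countable (Quotient s) := by
    have hinj : Function.Injective (Quotient.lift ty (fun a b h => h) : Quotient s → _) := by
      intro a b
      induction a using Quotient.inductionOn
      induction b using Quotient.inductionOn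
      intro h
      exact Quotient.sound h
    exact hinj.countable
  have hπc : Continuous (fun v : Ultrafilter (ℕ × Bool) => (Quotient.mk s v : Quotient s)) :=
    continuous_quotient_mk'
  let π : C(Ultrafilter (ℕ × Bool), Quotient s) := ⟨fun v => Quotient.mk s v, hπc⟩
  have hπeq : ∀ v v', π v = π v' ↔ ty v = ty v' := by
    intro v v'
    exact Quotient.eq
  have hflipty : ∀ v v', ty v = ty v' → ty (v.map geoFlip) = ty (v'.map geoFlip) := by
    intro v v' h
    rw [heq, hflip, hflip]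
    rw [heq] at h
    have h1 : - σ v - - σ v' = -(σ v - σ v') := by abel
    rw [h1, norm_neg]
    exact h
  let τ : C(Quotient s, Quotient s) :=
    ⟨Quotient.lift (fun v => Quotient.mk s (v.map geoFlip))
      (fun a b h => Quotient.sound (hflipty a b h)),
      Continuous.quotient_lift (hπc.comp geo_flip_continuous) _⟩
  have hτπ : ∀ v, τ (π v) = π (v.map geoFlip) := fun v => rfl
  have hsurj : ∀ a : Quotient s, ∃ v, π v = a := by
    intro a
    induction a using Quotient.inductionOn with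
    | h v => exact ⟨v, rfl⟩
  have hflippure : ∀ i : ℕ × Bool,
      (pure i : Ultrafilter (ℕ × Bool)).map geoFlip = pure (geoFlip i) := by
    intro i
    exact Ultrafilter.map_pure _ _
  -- types of the basis vectors
  have hbt : ∀ i : ℕ × Bool, HasTy e r (σ (pure i)) (some i) := by
    intro i
    change ‖σ (pure i) - sg i.2 • e i.1‖ ≤ 2 * r
    rw [hpure, sub_self, norm_zero]
    linarith
  have hbinj : ∀ i i' : ℕ × Bool, ty (pure i) = ty (pure i') → i = i' := by
    intro i i' h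
    by_contra hne
    rw [heq] at h
    have h1 := lt_dist_of_ty S.isL1 hr0 hr7 (hbt i) (hbt i')
      (fun h2 => hne (Option.some.inj h2))
    linarith
  -- the closed relation
  obtain ⟨Z, q, hZ, hq⟩ := exists_map
    {p : K × Ultrafilter (ℕ × Bool) | ∃ a ∈ Set.Icc c 1, Near J (σ p.2) p.1 a}
    (geo_closed_near hσc c) π (by
      rintro t v v' ⟨a, ha, h⟩ ⟨a', ha', h'⟩
      rw [hπeq]
      by_contra hne
      have h1 := lt_of_ty_scaled S.isL1 hr0 hr7 hcr (hty v) (hty v') hne ha.1 ha'.1 ha.2 ha'.2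
      have h2 : a • σ v - a' • σ v' = (phi J t - a' • σ v') - (phi J t - a • σ v) := by abel
      have h3 : ‖a • σ v - a' • σ v'‖ ≤ (1 - |a'|) + (1 - |a|) := by
        rw [h2]
        exact (norm_sub_le _ _).trans (add_le_add h' h)
      rw [abs_of_pos (lt_of_lt_of_le hc0 ha.1), abs_of_pos (lt_of_lt_of_le hc0 ha'.1)] at h3
      linarith)
  refine ⟨Quotient s, inferInstance, inferInstance, hT2, hcount, τ,
    fun n => π (pure (n, true)), Z, q, ?_⟩
  have hτp : ∀ n, τ (π (pure (n, true))) = π (pure (n, false)) := by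
    intro n
    rw [hτπ, hflippure]
    rfl
  refine ⟨hZ, ?_, ?_, ?_, ?_, ?_, ?_⟩
  · intro a
    obtain ⟨v, rfl⟩ := hsurj a
    rw [hτπ, hτπ]
    congr 1
    rw [Ultrafilter.map_map]
    have h1 : geoFlip ∘ geoFlip = id := by
      funext i
      simp [geoFlip]
    rw [h1, Ultrafilter.map_id]
  · have h1 : DenseRange (fun i : ℕ × Bool => π (pure i)) :=
      DenseRange.comp (Function.Surjective.denseRange hsurj) denseRange_pure π.continuous
    have h2 : Set.range (fun i : ℕ × Bool => π (pure i)) =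
        Set.range (fun n => π (pure (n, true))) ∪
          Set.range (fun n => τ (π (pure (n, true)))) := by
      ext a
      constructor
      · rintro ⟨⟨n, b⟩, rfl⟩
        cases b
        · right
          exact ⟨n, hτp n⟩
        · left
          exact ⟨n, rfl⟩
      · rintro (⟨n, rfl⟩ | ⟨n, rfl⟩)
        · exact ⟨(n, true), rfl⟩
        · exact ⟨(n, false), (hτp n).symm⟩
    rw [← h2]
    exact h1.closure_range
  · intro m n h
    have h1 := hbinj _ _ ((hπeq _ _).1 h)
    exact (Prod.mk.inj h1).1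
  · intro m n h
    rw [hτp] at h
    have h1 := hbinj _ _ ((hπeq _ _).1 h)
    exact absurd (Prod.mk.inj h1).2 (by simp)
  · intro n t h
    have h1 : Near J (e n) t (g n (phi J t)) := near_coord S n t
    have h2 := near_abs h1
    refine hq t (pure (n, true)) ⟨g n (phi J t), ⟨h, (le_abs_self _).trans h2⟩, ?_⟩
    rw [hpure]
    simpa [sg] using h1
  · intro n t h
    have h1 : Near J (e n) t (g n (phi J t)) := near_coord S n t
    have h2 := near_abs h1
    rw [hτp]
    refine hq t (pure (n, false)) ⟨-g n (phi J t), ⟨by linarith, (neg_le_abs _).trans h2⟩, ?_⟩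
    rw [hpure]
    have h3 : (-(g n (phi J t))) • (sg false • e n) = g n (phi J t) • e n := by
      rw [smul_smul]
      simp [sg]
    change ‖phi J t - (-(g n (phi J t))) • (sg false • e n)‖ ≤ 1 - |-(g n (phi J t))|
    rw [h3, abs_neg]
    exact h1

end Pool.Agent.H87.CS
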