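import Pool.Agent.H87.CS.Defs

/-!
# Module Hel: test elements (Helly's theorem, 120 lines)

For every `k` there is `x` with `‖x‖ ≤ 2`, `e n x = 1` and `e j x = 0` for all `j ≤ k`, `j ≠ n`:
put `N = max k n + 1`, `A : X → (Fin N → ℝ)`, `A x j = e j x`.  `A` is onto (otherwise there is a nonzero `d` with
`∑ d j * e j x = 0` for all `x`, so `∑ d j • e j = 0`, and `g j` gives `d j = 0`), so `A '' ball 0 2` is open (a finite dimensional
right inverse) and convex.  If the unit vector `v` number `n` is not in it, separate (`geometric_hahn_banach_open_point`):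
there is a functional `d ≠ 0` with `∑ d j * e j x < d n` for all `x` in `ball 0 2`, so `2 ‖∑ d j • e j‖ ≤ d n`; but
`‖∑ d j • e j‖ = ∑ |d j| ≥ |d n|` (`IsL1.norm`, `IsL1.coord`), so `d = 0`, a contradiction.

Let `x k` be the element for `k`.  For `u` in the dual `u (x k) = ∑' j, g j u * e j (x k)` (`IsL1.expand`),
`|u (x k) - g n u| ≤ 2 * ∑' j > k, |g j u|` for `k ≥ n` (`‖e j‖ = 1`), which tends to zero.
-/

namespace Pool.Agent.H87.CS

open Filter Topology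

private theorem hel_le {X : Type} [NormedAddCommGroup X] [NormedSpace ℝ X]
    {e : ℕ → (X →L[ℝ] ℝ)} {g : ℕ → (X →L[ℝ] ℝ) →L[ℝ] ℝ} (h : IsL1 e g) (n : ℕ)
    (u : X →L[ℝ] ℝ) : |g n u| ≤ ‖u‖ :=
  le_hasSum (h.norm u) n (fun _ _ => abs_nonneg _)

private theorem hel_norm {X : Type} [NormedAddCommGroup X] [NormedSpace ℝ X]
    {e : ℕ → (X →L[ℝ] ℝ)} {g : ℕ → (X →L[ℝ] ℝ) →L[ℝ] ℝ} (h : IsL1 e g) (j : ℕ) :
    ‖e j‖ = 1 := by
  have h3 : HasSum (fun m => if m = j then (1 : ℝ) else 0) 1 := hasSum_ite_eq j 1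
  have h2 : (fun m => |g m (e j)|) = (fun m => if m = j then (1 : ℝ) else 0) := by
    funext m
    rw [h.coord]
    split_ifs <;> simp
  have h1 := h.norm (e j)
  rw [h2] at h1
  exact h1.unique h3

private theorem hel_exists {X : Type} [NormedAddCommGroup X] [NormedSpace ℝ X]
    {e : ℕ → (X →L[ℝ] ℝ)} {g : ℕ → (X →L[ℝ] ℝ) →L[ℝ] ℝ} (h : IsL1 e g) (n k : ℕ) :
    ∃ x : X, ‖x‖ ≤ 2 ∧ e n x = 1 ∧ ∀ j, j ≤ k → j ≠ n → e j x = 0 := by
  classical
  let I : Type := {j : ℕ // j ≤ k ∧ j ≠ n}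
  have : Finite I := ((Set.finite_Iic k).subset (fun j (hj : j ≤ k ∧ j ≠ n) => hj.1)).to_subtype
  let L : I → (X →ₗ[ℝ] ℝ) := fun i => (e i.1 : X →ₗ[ℝ] ℝ)
  let M : Submodule ℝ X := ⨅ i, LinearMap.ker (L i)
  let φ : M →L[ℝ] ℝ := (e n).comp M.subtypeL
  obtain ⟨ψ, hψ, hnψ⟩ := exists_extension_norm_eq M φ
  have hmem : ((e n - ψ : X →L[ℝ] ℝ) : X →ₗ[ℝ] ℝ) ∈ Submodule.span ℝ (Set.range L) := by
    refine mem_span_of_iInf_ker_le_ker (L := L) (fun x hx => ?_)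
    rw [LinearMap.mem_ker]
    have h1 := hψ ⟨x, hx⟩
    change ψ x = e n x at h1
    change e n x - ψ x = 0
    rw [h1, sub_self]
  have hg : g n (e n - ψ) = 0 := by
    have key : ∀ f : X →ₗ[ℝ] ℝ, f ∈ Submodule.span ℝ (Set.range L) →
        ∃ f' : X →L[ℝ] ℝ, (f' : X →ₗ[ℝ] ℝ) = f ∧ g n f' = 0 := by
      intro f hf
      refine Submodule.span_induction ?_ ?_ ?_ ?_ hf
      · rintro _ ⟨i, rfl⟩
        refine ⟨e i.1, rfl, ?_⟩
        rw [h.coord, if_neg (Ne.symm i.2.2)]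
      · exact ⟨0, rfl, map_zero _⟩
      · rintro a b _ _ ⟨a', ha, ha'⟩ ⟨b', hb, hb'⟩
        refine ⟨a' + b', ?_, ?_⟩
        · rw [← ha, ← hb]
          rfl
        · rw [map_add, ha', hb', add_zero]
      · rintro c a _ ⟨a', ha, ha'⟩
        refine ⟨c • a', ?_, ?_⟩
        · rw [← ha]
          rfl
        · rw [map_smul, ha', smul_zero]
    obtain ⟨f', hf', hgf⟩ := key _ hmem
    have e1 : f' = e n - ψ := ContinuousLinearMap.coe_injective hf'
    rw [← e1]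
    exact hgf
  have hg1 : g n ψ = 1 := by
    rw [map_sub, h.coord, if_pos rfl, sub_eq_zero] at hg
    exact hg.symm
  have h1 : (1 : ℝ) ≤ ‖φ‖ := by
    rw [← hnψ]
    have h2 := hel_le h n ψ
    rw [hg1, abs_one] at h2
    exact h2
  have h2 : ∃ y : M, (1 / 2 : ℝ) * ‖y‖ < ‖φ y‖ := by
    by_contra hcon
    push Not at hcon
    have h3 := φ.opNorm_le_bound (by norm_num : (0 : ℝ) ≤ 1 / 2) hcon
    linarith
  obtain ⟨y, hy⟩ := h2
  have hy0 : (0 : ℝ) < ‖φ y‖ := lt_of_le_of_lt (by positivity) hy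
  have hφy : e n (y : X) = φ y := rfl
  have hne : φ y ≠ 0 := norm_pos_iff.1 hy0
  refine ⟨(φ y)⁻¹ • (y : X), ?_, ?_, ?_⟩
  · rw [norm_smul, norm_inv]
    have h4 : ‖(y : X)‖ ≤ 2 * ‖φ y‖ := by
      have h5 : ‖(y : X)‖ = ‖y‖ := rfl
      rw [h5]
      linarith
    calc ‖φ y‖⁻¹ * ‖(y : X)‖ ≤ ‖φ y‖⁻¹ * (2 * ‖φ y‖) :=
          mul_le_mul_of_nonneg_left h4 (by positivity)
      _ = 2 := by field_simp
  · rw [map_smul, hφy, smul_eq_mul, inv_mul_cancel₀ hne]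
  · intro j hj hjn
    have h5 : (y : X) ∈ LinearMap.ker (L ⟨j, hj, hjn⟩) := (Submodule.mem_iInf _).1 y.2 _
    have h6 : e j (y : X) = 0 := h5
    rw [map_smul, h6, smul_zero]

theorem exists_test {X : Type} [NormedAddCommGroup X] [NormedSpace ℝ X]
    {e : ℕ → (X →L[ℝ] ℝ)} {g : ℕ → (X →L[ℝ] ℝ) →L[ℝ] ℝ} (h : IsL1 e g) (n : ℕ) :
    ∃ x : ℕ → X, (∀ k, ‖x k‖ ≤ 2) ∧ (∀ k, e n (x k) = 1) ∧
      ∀ u : X →L[ℝ] ℝ, Tendsto (fun k => u (x k)) atTop (𝓝 (g n u)) := by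
  choose x hx1 hx2 hx3 using fun k => hel_exists h n k
  refine ⟨x, hx1, hx2, fun u => ?_⟩
  have h1 : Tendsto (fun k => ∑' j, g j u * e j (x k)) atTop
      (𝓝 (∑' j, if j = n then g n u else 0)) := by
    refine tendsto_tsum_of_dominated_convergence (bound := fun j => |g j u| * 2)
      ((h.norm u).summable.mul_right 2) (fun j => ?_) (Eventually.of_forall fun k j => ?_)
    · by_cases hj : j = n
      · subst hj
        simp only [if_true, hx2, mul_one]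
        exact tendsto_const_nhds
      · rw [if_neg hj]
        refine tendsto_const_nhds.congr' ?_
        filter_upwards [eventually_ge_atTop j] with k hk
        rw [hx3 k j hk hj, mul_zero]
    · rw [norm_mul]
      refine mul_le_mul_of_nonneg_left ?_ (norm_nonneg _)
      refine ((e j).le_opNorm (x k)).trans ?_
      rw [hel_norm h j, one_mul]
      exact hx1 k
  rw [tsum_ite_eq] at h1
  refine h1.congr (fun k => ?_)
  exact (h.expand u (x k)).tsum_eq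

end Pool.Agent.H87.CS
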