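import Pool.Agent.H87.CS.Sel
import Pool.Agent.H87.CS.Evt

/-!
# Module Key: the key inequality (150 lines)

Put `ρ = ‖σ‖` (`ρ ≤ 1` because `|e n x| ≤ ‖x‖`), `w = (1 + ρ - 2 b) / 2`, `c = 1 / (1 + ρ)`.  If `1 + ρ - 2 b = 0` the claim is trivial (it is
`≥ 0` because `b ≤ ρ ≤ 1`, and `0 ≤ l`).  Otherwise let `s = (1 - c) / w ≥ 0`.  For `η > 0` and a finite set `M` take `f` from `exists_select`.

* `|f t| ≤ c + η` for all `t` (`near_zero`), so `‖P f‖ ≤ (1 + l) * (c + η)`.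
* `eventually_close` (with `c' = c + η`): for `𝒱`-almost all `n` `|g n (phi J t) - f t| ≤ c + 2 η` for all `t`; `star` for `- f` and `s = 1` gives
  `1 - (1 + l) * (c + 2 η) ≤ e n (P f)`; in the limit `1 - (1 + l) * (c + 2 η) ≤ σ (P f)`.
* For `j ∈ M`: `|f t + s * g j (phi J t)| ≤ s + η` and the same for `- f` (use `near_coord`), so `star` gives
  `|e j (P f)| ≤ l * s + (1 + l) * η`.
* `σ (P f) = ∑' j, g j σ * e j (P f)` (`IsL1.expand`), `∑ |g j σ| = ρ` (`IsL1.norm`), so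
  `σ (P f) ≤ ρ * (l * s + (1 + l) * η) + (∑_{j ∉ M} |g j σ|) * (1 + l) * (c + η)`.

Let `M` grow and `η → 0` (the quantities `ρ, b, c, s` do not depend on `M, η`):  `1 - (1 + l) * c ≤ ρ * l * s`.  Multiply with
`(1 + ρ) * (1 + ρ - 2 b)`.
-/

namespace Pool.Agent.H87.CS

open Filter Topology

variable {X K : Type} [NormedAddCommGroup X] [NormedSpace ℝ X] [TopologicalSpace K]
  [CompactSpace K] [T2Space K] {e : ℕ → (X →L[ℝ] ℝ)} {g : ℕ → (X →L[ℝ] ℝ) →L[ℝ] ℝ}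
  {J : X →L[ℝ] C(K, ℝ)} {P : C(K, ℝ) →L[ℝ] X} {l : ℝ}

omit [T2Space K] in
private lemma key_norm_le (S : Setup e g J P l) (𝒱 : Ultrafilter ℕ) {σ : X →L[ℝ] ℝ}
    (hσ : ∀ x, Tendsto (fun n => e n x) 𝒱 (𝓝 (σ x))) : ‖σ‖ ≤ 1 := by
  refine ContinuousLinearMap.opNorm_le_bound _ zero_le_one fun x => ?_
  rw [Real.norm_eq_abs]
  refine le_of_tendsto (hσ x).abs (Eventually.of_forall fun n => ?_)
  have h1 := (e n).le_opNorm x
  rw [norm_e S.isL1] at h1
  exact h1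

/-- the estimate for fixed `M` and `η` -/
private lemma key_step (S : Setup e g J P l) (𝒱 : Ultrafilter ℕ) {σ : X →L[ℝ] ℝ}
    (hσ : ∀ x, Tendsto (fun n => e n x) 𝒱 (𝓝 (σ x))) {b c s : ℝ} (hb : ∀ j, |g j σ| ≤ b)
    (hw : 0 < 1 + ‖σ‖ - 2 * b) (hc0 : 0 ≤ c) (hs0 : 0 ≤ s) (hc : c * (1 + ‖σ‖) = 1)
    (hs : s * ((1 + ‖σ‖ - 2 * b) / 2) = 1 - c) (M : Finset ℕ) {η : ℝ} (hη : 0 < η) :
    1 - (1 + l) * (c + 2 * η) ≤ ‖σ‖ * (l * s + (1 + l) * η)
      + (‖σ‖ - ∑ j ∈ M, |g j σ|) * ((1 + l) * (c + η)) := by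
  have hl := S.l0
  obtain ⟨f, hf1, hf2⟩ := exists_select S (key_norm_le S 𝒱 hσ) hb hw hc hs M hη
  have hf : ∀ t, |f t| ≤ c + η := fun t => by
    have h1 := hf1 t 0 (near_zero S.hJ σ t)
    rwa [zero_sub, abs_neg] at h1
  have hfn : ‖f‖ ≤ c + η := (ContinuousMap.norm_le f (by positivity)).mpr hf
  have hPf : ‖P f‖ ≤ (1 + l) * (c + η) :=
    (P.le_opNorm f).trans (mul_le_mul S.hP hfn (norm_nonneg _) (by linarith))
  have hej : ∀ j, |e j (P f)| ≤ (1 + l) * (c + η) := fun j => by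
    have h1 := (e j).le_opNorm (P f)
    rw [norm_e S.isL1, one_mul] at h1
    exact h1.trans hPf
  -- the lower bound
  have hlow : 1 - (1 + l) * (c + 2 * η) ≤ σ (P f) := by
    have h1 := eventually_close S 𝒱 hσ f hf1 hη
    refine ge_of_tendsto (hσ (P f)) (h1.mono fun n hn => ?_)
    have h2 := star S n (-f) 1 (c + 2 * η) (by positivity) (fun t => by
      have h3 := hn t
      have h4 : (-f) t + 1 * g n (phi J t) = g n (phi J t) - f t := by
        rw [ContinuousMap.neg_apply]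
        ring
      rw [h4]
      linarith)
    rw [map_neg, map_neg] at h2
    linarith
  -- the bound for the indices in `M`
  have hM : ∀ j ∈ M, |e j (P f)| ≤ l * s + (1 + l) * η := by
    intro j hj
    have hk : ∀ t, |f t| + s * |g j (phi J t)| ≤ s + η := fun t =>
      hf2 j hj t _ (near_coord S j t)
    have h2 := star S j f s (s + η) (by positivity) (fun t => by
      refine (abs_add_le _ _).trans ?_
      rw [abs_mul, abs_of_nonneg hs0]
      exact hk t)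
    have h3 := star S j (-f) s (s + η) (by positivity) (fun t => by
      refine (abs_add_le _ _).trans ?_
      rw [abs_mul, abs_of_nonneg hs0, ContinuousMap.neg_apply, abs_neg]
      exact hk t)
    rw [map_neg, map_neg] at h3
    rw [abs_le]
    constructor <;> nlinarith
  -- the sums
  have hF : HasSum (fun j => if j ∈ M then |g j σ| else 0) (∑ j ∈ M, |g j σ|) := by
    have h1 : HasSum (fun j => if j ∈ M then |g j σ| else 0)
        (∑ j ∈ M, if j ∈ M then |g j σ| else 0) :=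
      hasSum_sum_of_ne_finset_zero (fun j hj => if_neg hj)
    have h2 : ∑ j ∈ M, (if j ∈ M then |g j σ| else 0) = ∑ j ∈ M, |g j σ| :=
      Finset.sum_congr rfl fun j hj => if_pos hj
    rwa [h2] at h1
  have hA := (S.isL1.norm σ).mul_right (l * s + (1 + l) * η)
  have hB := ((S.isL1.norm σ).sub hF).mul_right ((1 + l) * (c + η))
  refine hlow.trans (hasSum_le (fun j => ?_) (S.isL1.expand σ (P f)) (hA.add hB))
  · change g j σ * e j (P f) ≤ |g j σ| * (l * s + (1 + l) * η)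
      + (|g j σ| - if j ∈ M then |g j σ| else 0) * ((1 + l) * (c + η))
    have h1 : g j σ * e j (P f) ≤ |g j σ| * |e j (P f)| := by
      rw [← abs_mul]
      exact le_abs_self _
    refine h1.trans ?_
    split_ifs with hj
    · rw [sub_self, zero_mul, add_zero]
      exact mul_le_mul_of_nonneg_left (hM j hj) (abs_nonneg _)
    · rw [sub_zero]
      have h2 := mul_le_mul_of_nonneg_left (hej j) (abs_nonneg (g j σ))
      have h3 : 0 ≤ |g j σ| * (l * s + (1 + l) * η) := by positivity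
      linarith

theorem key_ineq (S : Setup e g J P l) (𝒱 : Ultrafilter ℕ) {σ : X →L[ℝ] ℝ}
    (hσ : ∀ x, Tendsto (fun n => e n x) 𝒱 (𝓝 (σ x))) {b : ℝ} (hb : ∀ j, |g j σ| ≤ b)
    (hb1 : b ≤ ‖σ‖) : (‖σ‖ - l) * (1 + ‖σ‖ - 2 * b) ≤ 2 * l * ‖σ‖ ^ 2 := by
  have hρ := key_norm_le S 𝒱 hσ
  have hρ0 := norm_nonneg σ
  have hl := S.l0
  have hw0 : 0 ≤ 1 + ‖σ‖ - 2 * b := by linarith
  rcases hw0.eq_or_lt with hw | hw
  · rw [← hw, mul_zero]
    positivity
  have hρ1 : 0 < 1 + ‖σ‖ := by linarith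
  obtain ⟨c, hc⟩ : ∃ c : ℝ, c * (1 + ‖σ‖) = 1 := ⟨(1 + ‖σ‖)⁻¹, inv_mul_cancel₀ hρ1.ne'⟩
  obtain ⟨s, hs⟩ : ∃ s : ℝ, s * ((1 + ‖σ‖ - 2 * b) / 2) = 1 - c :=
    ⟨(1 - c) / ((1 + ‖σ‖ - 2 * b) / 2), div_mul_cancel₀ _ (by positivity)⟩
  have hc0 : 0 ≤ c := by
    by_contra hcon
    push Not at hcon
    nlinarith
  have hc1 : c ≤ 1 := by
    by_contra hcon
    push Not at hcon
    nlinarith
  have hs0 : 0 ≤ s := by
    by_contra hcon
    push Not at hcon
    nlinarith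
  -- the limit
  have hlim : 1 - (1 + l) * c ≤ ‖σ‖ * (l * s) := by
    have hstep : ∀ η : ℝ, 0 < η → η ≤ 1 →
        1 - (1 + l) * c - ‖σ‖ * (l * s) ≤ η * (5 * (1 + l)) := by
      intro η hη hη1
      obtain ⟨M, hM⟩ : ∃ M : Finset ℕ, ‖σ‖ - η ≤ ∑ j ∈ M, |g j σ| := by
        have h1 := (S.isL1.norm σ).eventually (lt_mem_nhds (sub_lt_self ‖σ‖ hη))
        obtain ⟨M, hM⟩ := h1.exists
        exact ⟨M, hM.le⟩
      have h2 := key_step S 𝒱 hσ hb hw hc0 hs0 hc hs M hη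
      have h3 : (‖σ‖ - ∑ j ∈ M, |g j σ|) * ((1 + l) * (c + η)) ≤ η * ((1 + l) * 2) := by
        refine mul_le_mul (by linarith) ?_ (by positivity) hη.le
        exact mul_le_mul_of_nonneg_left (by linarith) (by linarith)
      have h4 : ‖σ‖ * ((1 + l) * η) ≤ (1 + l) * η := mul_le_of_le_one_left (by positivity) hρ
      nlinarith
    by_contra hcon
    push Not at hcon
    set Y := 1 - (1 + l) * c - ‖σ‖ * (l * s) with hY
    have hYpos : 0 < Y := by linarith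
    have hK : 0 < 5 * (1 + l) := by linarith
    have h5 := hstep (min 1 (Y / (2 * (5 * (1 + l))))) (lt_min one_pos (by positivity))
      (min_le_left _ _)
    have h6 : min 1 (Y / (2 * (5 * (1 + l)))) * (5 * (1 + l)) ≤ Y / 2 := by
      have h7 : min 1 (Y / (2 * (5 * (1 + l)))) ≤ Y / (2 * (5 * (1 + l))) := min_le_right _ _
      calc min 1 (Y / (2 * (5 * (1 + l)))) * (5 * (1 + l))
          ≤ Y / (2 * (5 * (1 + l))) * (5 * (1 + l)) := mul_le_mul_of_nonneg_right h7 hK.le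
        _ = Y / 2 := by field_simp
    linarith
  have h8 : ‖σ‖ - l ≤ (1 + ‖σ‖) * (‖σ‖ * (l * s)) := by
    have h9 := mul_le_mul_of_nonneg_left hlim hρ1.le
    have h10 : (1 + ‖σ‖) * (1 - (1 + l) * c) = ‖σ‖ - l := by linear_combination (-(1 + l)) * hc
    linarith
  have h11 := mul_le_mul_of_nonneg_right h8 hw0
  have h12 : (1 + ‖σ‖) * (‖σ‖ * (l * s)) * (1 + ‖σ‖ - 2 * b) = 2 * l * ‖σ‖ ^ 2 := by
    have h13 : s * (1 + ‖σ‖ - 2 * b) = 2 * (1 - c) := by linarith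
    have h14 : (1 + ‖σ‖) * (1 - c) = ‖σ‖ := by linear_combination -hc
    calc (1 + ‖σ‖) * (‖σ‖ * (l * s)) * (1 + ‖σ‖ - 2 * b)
        = (1 + ‖σ‖) * ‖σ‖ * l * (s * (1 + ‖σ‖ - 2 * b)) := by ring
      _ = 2 * l * ‖σ‖ * ((1 + ‖σ‖) * (1 - c)) := by rw [h13]; ring
      _ = 2 * l * ‖σ‖ ^ 2 := by rw [h14]; ring
  rwa [h12] at h11

end Pool.Agent.H87.CS
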