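import Pool.Agent.H87.CS.Geo

/-!
# Module Low: the lower estimate (70 lines)

Apply `star` to `- E y`, `s = 2 / (1 - c)` and `M = s - 1 + η`: `|- E y t + s * G| ≤ M` for `G = g n (phi J t)`, `|G| ≤ 1` (`coord_le`,
`norm_phi_le`):

* `c ≤ G`: `E y t = y (p n) ∈ [1 - η, 1]`, so `s * G - E y t ≤ s - (1 - η)` and `s * G - E y t ≥ s * c - 1 ≥ 1 - s` because
  `s * (1 + c) ≥ 2`;
* `G ≤ - c`: `E y t = y (τ (p n)) = - y (p n)`, symmetric;
* otherwise `|E y t| ≤ 1` and `1 + s * c = s - 1`.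

The result is `- e n (P (E y)) + s ≤ (1 + l) * (s - 1 + η)`, and `s - 1 = (1 + c) / (1 - c)`.
-/

namespace Pool.Agent.H87.CS

variable {X K : Type} [NormedAddCommGroup X] [NormedSpace ℝ X] [TopologicalSpace K]
  [CompactSpace K] [T2Space K] {e : ℕ → (X →L[ℝ] ℝ)} {g : ℕ → (X →L[ℝ] ℝ) →L[ℝ] ℝ}
  {J : X →L[ℝ] C(K, ℝ)} {P : C(K, ℝ) →L[ℝ] X} {l : ℝ}
  {L : Type} [TopologicalSpace L] [CompactSpace L] {τ : C(L, L)} {p : ℕ → L} {Z : Set K}
  {q : C(Z, L)} {c : ℝ}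

theorem low (S : Setup e g J P l) (hc0 : 0 < c) (hc1 : c < 1) (G : GeoData g J c τ p Z q)
    (E : C(L, ℝ) →L[ℝ] C(K, ℝ)) (hE : ‖E‖ ≤ 1)
    (hEq : ∀ (y : C(L, ℝ)) (t : K) (h : t ∈ Z), E y t = y (q ⟨t, h⟩)) {y : C(L, ℝ)}
    (hy : y ∈ Odd τ) (hy1 : ‖y‖ ≤ 1) {η : ℝ} (hη : 0 ≤ η) (n : ℕ) (hn : 1 - η ≤ y (p n)) :
    1 - l * (1 + c) / (1 - c) - (1 + l) * η ≤ e n (P (E y)) := by
  have hc2 : 0 < 1 - c := by linarith
  obtain ⟨s, hs⟩ : ∃ s : ℝ, s = 2 / (1 - c) := ⟨_, rfl⟩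
  have hs1 : s * (1 - c) = 2 := by
    rw [hs]
    field_simp
  have hs2 : 2 ≤ s := by
    rw [hs, le_div_iff₀ hc2]
    linarith
  have hs3 : s * c = s - 2 := by linarith
  have hs4 : s - 1 = (1 + c) / (1 - c) := by
    rw [hs]
    field_simp
    ring
  have hyp : y (p n) ≤ 1 := (le_abs_self _).trans ((y.norm_coe_le_norm _).trans hy1)
  have key : ∀ t, |(-E y) t + s * g n (phi J t)| ≤ s - 1 + η := by
    intro t
    have hG := abs_le.1 ((coord_le S.isL1 (phi J t) n).trans (norm_phi_le S.hJ t))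
    change |-(E y t) + s * g n (phi J t)| ≤ s - 1 + η
    rw [abs_le]
    by_cases h1 : c ≤ g n (phi J t)
    · obtain ⟨ht, hq⟩ := G.pos n t h1
      have h2 : E y t = y (p n) := by rw [hEq y t ht, hq]
      rw [h2]
      constructor <;> nlinarith [hG.1, hG.2]
    · by_cases h3 : g n (phi J t) ≤ -c
      · obtain ⟨ht, hq⟩ := G.neg n t h3
        have h2 : E y t = -y (p n) := by
          rw [hEq y t ht, hq]
          exact hy (p n)
        rw [h2]
        constructor <;> nlinarith [hG.1, hG.2]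
      · have h4 : |E y t| ≤ 1 := by
          refine ((E y).norm_coe_le_norm t).trans ?_
          refine (E.le_opNorm y).trans ?_
          calc ‖E‖ * ‖y‖ ≤ 1 * 1 := mul_le_mul hE hy1 (norm_nonneg _) zero_le_one
            _ = 1 := one_mul 1
        have h5 := abs_le.1 h4
        push Not at h1 h3
        constructor <;> nlinarith [hG.1, hG.2]
  have h6 := Pool.Agent.H87.CS.star S n (-E y) s (s - 1 + η) (by linarith) key
  rw [map_neg, map_neg] at h6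
  have h7 : l * (1 + c) / (1 - c) = l * (s - 1) := by
    rw [hs4]
    ring
  rw [h7]
  nlinarith

end Pool.Agent.H87.CS
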