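import Pool.Agent.H87.CS.Str

/-!
# Module Near: the relation `Near` (120 lines)

All norms in the dual are computed with `IsL1.norm`; for `‖phi J t‖ ≤ 1` use `‖J‖ ≤ 1`.

* `near_coord`: `‖u - g j u • e j‖ = ∑_{i ≠ j} |g i u| = ‖u‖ - |g j u|` for `u = phi J t`.
* `near_diam`: `|a - b| ‖v‖ = ‖(phi - b v) - (phi - a v)‖ ≤ (1 - |a|) + (1 - |b|)`.  If `a * b ≤ 0` then `|a - b| = |a| + |b|` and the
  claim follows.  Otherwise `|a - b| ≤ max |a| |b| ≤ 1` and `1 + ‖v‖ ≤ 2`.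
* `near_cross`: `‖a σ - γ e j‖ ≤ 2 - |a| - |γ|`, and by `IsL1.norm` this norm is
  `|a g j σ - γ| + |a| (‖σ‖ - |g j σ|) ≥ |γ| + |a| (‖σ‖ - 2 b)`.
* `near_isClosed`: `Near J v t a` iff `|J x t - a * v x| ≤ (1 - |a|) * ‖x‖` for all `x` and `|a| ≤ 1`; every condition is closed in
  `(t, a)`.
* `near_limit`: pass to the limit in `|J x (t n) - a n * v n x| ≤ (1 - |a n|) * ‖x‖`.
-/

namespace Pool.Agent.H87.CS

open Filter Topology

variable {X K : Type} [NormedAddCommGroup X] [NormedSpace ℝ X] [TopologicalSpace K]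
  [CompactSpace K] {e : ℕ → (X →L[ℝ] ℝ)} {g : ℕ → (X →L[ℝ] ℝ) →L[ℝ] ℝ}
  {J : X →L[ℝ] C(K, ℝ)} {P : C(K, ℝ) →L[ℝ] X} {l : ℝ}

/-- The functional of the point `t` is `a • v` plus a functional of norm at most `1 - |a|`. -/
def Near (J : X →L[ℝ] C(K, ℝ)) (v : X →L[ℝ] ℝ) (t : K) (a : ℝ) : Prop :=
  ‖phi J t - a • v‖ ≤ 1 - |a|

lemma norm_phi_le (hJ : ‖J‖ ≤ 1) (t : K) : ‖phi J t‖ ≤ 1 := by
  refine ContinuousLinearMap.opNorm_le_bound _ zero_le_one fun x => ?_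
  have h1 : phi J t x = J x t := rfl
  rw [h1, one_mul]
  exact ((J x).norm_coe_le_norm t).trans ((J.le_opNorm x).trans
    (mul_le_of_le_one_left (norm_nonneg x) hJ))

lemma near_zero (hJ : ‖J‖ ≤ 1) (v : X →L[ℝ] ℝ) (t : K) : Near J v t 0 := by
  unfold Near
  rw [zero_smul, sub_zero, abs_zero, sub_zero]
  exact norm_phi_le hJ t

lemma near_abs {v : X →L[ℝ] ℝ} {t : K} {a : ℝ} (h : Near J v t a) : |a| ≤ 1 := by
  have h1 := (norm_nonneg _).trans h
  linarith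

lemma norm_sub_smul (h : IsL1 e g) (u : X →L[ℝ] ℝ) (j : ℕ) (a : ℝ) :
    ‖u - a • e j‖ = ‖u‖ - |g j u| + |g j u - a| := by
  have h1 := h.norm (u - a • e j)
  have h2 : (fun n => |g n (u - a • e j)|)
      = fun n => |g n u| + if n = j then |g j u - a| - |g j u| else 0 := by
    funext n
    rw [map_sub, map_smul, h.coord]
    split_ifs with hn
    · subst hn
      rw [smul_eq_mul, mul_one]
      ring
    · rw [smul_zero, sub_zero, add_zero]
  rw [h2] at h1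
  have h3 := (h.norm u).add (hasSum_ite_eq j (|g j u - a| - |g j u|))
  rw [h1.unique h3]
  ring

lemma coord_le (h : IsL1 e g) (u : X →L[ℝ] ℝ) (j : ℕ) : |g j u| ≤ ‖u‖ := by
  have h1 := h.norm u
  exact le_hasSum h1 j fun n _ => abs_nonneg _

lemma near_coord (S : Setup e g J P l) (j : ℕ) (t : K) : Near J (e j) t (g j (phi J t)) := by
  unfold Near
  rw [norm_sub_smul S.isL1, sub_self, abs_zero, add_zero]
  have := norm_phi_le S.hJ t
  linarith

lemma near_diam {v : X →L[ℝ] ℝ} (hv : ‖v‖ ≤ 1) {t : K} {a b : ℝ} (ha : Near J v t a)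
    (hb : Near J v t b) : |a - b| * (1 + ‖v‖) ≤ 2 := by
  have h1 : |a - b| * ‖v‖ ≤ (1 - |a|) + (1 - |b|) := by
    have e1 : (a - b) • v = (phi J t - b • v) - (phi J t - a • v) := by
      module
    rw [← Real.norm_eq_abs, ← norm_smul, e1]
    refine (norm_sub_le _ _).trans ?_
    unfold Near at ha hb
    linarith
  have ha1 := near_abs ha
  have hb1 := near_abs hb
  have hv0 := norm_nonneg v
  rcases le_or_gt (a * b) 0 with hab | hab
  · have h2 : |a - b| ≤ |a| + |b| := abs_sub a b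
    nlinarith
  · have h2 : |a - b| ≤ 1 := by
      rw [abs_le] at ha1 hb1 ⊢
      rcases pos_and_pos_or_neg_and_neg_of_mul_pos hab with ⟨h3, h4⟩ | ⟨h3, h4⟩
      · constructor <;> linarith
      · constructor <;> linarith
    nlinarith [abs_nonneg (a - b)]

lemma near_cross (S : Setup e g J P l) {σ : X →L[ℝ] ℝ} {b : ℝ} {j : ℕ} (hb : |g j σ| ≤ b)
    {t : K} {a γ : ℝ} (ha : Near J σ t a) (hγ : Near J (e j) t γ) :
    |γ| ≤ 1 - |a| * ((1 + ‖σ‖ - 2 * b) / 2) := by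
  have h1 : ‖a • σ - γ • e j‖ ≤ (1 - |a|) + (1 - |γ|) := by
    have e1 : a • σ - γ • e j = (phi J t - γ • e j) - (phi J t - a • σ) := by abel
    rw [e1]
    refine (norm_sub_le _ _).trans ?_
    unfold Near at ha hγ
    linarith
  rw [norm_sub_smul S.isL1, norm_smul, map_smul, smul_eq_mul, abs_mul, Real.norm_eq_abs] at h1
  have h2 : |γ| ≤ |a| * |g j σ| + |a * g j σ - γ| := by
    have h3 := abs_sub_abs_le_abs_sub γ (a * g j σ)
    rw [abs_mul, abs_sub_comm] at h3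
    linarith
  have h4 : |a| * |g j σ| ≤ |a| * b := mul_le_mul_of_nonneg_left hb (abs_nonneg a)
  nlinarith

private lemma near_iff {v : X →L[ℝ] ℝ} {t : K} {a : ℝ} :
    Near J v t a ↔ |a| ≤ 1 ∧ ∀ x, |J x t - a * v x| ≤ (1 - |a|) * ‖x‖ := by
  constructor
  · intro h
    refine ⟨near_abs h, fun x => ?_⟩
    have h1 := (phi J t - a • v).le_of_opNorm_le h x
    exact h1
  · rintro ⟨h1, h2⟩
    refine ContinuousLinearMap.opNorm_le_bound _ (by linarith) fun x => ?_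
    exact h2 x

lemma near_isClosed (J : X →L[ℝ] C(K, ℝ)) (v : X →L[ℝ] ℝ) :
    IsClosed {p : K × ℝ | Near J v p.1 p.2} := by
  have h1 : {p : K × ℝ | Near J v p.1 p.2}
      = {p : K × ℝ | |p.2| ≤ 1} ∩ ⋂ x : X, {p | |J x p.1 - p.2 * v x| ≤ (1 - |p.2|) * ‖x‖} := by
    ext p
    simp only [Set.mem_inter_iff, Set.mem_iInter, Set.mem_ofPred_eq]
    exact near_iff
  rw [h1]
  refine (isClosed_le (by fun_prop) (by fun_prop)).inter (isClosed_iInter fun x => ?_)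
  exact isClosed_le (by fun_prop) (by fun_prop)

lemma near_limit {v : ℕ → (X →L[ℝ] ℝ)} {σ : X →L[ℝ] ℝ} {F : Filter ℕ} [F.NeBot]
    (hσ : ∀ x, Tendsto (fun n => v n x) F (𝓝 (σ x))) {t : ℕ → K} {t₀ : K}
    (ht : Tendsto t F (𝓝 t₀)) {a : ℕ → ℝ} {a₀ : ℝ} (ha : Tendsto a F (𝓝 a₀))
    (h : ∀ᶠ n in F, Near J (v n) (t n) (a n)) : Near J σ t₀ a₀ := by
  rw [near_iff]
  have habs : Tendsto (fun n => |a n|) F (𝓝 |a₀|) := ha.abs
  refine ⟨le_of_tendsto habs (h.mono fun n hn => near_abs hn), fun x => ?_⟩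
  have hJt : Tendsto (fun n => J x (t n)) F (𝓝 (J x t₀)) :=
    ((J x).continuous.tendsto t₀).comp ht
  have h1 : Tendsto (fun n => |J x (t n) - a n * v n x|) F (𝓝 |J x t₀ - a₀ * σ x|) :=
    (hJt.sub (ha.mul (hσ x))).abs
  have h2 : Tendsto (fun n => (1 - |a n|) * ‖x‖) F (𝓝 ((1 - |a₀|) * ‖x‖)) :=
    (habs.const_sub 1).mul_const _
  exact le_of_tendsto_of_tendsto h1 h2 (h.mono fun n hn => (near_iff.mp hn).2 x)

end Pool.Agent.H87.CS
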