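import Pool.Agent.H87.CS.Near

/-!
# Module Sel: continuous selection (150 lines)

Use `exists_continuous_forall_mem_convex_of_local_const` (Mathlib.Analysis.Convex.PartitionOfUnity; `K` is compact Hausdorff, hence
normal and paracompact) with the convex sets
`T t = {v | (∀ a, Near J σ t a → |a - v| ≤ c + η) ∧ ∀ j ∈ M, ∀ γ, Near J (e j) t γ → |v| + s * |γ| ≤ s + η}`.

POINTWISE CHOICE at `t₀`: `{a | Near J σ t₀ a}` is compact (`near_isClosed`, `near_abs`) and nonempty (`near_zero`); let `a₀` be an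
element with `|a₀|` maximal, and `v₀ = a₀ - c` if `c < a₀`, `v₀ = a₀ + c` if `a₀ < -c`, `v₀ = 0` otherwise; `|v₀| = max (|a₀| - c) 0`.
By `near_diam`, `|a - a'| ≤ 2 c` for all `a, a'` in this set, and `1 / 2 ≤ c ≤ 1`; this gives `|a - v₀| ≤ c` for all `a` in the set: say
`a₀ > c`; if `a ≥ 0` then `a - v₀ ≤ a₀ - v₀ = c` and `v₀ - a ≤ v₀ ≤ 1 - c ≤ c`; if `a < 0` then
`v₀ - a = (a₀ - a) - c ≤ 2 c - c`.  And `|v₀| + s * |γ| ≤ s` for `Near J (e j) t₀ γ`:
`s * (1 - |γ|) ≥ s * w * |a₀| = (1 - c) * |a₀| ≥ |a₀| - c` by `near_cross` (`w = (1 + ‖σ‖ - 2 b) / 2`) and `|a₀| ≤ 1`.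

STABILITY: `v₀ ∈ T t` for all `t` near `t₀`: the set of the `t` for which there is `a` with `Near J σ t a` and
`c + η ≤ |a - v₀|` is closed (projection of a closed subset of `K × [-1, 1]`, `isClosedMap_fst_of_compactSpace` or
`IsCompact` and `near_isClosed`) and does not contain `t₀`; the same for every `j ∈ M`.
-/

namespace Pool.Agent.H87.CS

open Filter Topology

variable {X K : Type} [NormedAddCommGroup X] [NormedSpace ℝ X] [TopologicalSpace K]
  [CompactSpace K] [T2Space K] {e : ℕ → (X →L[ℝ] ℝ)} {g : ℕ → (X →L[ℝ] ℝ) →L[ℝ] ℝ}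
  {J : X →L[ℝ] C(K, ℝ)} {P : C(K, ℝ) →L[ℝ] X} {l : ℝ}

omit [NormedAddCommGroup X] [NormedSpace ℝ X] in
private lemma sel_closed {C : Set (K × ℝ)} (hC : IsClosed C) (hb : ∀ p ∈ C, |p.2| ≤ 1) {t₀ : K}
    (h0 : ∀ a, (t₀, a) ∉ C) : ∀ᶠ t in 𝓝 t₀, ∀ a, (t, a) ∉ C := by
  have hcomp : IsCompact C := by
    refine IsCompact.of_isClosed_subset
      (isCompact_univ.prod (isCompact_Icc : IsCompact (Set.Icc (-1 : ℝ) 1))) hC ?_
    intro p hp
    exact ⟨Set.mem_univ _, abs_le.1 (hb p hp)⟩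
  have hcl : IsClosed (Prod.fst '' C) := (hcomp.image continuous_fst).isClosed
  have hmem : t₀ ∈ (Prod.fst '' C)ᶜ := by
    rintro ⟨⟨t, a⟩, hp, rfl⟩
    exact h0 a hp
  filter_upwards [hcl.isOpen_compl.mem_nhds hmem] with t ht a ha
  exact ht ⟨(t, a), ha, rfl⟩

theorem exists_select (S : Setup e g J P l) {σ : X →L[ℝ] ℝ} (hσ : ‖σ‖ ≤ 1) {b c s : ℝ}
    (hb : ∀ j, |g j σ| ≤ b) (hw : 0 < 1 + ‖σ‖ - 2 * b) (hc : c * (1 + ‖σ‖) = 1)
    (hs : s * ((1 + ‖σ‖ - 2 * b) / 2) = 1 - c) (M : Finset ℕ) {η : ℝ} (hη : 0 < η) :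
    ∃ f : C(K, ℝ), (∀ t a, Near J σ t a → |a - f t| ≤ c + η) ∧
      ∀ j ∈ M, ∀ t γ, Near J (e j) t γ → |f t| + s * |γ| ≤ s + η := by
  have hn : 0 ≤ ‖σ‖ := norm_nonneg _
  have hc0 : 0 < c := by
    by_contra hcon
    push Not at hcon
    nlinarith
  have hc1 : c ≤ 1 := by nlinarith
  have hc2 : 1 / 2 ≤ c := by nlinarith
  have hs0 : 0 ≤ s := by
    by_contra hcon
    push Not at hcon
    have : s * ((1 + ‖σ‖ - 2 * b) / 2) < 0 := mul_neg_of_neg_of_pos hcon (by linarith)
    linarith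
  have key := exists_continuous_forall_mem_convex_of_local_const (X := K) (E := ℝ)
    (t := fun t => {v | (∀ a, Near J σ t a → |a - v| ≤ c + η) ∧
      ∀ j ∈ M, ∀ γ, Near J (e j) t γ → |v| + s * |γ| ≤ s + η}) ?_ ?_
  · obtain ⟨f, hf⟩ := key
    exact ⟨f, fun t => (hf t).1, fun j hj t => (hf t).2 j hj⟩
  · intro t v hv w hw' α β hα hβ hαβ
    refine ⟨fun a ha => ?_, fun j hj γ hγ => ?_⟩
    · have h1 := hv.1 a ha
      have h2 := hw'.1 a ha
      have e1 : a - (α • v + β • w) = α * (a - v) + β * (a - w) := by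
        simp only [smul_eq_mul]
        have : a = (α + β) * a := by rw [hαβ, one_mul]
        linear_combination this
      rw [e1]
      refine (abs_add_le _ _).trans ?_
      rw [abs_mul, abs_mul, abs_of_nonneg hα, abs_of_nonneg hβ]
      have h3 := mul_le_mul_of_nonneg_left h1 hα
      have h4 := mul_le_mul_of_nonneg_left h2 hβ
      have h5 : α * (c + η) + β * (c + η) = c + η := by rw [← add_mul, hαβ, one_mul]
      linarith
    · have h1 := hv.2 j hj γ hγ
      have h2 := hw'.2 j hj γ hγ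
      have h6 : |α • v + β • w| ≤ α * |v| + β * |w| := by
        refine (abs_add_le _ _).trans ?_
        simp only [smul_eq_mul, abs_mul, abs_of_nonneg hα, abs_of_nonneg hβ]
        exact le_refl _
      have h3 := mul_le_mul_of_nonneg_left h1 hα
      have h4 := mul_le_mul_of_nonneg_left h2 hβ
      have h5 : α * (s + η) + β * (s + η) = s + η := by rw [← add_mul, hαβ, one_mul]
      have h7 : α * (s * |γ|) + β * (s * |γ|) = s * |γ| := by rw [← add_mul, hαβ, one_mul]
      linarith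
  · intro t₀
    -- the set of the near multiples
    have hAc : IsCompact {a : ℝ | Near J σ t₀ a} := by
      refine IsCompact.of_isClosed_subset (isCompact_Icc : IsCompact (Set.Icc (-1 : ℝ) 1)) ?_ ?_
      · exact (near_isClosed J σ).preimage (continuous_const.prodMk continuous_id)
      · intro a ha
        exact abs_le.1 (near_abs ha)
    have hAn : {a : ℝ | Near J σ t₀ a}.Nonempty := ⟨0, near_zero S.hJ σ t₀⟩
    obtain ⟨a₀, ha₀, hmax⟩ := hAc.exists_isMaxOn hAn continuous_abs.continuousOn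
    have hmax' : ∀ a, Near J σ t₀ a → |a| ≤ |a₀| := fun a ha => hmax ha
    have ha₀1 : |a₀| ≤ 1 := near_abs ha₀
    have hdiam : ∀ a, Near J σ t₀ a → |a₀ - a| ≤ 2 * c := by
      intro a ha
      have h1 := near_diam hσ ha₀ ha
      have h2 : |a₀ - a| * (1 + ‖σ‖) ≤ (2 * c) * (1 + ‖σ‖) := by
        have : (2 * c) * (1 + ‖σ‖) = 2 := by rw [mul_assoc, hc, mul_one]
        linarith
      exact le_of_mul_le_mul_right h2 (by linarith)
    obtain ⟨v₀, hv1, hv2⟩ : ∃ v₀ : ℝ, (∀ a, Near J σ t₀ a → |a - v₀| ≤ c) ∧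
        |v₀| ≤ (1 - c) * |a₀| := by
      rcases le_or_gt a₀ c with h | h
      · rcases le_or_gt (-c) a₀ with h' | h'
        · refine ⟨0, fun a ha => ?_, ?_⟩
          · rw [sub_zero]
            exact (hmax' a ha).trans (abs_le.2 ⟨h', h⟩)
          · rw [abs_zero]
            exact mul_nonneg (by linarith) (abs_nonneg _)
        · refine ⟨a₀ + c, fun a ha => ?_, ?_⟩
          · have h1 := hmax' a ha
            have h2 := abs_le.1 (hdiam a ha)
            rw [abs_of_neg (by linarith : a₀ < 0)] at h1 ha₀1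
            have h3 := abs_le.1 h1
            rw [abs_le]
            rcases le_total a 0 with h4 | h4 <;> constructor <;> linarith [h2.1, h2.2, h3.1, h3.2]
          · rw [abs_of_neg (by linarith : a₀ < 0)] at ha₀1 ⊢
            rw [abs_of_nonpos (by linarith : a₀ + c ≤ 0)]
            nlinarith
      · refine ⟨a₀ - c, fun a ha => ?_, ?_⟩
        · have h1 := hmax' a ha
          have h2 := abs_le.1 (hdiam a ha)
          rw [abs_of_pos (by linarith : 0 < a₀)] at h1 ha₀1
          have h3 := abs_le.1 h1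
          rw [abs_le]
          rcases le_total a 0 with h4 | h4 <;> constructor <;> linarith [h2.1, h2.2, h3.1, h3.2]
        · rw [abs_of_pos (by linarith : 0 < a₀)] at ha₀1 ⊢
          rw [abs_of_nonneg (by linarith : 0 ≤ a₀ - c)]
          nlinarith
    have hv3 : ∀ j, ∀ γ, Near J (e j) t₀ γ → |v₀| + s * |γ| ≤ s := by
      intro j γ hγ
      have h1 := near_cross S (hb j) ha₀ hγ
      have h2 := mul_le_mul_of_nonneg_left h1 hs0
      have h3 : s * (1 - |a₀| * ((1 + ‖σ‖ - 2 * b) / 2)) = s - (1 - c) * |a₀| := by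
        rw [← hs]; ring
      linarith
    refine ⟨v₀, ?_⟩
    have hev1 : ∀ᶠ t in 𝓝 t₀, ∀ a, (t, a) ∉
        {p : K × ℝ | Near J σ p.1 p.2 ∧ c + η ≤ |p.2 - v₀|} := by
      refine sel_closed ?_ (fun p hp => near_abs hp.1) ?_
      · exact (near_isClosed J σ).inter (isClosed_le continuous_const
          ((continuous_snd.sub continuous_const).abs))
      · rintro a ⟨ha1, ha2⟩
        have := hv1 a ha1
        have ha2' : c + η ≤ |a - v₀| := ha2
        linarith
    have hev2 : ∀ᶠ t in 𝓝 t₀, ∀ j ∈ M, ∀ γ, (t, γ) ∉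
        {p : K × ℝ | Near J (e j) p.1 p.2 ∧ s + η ≤ |v₀| + s * |p.2|} := by
      rw [Filter.eventually_all_finset]
      intro j hj
      refine sel_closed ?_ (fun p hp => near_abs hp.1) ?_
      · exact (near_isClosed J (e j)).inter (isClosed_le continuous_const
          (continuous_const.add (continuous_const.mul continuous_snd.abs)))
      · rintro γ ⟨hγ1, hγ2⟩
        have := hv3 j γ hγ1
        have hγ2' : s + η ≤ |v₀| + s * |γ| := hγ2
        linarith
    filter_upwards [hev1, hev2] with t ht1 ht2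
    refine ⟨fun a ha => ?_, fun j hj γ hγ => ?_⟩
    · by_contra hcon
      push Not at hcon
      exact ht1 a ⟨ha, hcon.le⟩
    · by_contra hcon
      push Not at hcon
      exact ht2 j hj γ ⟨hγ, hcon.le⟩

end Pool.Agent.H87.CS
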