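import Pool.Agent.H87.CS.Defs

/-!
# Module Sig: the limits of the basis vectors along ultrafilters (70 lines)

For `x` in `X` let `F x : ℕ × Bool → Set.Icc (-‖x‖) ‖x‖` be `i ↦ sg i.2 * e i.1 x` (`‖e n‖ = 1` because `∑ |g m (e n)| = 1`, compare
`norm_e` in module Str).  `Ultrafilter.extend (F x)` is continuous (`continuous_ultrafilter_extend`) and is the limit
(`ultrafilter_extend_eq_iff`).  Put `σ v x = (Ultrafilter.extend (F x) v : ℝ)`; it is linear in `x` by uniqueness of limits, and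
`|σ v x| ≤ ‖x‖`; use `LinearMap.mkContinuous`.
-/

namespace Pool.Agent.H87.CS

open Filter Topology

/-- The sign `1` or `-1`. -/
def sg (b : Bool) : ℝ := if b = true then 1 else -1

private theorem sig_norm {X : Type} [NormedAddCommGroup X] [NormedSpace ℝ X]
    {e : ℕ → (X →L[ℝ] ℝ)} {g : ℕ → (X →L[ℝ] ℝ) →L[ℝ] ℝ} (h : IsL1 e g) (n : ℕ) : ‖e n‖ = 1 := by
  have h1 := h.norm (e n)
  have h2 : (fun m => |g m (e n)|) = fun m => if m = n then (1 : ℝ) else 0 := by
    funext m
    rw [h.coord m n]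
    split_ifs <;> simp
  rw [h2] at h1
  exact h1.unique (hasSum_ite_eq n 1)

private theorem sig_bound {X : Type} [NormedAddCommGroup X] [NormedSpace ℝ X]
    {e : ℕ → (X →L[ℝ] ℝ)} {g : ℕ → (X →L[ℝ] ℝ) →L[ℝ] ℝ} (h : IsL1 e g) (x : X) (i : ℕ × Bool) :
    |sg i.2 * e i.1 x| ≤ ‖x‖ := by
  have h1 : |sg i.2| = 1 := by
    unfold sg
    split_ifs <;> simp
  rw [abs_mul, h1, one_mul]
  have h2 := (e i.1).le_opNorm x
  rw [sig_norm h, one_mul] at h2
  exact h2

theorem exists_sigma {X : Type} [NormedAddCommGroup X] [NormedSpace ℝ X]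
    {e : ℕ → (X →L[ℝ] ℝ)} {g : ℕ → (X →L[ℝ] ℝ) →L[ℝ] ℝ} (h : IsL1 e g) :
    ∃ σ : Ultrafilter (ℕ × Bool) → (X →L[ℝ] ℝ), (∀ x, Continuous fun v => σ v x) ∧
      ∀ (v : Ultrafilter (ℕ × Bool)) (x : X),
        Tendsto (fun i : ℕ × Bool => sg i.2 * e i.1 x) v (𝓝 (σ v x)) := by
  let F : (x : X) → ℕ × Bool → Set.Icc (-‖x‖) ‖x‖ := fun x i =>
    ⟨sg i.2 * e i.1 x, abs_le.mp (sig_bound h x i)⟩
  let s : Ultrafilter (ℕ × Bool) → X → ℝ := fun v x => (Ultrafilter.extend (F x) v).1
  have hs : ∀ (v : Ultrafilter (ℕ × Bool)) (x : X),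
      Tendsto (fun i : ℕ × Bool => sg i.2 * e i.1 x) v (𝓝 (s v x)) := by
    intro v x
    have h1 : (↑(v.map (F x)) : Filter _) ≤ 𝓝 (Ultrafilter.extend (F x) v) :=
      ultrafilter_extend_eq_iff.mp rfl
    have h2 : Tendsto (F x) v (𝓝 (Ultrafilter.extend (F x) v)) := h1
    exact (continuous_subtype_val.tendsto _).comp h2
  let L : Ultrafilter (ℕ × Bool) → (X →ₗ[ℝ] ℝ) := fun v =>
    { toFun := s v
      map_add' := fun x y => by
        refine tendsto_nhds_unique (hs v (x + y)) ?_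
        have h3 := (hs v x).add (hs v y)
        refine h3.congr fun i => ?_
        rw [map_add]
        ring
      map_smul' := fun c x => by
        refine tendsto_nhds_unique (hs v (c • x)) ?_
        have h3 := (hs v x).const_mul c
        refine h3.congr fun i => ?_
        rw [map_smul, smul_eq_mul]
        ring }
  refine ⟨fun v => (L v).mkContinuous 1 fun x => ?_, fun x => ?_, hs⟩
  · rw [one_mul, Real.norm_eq_abs]
    exact abs_le.mpr (Ultrafilter.extend (F x) v).2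
  · exact continuous_subtype_val.comp (continuous_ultrafilter_extend (F x))

end Pool.Agent.H87.CS
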