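import Pool.Agent.H87.CS.Dic
import Pool.Agent.H87.CS.Sig

/-!
# Module Typ: the types of the functionals (120 lines)

* `exists_ty`: `v` is an ultrafilter on `ℕ × Bool`, so one of the sets `{i | i.2 = true}`, `{i | i.2 = false}` is in `v`; put
  `𝒱 = v.map Prod.fst`; then `σ v` or `- σ v` is the limit of `e n` along `𝒱`; use `dichotomy`.
* `dist_le_of_ty`: triangle inequality.
* `lt_dist_of_ty`, `lt_of_ty_scaled`: `‖e m‖ = 1`, and `‖sg i.2 • a • e i.1 - sg i'.2 • a' • e i'.1‖ = a + a'` for `i ≠ i'`, `a, a' ≥ 0`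
  (`IsL1.norm`, `IsL1.coord`).  If one of the types is `none`:
  `‖a • s - a' • s'‖ ≥ a' * (1 - 2 r) - a * r`, and `a' * (1 - 2 r) - a * r ≤ 2 - a - a'` would give `(1 - r) * (2 a' + a) ≤ 2`.
  If both are not `none`, `‖a • s - a' • s'‖ ≥ (a + a') * (1 - 2 r)`, and this `≤ 2 - a - a'` would give
  `(1 - r) * (a + a') ≤ 1`.
-/

namespace Pool.Agent.H87.CS

open Filter Topology

variable {X K : Type} [NormedAddCommGroup X] [NormedSpace ℝ X] [TopologicalSpace K]
  [CompactSpace K] [T2Space K] {e : ℕ → (X →L[ℝ] ℝ)} {g : ℕ → (X →L[ℝ] ℝ) →L[ℝ] ℝ}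
  {J : X →L[ℝ] C(K, ℝ)} {P : C(K, ℝ) →L[ℝ] X} {l : ℝ}

/-- The functional is small, or close to plus or minus a basis vector. -/
def HasTy (e : ℕ → (X →L[ℝ] ℝ)) (r : ℝ) (s : X →L[ℝ] ℝ) : Option (ℕ × Bool) → Prop
  | none => ‖s‖ ≤ r
  | some i => ‖s - sg i.2 • e i.1‖ ≤ 2 * r

private theorem Typ_of_dich {r : ℝ} {s : X →L[ℝ] ℝ}
    (h : ‖s‖ ≤ r ∨ ∃ (m : ℕ) (ε : ℝ), (ε = 1 ∨ ε = -1) ∧ ‖s - ε • e m‖ ≤ 2 * r) :
    ∃ o, HasTy e r s o := by
  rcases h with h | ⟨m, ε, h1, h2⟩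
  · exact ⟨none, h⟩
  · rcases h1 with rfl | rfl
    · refine ⟨some (m, true), ?_⟩
      change ‖s - sg true • e m‖ ≤ 2 * r
      rwa [show sg true = 1 from rfl]
    · refine ⟨some (m, false), ?_⟩
      change ‖s - sg false • e m‖ ≤ 2 * r
      rwa [show sg false = -1 from rfl]

theorem exists_ty (S : Setup e g J P l) (hl : l < 1) {σ : X →L[ℝ] ℝ}
    (v : Ultrafilter (ℕ × Bool))
    (hσ : ∀ x, Tendsto (fun i : ℕ × Bool => sg i.2 * e i.1 x) v (𝓝 (σ x))) :
    ∃ o, HasTy e (l / (1 - l)) σ o := by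
  rcases Ultrafilter.em v (fun i : ℕ × Bool => i.2 = true) with h | h
  · apply Typ_of_dich
    refine dichotomy S hl (v.map Prod.fst) (σ := σ) fun x => ?_
    rw [Ultrafilter.coe_map, tendsto_map'_iff]
    refine (hσ x).congr' ?_
    filter_upwards [h] with i hi
    rw [hi, show sg true = 1 from rfl, one_mul]
    rfl
  · apply Typ_of_dich
    have h1 := dichotomy S hl (v.map Prod.fst) (σ := -σ) fun x => by
      rw [Ultrafilter.coe_map, tendsto_map'_iff]
      refine ((hσ x).neg).congr' ?_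
      filter_upwards [h] with i hi
      have h2 : i.2 = false := by simpa using hi
      rw [h2, show sg false = -1 from rfl]
      simp
    rcases h1 with h1 | ⟨m, ε, h2, h3⟩
    · left
      rwa [norm_neg] at h1
    · right
      refine ⟨m, -ε, ?_, ?_⟩
      · rcases h2 with rfl | rfl
        · right; rfl
        · left; norm_num
      · have h4 : σ - (-ε) • e m = -(-σ - ε • e m) := by
          ext x
          change σ x - (-ε) * e m x = -(-σ x - ε * e m x)
          ring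
        rw [h4, norm_neg]
        exact h3

theorem dist_le_of_ty {r : ℝ} (hr : 0 ≤ r) {s s' : X →L[ℝ] ℝ} {o : Option (ℕ × Bool)}
    (h : HasTy e r s o) (h' : HasTy e r s' o) : ‖s - s'‖ ≤ 4 * r := by
  cases o with
  | none =>
    have h1 : ‖s‖ ≤ r := h
    have h2 : ‖s'‖ ≤ r := h'
    have h3 := norm_sub_le s s'
    linarith
  | some i =>
    have h1 : ‖s - sg i.2 • e i.1‖ ≤ 2 * r := h
    have h2 : ‖s' - sg i.2 • e i.1‖ ≤ 2 * r := h'
    have h3 := norm_sub_le (s - sg i.2 • e i.1) (s' - sg i.2 • e i.1)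
    rw [sub_sub_sub_cancel_right] at h3
    linarith

private theorem Typ_sg (b : Bool) : |sg b| = 1 := by
  cases b
  · rw [show sg false = -1 from rfl]; norm_num
  · rw [show sg true = 1 from rfl]; norm_num

private theorem Typ_pair (hL : IsL1 e g) {i i' : ℕ × Bool} (hne : i ≠ i') {a a' : ℝ}
    (ha : 0 ≤ a) (ha' : 0 ≤ a') :
    a + a' ≤ ‖a • (sg i.2 • e i.1) - a' • (sg i'.2 • e i'.1)‖ := by
  set u := a • (sg i.2 • e i.1) - a' • (sg i'.2 • e i'.1) with hu
  have hg : ∀ m, g m u = a * (sg i.2 * (if m = i.1 then 1 else 0)) -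
      a' * (sg i'.2 * (if m = i'.1 then 1 else 0)) := by
    intro m
    rw [hu, map_sub, map_smul, map_smul, map_smul, map_smul, hL.coord, hL.coord]
    rfl
  by_cases h1 : i.1 = i'.1
  · have h2 : i.2 ≠ i'.2 := fun h => hne (Prod.ext h1 h)
    have h4 := sum_le_hasSum {i.1} (fun _ _ => abs_nonneg _) (hL.norm u)
    rw [Finset.sum_singleton, hg, if_pos rfl, if_pos h1] at h4
    refine le_trans ?_ h4
    have h5 : sg i'.2 = - sg i.2 := by
      rcases i with ⟨n, b⟩
      rcases i' with ⟨n', b'⟩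
      cases b <;> cases b'
      · exact absurd rfl h2
      · change (1 : ℝ) = - -1
        norm_num
      · rfl
      · exact absurd rfl h2
    rw [h5]
    have h6 : a * (sg i.2 * 1) - a' * (-sg i.2 * 1) = (a + a') * sg i.2 := by ring
    rw [h6, abs_mul, Typ_sg, mul_one]
    exact le_abs_self _
  · have h4 := sum_le_hasSum {i.1, i'.1} (fun _ _ => abs_nonneg _) (hL.norm u)
    rw [Finset.sum_pair h1, hg, hg, if_pos rfl, if_neg h1, if_neg (Ne.symm h1), if_pos rfl] at h4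
    refine le_trans (le_of_eq ?_) h4
    have h5 : a * (sg i.2 * 1) - a' * (sg i'.2 * 0) = a * sg i.2 := by ring
    have h6 : a * (sg i.2 * 0) - a' * (sg i'.2 * 1) = -(a' * sg i'.2) := by ring
    rw [h5, h6, abs_neg, abs_mul, abs_mul, Typ_sg, Typ_sg, abs_of_nonneg ha, abs_of_nonneg ha']
    ring

private theorem Typ_norm (hL : IsL1 e g) (i : ℕ × Bool) : ‖sg i.2 • e i.1‖ = 1 := by
  rw [norm_smul, Real.norm_eq_abs, Typ_sg, one_mul, norm_e hL]

private theorem Typ_none {r : ℝ} (hL : IsL1 e g) {s s' : X →L[ℝ] ℝ} {i : ℕ × Bool}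
    (h : ‖s‖ ≤ r) (h' : ‖s' - sg i.2 • e i.1‖ ≤ 2 * r) {a a' : ℝ} (ha : 0 ≤ a) (ha' : 0 ≤ a') :
    a' * (1 - 2 * r) - a * r ≤ ‖a • s - a' • s'‖ := by
  have h1 : 1 - 2 * r ≤ ‖s'‖ := by
    have h2 := norm_sub_norm_le (sg i.2 • e i.1) s'
    rw [Typ_norm hL, norm_sub_rev] at h2
    linarith
  have h3 := norm_sub_norm_le (a' • s') (a • s)
  rw [norm_smul, norm_smul, Real.norm_eq_abs, Real.norm_eq_abs, abs_of_nonneg ha,
    abs_of_nonneg ha', norm_sub_rev] at h3
  have h4 : a' * (1 - 2 * r) ≤ a' * ‖s'‖ := mul_le_mul_of_nonneg_left h1 ha'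
  have h5 : a * ‖s‖ ≤ a * r := mul_le_mul_of_nonneg_left h ha
  linarith

private theorem Typ_some {r : ℝ} (hL : IsL1 e g) {s s' : X →L[ℝ] ℝ} {i i' : ℕ × Bool}
    (hne : i ≠ i') (h : ‖s - sg i.2 • e i.1‖ ≤ 2 * r) (h' : ‖s' - sg i'.2 • e i'.1‖ ≤ 2 * r)
    {a a' : ℝ} (ha : 0 ≤ a) (ha' : 0 ≤ a') :
    (a + a') * (1 - 2 * r) ≤ ‖a • s - a' • s'‖ := by
  have h1 := Typ_pair hL hne ha ha'
  have h2 : a • (sg i.2 • e i.1) - a' • (sg i'.2 • e i'.1) =
      (a • s - a' • s') - (a • (s - sg i.2 • e i.1) - a' • (s' - sg i'.2 • e i'.1)) := by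
    rw [smul_sub, smul_sub]
    abel
  have h3 := norm_sub_le (a • s - a' • s')
    (a • (s - sg i.2 • e i.1) - a' • (s' - sg i'.2 • e i'.1))
  rw [← h2] at h3
  have h4 := norm_sub_le (a • (s - sg i.2 • e i.1)) (a' • (s' - sg i'.2 • e i'.1))
  rw [norm_smul, norm_smul, Real.norm_eq_abs, Real.norm_eq_abs, abs_of_nonneg ha,
    abs_of_nonneg ha'] at h4
  have h5 : a * ‖s - sg i.2 • e i.1‖ ≤ a * (2 * r) := mul_le_mul_of_nonneg_left h ha
  have h6 : a' * ‖s' - sg i'.2 • e i'.1‖ ≤ a' * (2 * r) := mul_le_mul_of_nonneg_left h' ha'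
  linarith

theorem lt_dist_of_ty (hL : IsL1 e g) {r : ℝ} (hr0 : 0 ≤ r) (hr : 7 * r < 1)
    {s s' : X →L[ℝ] ℝ} {o o' : Option (ℕ × Bool)} (h : HasTy e r s o) (h' : HasTy e r s' o')
    (hne : o ≠ o') : 4 * r < ‖s - s'‖ := by
  cases o with
  | none =>
    cases o' with
    | none => exact absurd rfl hne
    | some i' =>
      have h1 := Typ_none hL (a := 1) (a' := 1) h h' zero_le_one zero_le_one
      rw [one_smul, one_smul] at h1
      linarith
  | some i =>
    cases o' with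
    | none =>
      have h1 := Typ_none hL (a := 1) (a' := 1) h' h zero_le_one zero_le_one
      rw [one_smul, one_smul, norm_sub_rev] at h1
      linarith
    | some i' =>
      have h1 := Typ_some hL (a := 1) (a' := 1) (fun hh => hne (congrArg some hh)) h h'
        zero_le_one zero_le_one
      rw [one_smul, one_smul] at h1
      linarith

theorem lt_of_ty_scaled (hL : IsL1 e g) {r c : ℝ} (hr0 : 0 ≤ r) (hr : 7 * r < 1)
    (hc : 2 < 3 * (1 - r) * c) {s s' : X →L[ℝ] ℝ} {o o' : Option (ℕ × Bool)}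
    (h : HasTy e r s o) (h' : HasTy e r s' o') (hne : o ≠ o') {a a' : ℝ} (ha : c ≤ a)
    (ha' : c ≤ a') (ha1 : a ≤ 1) (ha1' : a' ≤ 1) : 2 - a - a' < ‖a • s - a' • s'‖ := by
  have hc0 : 0 < c := by
    by_contra h0
    push Not at h0
    have : 3 * (1 - r) * c ≤ 0 := mul_nonpos_of_nonneg_of_nonpos (by linarith) h0
    linarith
  have ha0 : 0 ≤ a := hc0.le.trans ha
  have ha0' : 0 ≤ a' := hc0.le.trans ha'
  have q1 : (1 - r) * c ≤ (1 - r) * a := mul_le_mul_of_nonneg_left ha (by linarith)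
  have q2 : (1 - r) * c ≤ (1 - r) * a' := mul_le_mul_of_nonneg_left ha' (by linarith)
  cases o with
  | none =>
    cases o' with
    | none => exact absurd rfl hne
    | some i' =>
      have h1 := Typ_none hL (a := a) (a' := a') h h' ha0 ha0'
      nlinarith
  | some i =>
    cases o' with
    | none =>
      have h1 := Typ_none hL (a := a') (a' := a) h' h ha0' ha0
      rw [norm_sub_rev] at h1
      nlinarith
    | some i' =>
      have h1 := Typ_some hL (a := a) (a' := a') (fun hh => hne (congrArg some hh)) h h'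
        ha0 ha0'
      nlinarith

end Pool.Agent.H87.CS
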